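import Pool.Agent.Helper11.CKC.MDataC

/-!
# Project CKC: fast check of the bound of the multiplier

Quadtree on `(W Re w, W Im w)`. On a square the quotient `l` is enclosed by `|K l - lc| ≤ lr`, and
`K² W² M''` is compared with its value at the centre.
-/

set_option autoImplicit false

open Complex Metric Set
open scoped ComplexConjugate

namespace Pool.Agent.Helper11.CKC

open Pool.Agent.Helper20.CK (hf hf_le split_box zof_cast)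
open Pool.Agent.Helper69.EK3 (imul_cast' iadd_cast')

/-! ### the quadtree -/

/-- the quadtree -/
def qx (out leaf : ℤ → ℤ → ℕ → Bool) : ℕ → ℤ → ℤ → ℕ → Bool
  | 0, _, _, _ => false
  | n + 1, cx, cy, h =>
    or (out cx cy h) (or (leaf cx cy h)
      (and (and (qx out leaf n (Int.sub cx (Int.ofNat (hf h))) (Int.sub cy (Int.ofNat (hf h))) (hf h))
          (qx out leaf n (Int.sub cx (Int.ofNat (hf h))) (Int.add cy (Int.ofNat (hf h))) (hf h)))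
        (and (qx out leaf n (Int.add cx (Int.ofNat (hf h))) (Int.sub cy (Int.ofNat (hf h))) (hf h))
          (qx out leaf n (Int.add cx (Int.ofNat (hf h))) (Int.add cy (Int.ofNat (hf h)))
            (hf h)))))

theorem qx_sound {out leaf : ℤ → ℤ → ℕ → Bool} {X Y : ℝ} {P : Prop}
    (ho : ∀ (cx cy : ℤ) (h : ℕ), out cx cy h = true → |X - cx| ≤ h → |Y - cy| ≤ h → False)
    (hl : ∀ (cx cy : ℤ) (h : ℕ), leaf cx cy h = true → |X - cx| ≤ h → |Y - cy| ≤ h → P) :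
    ∀ (n : ℕ) (cx cy : ℤ) (h : ℕ), qx out leaf n cx cy h = true → |X - cx| ≤ h → |Y - cy| ≤ h →
      P := by
  intro n
  induction n with
  | zero => intro cx cy h h1; simp [qx] at h1
  | succ n ih =>
    intro cx cy h h1 hx hy
    simp only [qx, Bool.or_eq_true, Bool.and_eq_true] at h1
    rcases h1 with h1 | h1 | ⟨⟨a1, a2⟩, a3, a4⟩
    · exact (ho _ _ _ h1 hx hy).elim
    · exact hl _ _ _ h1 hx hy
    · rcases split_box hx with k | k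
      · rcases split_box hy with k' | k'
        · exact ih _ _ _ a1 k k'
        · exact ih _ _ _ a2 k k'
      · rcases split_box hy with k' | k'
        · exact ih _ _ _ a3 k k'
        · exact ih _ _ _ a4 k k'

/-! ### norms -/

/-- `2 ‖a + b i‖` is at most this -/
def n2 (a b : ℤ) : ℕ :=
  cond (Nat.ble (Int.natAbs a) (Int.natAbs b))
    (Nat.add (Nat.mul 2 (Int.natAbs b)) (Int.natAbs a))
    (Nat.add (Nat.mul 2 (Int.natAbs a)) (Int.natAbs b))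

theorem nadd_c (a b : ℕ) : ((Nat.add a b : ℕ) : ℝ) = a + b := by
  show (((a + b : ℕ)) : ℝ) = _
  push_cast
  ring

theorem nmul_c (a b : ℕ) : ((Nat.mul a b : ℕ) : ℝ) = a * b := by
  show (((a * b : ℕ)) : ℝ) = _
  push_cast
  ring

theorem isub_c (a b : ℤ) : ((Int.sub a b : ℤ) : ℝ) = a - b := by
  show (((a - b : ℤ)) : ℝ) = _
  push_cast
  ring

theorem nabs_c (a : ℤ) : ((Int.natAbs a : ℕ) : ℝ) = |(a : ℝ)| := by
  rw [← Int.cast_abs, Int.abs_eq_natAbs, Int.cast_natCast]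

/-- the complex number of two integers -/
noncomputable def zc (a b : ℤ) : ℂ := (a : ℂ) + (b : ℂ) * I

theorem zc_re (a b : ℤ) : (zc a b).re = a := by simp [zc]
theorem zc_im (a b : ℤ) : (zc a b).im = b := by simp [zc]

theorem n2_le (a b : ℤ) : 2 * ‖zc a b‖ ≤ (n2 a b : ℝ) := by
  have h1 : ‖zc a b‖ ^ 2 = (a : ℝ) ^ 2 + (b : ℝ) ^ 2 := by rw [nsq, zc_re, zc_im]
  have ea := sq_abs (a : ℝ)
  have eb := sq_abs (b : ℝ)
  have ha := abs_nonneg (a : ℝ)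
  have hb := abs_nonneg (b : ℝ)
  have h0 := norm_nonneg (zc a b)
  unfold n2
  cases h : Nat.ble (Int.natAbs a) (Int.natAbs b)
  · rw [cond_false, nadd_c, nmul_c, nabs_c, nabs_c]
    have h2 : ¬ Int.natAbs a ≤ Int.natAbs b := by
      rw [← Nat.ble_eq, h]
      simp
    have h3 : |(b : ℝ)| ≤ |(a : ℝ)| := by
      rw [← nabs_c, ← nabs_c]
      exact_mod_cast (not_le.1 h2).le
    have h4 : (2 * ‖zc a b‖) ^ 2 ≤ (((2 : ℕ) : ℝ) * |(a : ℝ)| + |(b : ℝ)|) ^ 2 := by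
      push_cast
      nlinarith
    exact le_of_sq_le_sq h4 (by positivity)
  · rw [cond_true, nadd_c, nmul_c, nabs_c, nabs_c]
    have h2 : Int.natAbs a ≤ Int.natAbs b := by
      rw [← Nat.ble_eq, h]
    have h3 : |(a : ℝ)| ≤ |(b : ℝ)| := by
      rw [← nabs_c, ← nabs_c]
      exact_mod_cast h2
    have h4 : (2 * ‖zc a b‖) ^ 2 ≤ (((2 : ℕ) : ℝ) * |(b : ℝ)| + |(a : ℝ)|) ^ 2 := by
      push_cast
      nlinarith
    exact le_of_sq_le_sq h4 (by positivity)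

/-! ### the coefficients -/

/-- coefficients of `1, l, l²` -/
structure C6 where
  (x0 y0 x1 y1 x2 y2 : ℤ)

noncomputable def C6.val (c : C6) (l : ℝ) : ℂ :=
  zc c.x0 c.y0 + zc c.x1 c.y1 * (l : ℂ) + zc c.x2 c.y2 * (l : ℂ) ^ 2

/-- `a0 K² + a1 K l + a2 l²` -/
def q0 (a0 a1 a2 K l : ℤ) : ℤ :=
  Int.add (Int.mul (Int.add (Int.mul a2 l) (Int.mul a1 K)) l) (Int.mul a0 (Int.mul K K))

/-- its derivative in `l` -/
def q1 (a1 a2 K l : ℤ) : ℤ := Int.add (Int.mul 2 (Int.mul a2 l)) (Int.mul a1 K)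

/-- twice the error of the coefficient -/
def eA (c : C6) (K l : ℤ) (lr : ℕ) : ℕ :=
  Nat.add (Nat.mul (n2 (q1 c.x1 c.x2 K l) (q1 c.y1 c.y2 K l)) lr)
    (Nat.mul (n2 c.x2 c.y2) (Nat.mul lr lr))

theorem eA_le (c : C6) {K lc : ℤ} {lr : ℕ} {l : ℝ} (h : |(K : ℝ) * l - lc| ≤ lr) :
    2 * ‖(K : ℂ) ^ 2 * c.val l - zc (q0 c.x0 c.x1 c.x2 K lc) (q0 c.y0 c.y1 c.y2 K lc)‖ ≤
      (eA c K lc lr : ℝ) := by
  obtain ⟨d, hd⟩ : ∃ d : ℝ, d = K * l - lc := ⟨_, rfl⟩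
  rw [← hd] at h
  have e : (K : ℂ) ^ 2 * c.val l - zc (q0 c.x0 c.x1 c.x2 K lc) (q0 c.y0 c.y1 c.y2 K lc) =
      zc (q1 c.x1 c.x2 K lc) (q1 c.y1 c.y2 K lc) * (d : ℂ) + zc c.x2 c.y2 * (d : ℂ) ^ 2 := by
    have e1 : ∀ a b : ℤ, ((Int.mul a b : ℤ) : ℂ) = a * b := fun a b => by
      show (((a * b : ℤ)) : ℂ) = _
      push_cast
      ring
    have e2 : ∀ a b : ℤ, ((Int.add a b : ℤ) : ℂ) = a + b := fun a b => by
      show (((a + b : ℤ)) : ℂ) = _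
      push_cast
      ring
    unfold C6.val zc q0 q1
    simp only [e1, e2]
    rw [hd]
    push_cast
    ring
  rw [e]
  have h1 := n2_le (q1 c.x1 c.x2 K lc) (q1 c.y1 c.y2 K lc)
  have h2 := n2_le c.x2 c.y2
  have h3 := norm_add_le (zc (q1 c.x1 c.x2 K lc) (q1 c.y1 c.y2 K lc) * (d : ℂ))
    (zc c.x2 c.y2 * (d : ℂ) ^ 2)
  rw [norm_mul, norm_mul, norm_pow, Complex.norm_real, Real.norm_eq_abs] at h3
  unfold eA
  rw [nadd_c, nmul_c, nmul_c, nmul_c]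
  have hd0 := abs_nonneg d
  have hl0 : (0:ℝ) ≤ lr := Nat.cast_nonneg lr
  have k1 := mul_le_mul h1 h hd0 (Nat.cast_nonneg _)
  have k2 := mul_le_mul h2 (mul_le_mul h h hd0 hl0) (mul_nonneg hd0 hd0) (Nat.cast_nonneg _)
  nlinarith

/-! ### the leaf -/

/-- the last test: `t0` is the value at the centre, `E8` eight times the error -/
def tst (Bd BB8 : ℕ) (t0R t0I : ℤ) (E8 : ℕ) : Bool :=
  and (Nat.ble (Nat.mul Bd E8) BB8)
    (Nat.ble (Nat.mul (Nat.mul 64 (Nat.mul Bd Bd))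
        (Nat.add (Nat.mul (Int.natAbs t0R) (Int.natAbs t0R))
          (Nat.mul (Int.natAbs t0I) (Int.natAbs t0I))))
      (Nat.mul (Nat.sub BB8 (Nat.mul Bd E8)) (Nat.sub BB8 (Nat.mul Bd E8))))

theorem tst_le {Bd BB8 : ℕ} {t0R t0I : ℤ} {E8 : ℕ} (h : tst Bd BB8 t0R t0I E8 = true) :
    8 * Bd * ‖zc t0R t0I‖ + Bd * E8 ≤ (BB8 : ℝ) := by
  simp only [tst, Bool.and_eq_true, Nat.ble_eq] at h
  obtain ⟨h1, h2⟩ := h
  have h1' : ((Nat.mul Bd E8 : ℕ) : ℝ) ≤ BB8 := by exact_mod_cast h1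
  have h3 : ((Nat.sub BB8 (Nat.mul Bd E8) : ℕ) : ℝ) = BB8 - Bd * E8 := by
    have : Nat.sub BB8 (Nat.mul Bd E8) = BB8 - Nat.mul Bd E8 := rfl
    rw [this, Nat.cast_sub h1, nmul_c]
  have h2' : ((Nat.mul (Nat.mul 64 (Nat.mul Bd Bd))
        (Nat.add (Nat.mul (Int.natAbs t0R) (Int.natAbs t0R))
          (Nat.mul (Int.natAbs t0I) (Int.natAbs t0I))) : ℕ) : ℝ) ≤
      ((Nat.mul (Nat.sub BB8 (Nat.mul Bd E8)) (Nat.sub BB8 (Nat.mul Bd E8)) : ℕ) : ℝ) := by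
    exact_mod_cast h2
  rw [nmul_c, nmul_c, nmul_c, nadd_c, nmul_c, nmul_c, nmul_c, nabs_c, nabs_c, h3] at h2'
  rw [nmul_c] at h1'
  have h4 : ‖zc t0R t0I‖ ^ 2 = (t0R : ℝ) ^ 2 + (t0I : ℝ) ^ 2 := by rw [nsq, zc_re, zc_im]
  have h5 : (8 * Bd * ‖zc t0R t0I‖) ^ 2 ≤ ((BB8 : ℝ) - Bd * E8) ^ 2 := by
    have e : (8 * Bd * ‖zc t0R t0I‖) ^ 2 = 64 * (Bd * Bd) * ‖zc t0R t0I‖ ^ 2 := by ring
    rw [e, h4, ← sq_abs (t0R : ℝ), ← sq_abs (t0I : ℝ)]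
    push_cast at h2'
    nlinarith
  have h6 := le_of_sq_le_sq h5 (by linarith)
  linarith

/-- eight times the error of the leaf -/
def eL (W : ℕ) (e0 e1 e2 Z2 d1 d2 h : ℕ) : ℕ :=
  Nat.add (Nat.add (Nat.mul 4 (Nat.mul e0 (Nat.mul W W))) (Nat.mul 2 (Nat.mul e1 (Nat.mul Z2 W))))
    (Nat.add (Nat.mul e2 (Nat.mul Z2 Z2)) (Nat.mul h (Nat.add (Nat.mul 6 d1)
      (Nat.mul 9 (Nat.mul d2 h)))))

/-- the leaf once `A_1 W + A_2 cz` (`g`) and `A_2 cz` (`p`) are known -/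
def lf2 (W Bd BB8 : ℕ) (a0R a0I gR gI pR pI a2R a2I cx cy : ℤ) (h e0 e1 e2 : ℕ) : Bool :=
  tst Bd BB8
    (Int.add (Int.mul a0R (Int.mul (Int.ofNat W) (Int.ofNat W)))
      (Int.add (Int.mul gR cx) (Int.mul gI cy)))
    (Int.add (Int.mul a0I (Int.mul (Int.ofNat W) (Int.ofNat W)))
      (Int.sub (Int.mul gI cx) (Int.mul gR cy)))
    (eL W e0 e1 e2 (Nat.add (n2 cx cy) (Nat.mul 3 h)) (n2 (Int.add gR pR) (Int.add gI pI))
      (n2 a2R a2I) h)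

def lf1 (W Bd BB8 : ℕ) (a0R a0I a1R a1I a2R a2I cx cy pR pI : ℤ) (h e0 e1 e2 : ℕ) : Bool :=
  lf2 W Bd BB8 a0R a0I (Int.add (Int.mul a1R (Int.ofNat W)) pR)
    (Int.add (Int.mul a1I (Int.ofNat W)) pI) pR pI a2R a2I cx cy h e0 e1 e2

def lf0 (W Bd BB8 : ℕ) (a0R a0I a1R a1I a2R a2I cx cy : ℤ) (h e0 e1 e2 : ℕ) : Bool :=
  lf1 W Bd BB8 a0R a0I a1R a1I a2R a2I cx cy (Int.add (Int.mul a2R cx) (Int.mul a2I cy))
    (Int.sub (Int.mul a2I cx) (Int.mul a2R cy)) h e0 e1 e2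

/-- the leaf with a given enclosure of `l` -/
def lfl (W Bd BB8 : ℕ) (K : ℤ) (c0 c1 c2 : C6) (cx cy : ℤ) (h : ℕ) (lc : ℤ) (lr : ℕ) : Bool :=
  lf0 W Bd BB8 (q0 c0.x0 c0.x1 c0.x2 K lc) (q0 c0.y0 c0.y1 c0.y2 K lc)
    (q0 c1.x0 c1.x1 c1.x2 K lc) (q0 c1.y0 c1.y1 c1.y2 K lc)
    (q0 c2.x0 c2.x1 c2.x2 K lc) (q0 c2.y0 c2.y1 c2.y2 K lc) cx cy h
    (eA c0 K lc lr) (eA c1 K lc lr) (eA c2 K lc lr)

theorem lf0_le {W Bd BB8 : ℕ} {a0R a0I a1R a1I a2R a2I cx cy : ℤ} {h e0 e1 e2 : ℕ}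
    (ht : lf0 W Bd BB8 a0R a0I a1R a1I a2R a2I cx cy h e0 e1 e2 = true) {A0 A1 A2 w : ℂ}
    (h0 : 2 * ‖A0 - zc a0R a0I‖ ≤ e0) (h1 : 2 * ‖A1 - zc a1R a1I‖ ≤ e1)
    (h2 : 2 * ‖A2 - zc a2R a2I‖ ≤ e2) (hx : |(W : ℝ) * w.re - cx| ≤ h)
    (hy : |(W : ℝ) * w.im - cy| ≤ h) :
    8 * Bd * ‖(W : ℂ) ^ 2 * (A0 + A1 * conj w + A2 * conj w ^ 2)‖ ≤ (BB8 : ℝ) := by
  have hT := tst_le ht
  obtain ⟨c, hc⟩ : ∃ c : ℂ, c = zc cx (-cy) := ⟨_, rfl⟩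
  obtain ⟨δ, hδ⟩ : ∃ δ : ℂ, δ = (W : ℂ) * conj w - c := ⟨_, rfl⟩
  obtain ⟨ζ, hζ⟩ : ∃ ζ : ℂ, ζ = (W : ℂ) * conj w := ⟨_, rfl⟩
  have hz : ζ = c + δ := by rw [hδ, hζ]; ring
  have hδn : 2 * ‖δ‖ ≤ 3 * h := by
    have e1 : δ.re = (W : ℝ) * w.re - cx := by
      rw [hδ, hc, sub_re, zc_re]
      simp
    have e2 : δ.im = -((W : ℝ) * w.im - cy) := by
      rw [hδ, hc, sub_im, zc_im]
      simp
      ring
    have e3 : ‖δ‖ ^ 2 = ((W : ℝ) * w.re - cx) ^ 2 + ((W : ℝ) * w.im - cy) ^ 2 := by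
      rw [nsq, e1, e2]
      ring
    have hh : (0:ℝ) ≤ h := Nat.cast_nonneg h
    have k1 : ((W : ℝ) * w.re - cx) ^ 2 ≤ (h : ℝ) ^ 2 := by
      rw [← sq_abs]
      exact pow_le_pow_left₀ (abs_nonneg _) hx 2
    have k2 : ((W : ℝ) * w.im - cy) ^ 2 ≤ (h : ℝ) ^ 2 := by
      rw [← sq_abs]
      exact pow_le_pow_left₀ (abs_nonneg _) hy 2
    have k3 : (2 * ‖δ‖) ^ 2 ≤ (3 * (h : ℝ)) ^ 2 := by
      rw [mul_pow, e3]
      nlinarith
    exact le_of_sq_le_sq k3 (by positivity)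
  have hcn : 2 * ‖c‖ ≤ (n2 cx cy : ℝ) := by
    have := n2_le cx cy
    have e : ‖c‖ = ‖zc cx cy‖ := by
      have e1 : ‖c‖ ^ 2 = ‖zc cx cy‖ ^ 2 := by
        rw [hc, nsq, nsq, zc_re, zc_im, zc_re, zc_im]
        push_cast
        ring
      exact (sq_eq_sq₀ (norm_nonneg _) (norm_nonneg _)).1 e1
    rw [e]
    exact this
  obtain ⟨Z2, hZ2⟩ : ∃ Z2 : ℕ, Z2 = Nat.add (n2 cx cy) (Nat.mul 3 h) := ⟨_, rfl⟩
  have hζn : 2 * ‖ζ‖ ≤ (Z2 : ℝ) := by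
    rw [hz, hZ2, nadd_c, nmul_c]
    have := norm_add_le c δ
    push_cast
    linarith
  -- the values of the test
  have eT : zc (Int.add (Int.mul a0R (Int.mul (Int.ofNat W) (Int.ofNat W)))
      (Int.add (Int.mul (Int.add (Int.mul a1R (Int.ofNat W))
        (Int.add (Int.mul a2R cx) (Int.mul a2I cy))) cx)
        (Int.mul (Int.add (Int.mul a1I (Int.ofNat W))
          (Int.sub (Int.mul a2I cx) (Int.mul a2R cy))) cy)))
    (Int.add (Int.mul a0I (Int.mul (Int.ofNat W) (Int.ofNat W)))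
      (Int.sub (Int.mul (Int.add (Int.mul a1I (Int.ofNat W))
          (Int.sub (Int.mul a2I cx) (Int.mul a2R cy))) cx)
        (Int.mul (Int.add (Int.mul a1R (Int.ofNat W))
          (Int.add (Int.mul a2R cx) (Int.mul a2I cy))) cy))) =
      zc a0R a0I * (W : ℂ) ^ 2 + zc a1R a1I * (W : ℂ) * c + zc a2R a2I * c ^ 2 := by
    apply Complex.ext
    · rw [zc_re, hc]
      unfold zc
      simp only [iadd_cast', imul_cast', isub_c, zof_cast, pow_two, add_re, mul_re, add_im,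
        mul_im, intCast_re, intCast_im, I_re, I_im, natCast_re, natCast_im]
      push_cast
      ring
    · rw [zc_im, hc]
      unfold zc
      simp only [iadd_cast', imul_cast', isub_c, zof_cast, pow_two, add_re, mul_re, add_im,
        mul_im, intCast_re, intCast_im, I_re, I_im, natCast_re, natCast_im]
      push_cast
      ring
  have eD : zc (Int.add (Int.add (Int.mul a1R (Int.ofNat W))
        (Int.add (Int.mul a2R cx) (Int.mul a2I cy))) (Int.add (Int.mul a2R cx) (Int.mul a2I cy)))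
      (Int.add (Int.add (Int.mul a1I (Int.ofNat W))
        (Int.sub (Int.mul a2I cx) (Int.mul a2R cy))) (Int.sub (Int.mul a2I cx) (Int.mul a2R cy))) =
      zc a1R a1I * (W : ℂ) + 2 * (zc a2R a2I * c) := by
    apply Complex.ext
    · rw [zc_re, hc]
      unfold zc
      simp only [iadd_cast', imul_cast', isub_c, zof_cast, pow_two, add_re, mul_re, add_im,
        mul_im, intCast_re, intCast_im, I_re, I_im, natCast_re, natCast_im, re_ofNat, im_ofNat]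
      push_cast
      ring
    · rw [zc_im, hc]
      unfold zc
      simp only [iadd_cast', imul_cast', isub_c, zof_cast, pow_two, add_re, mul_re, add_im,
        mul_im, intCast_re, intCast_im, I_re, I_im, natCast_re, natCast_im, re_ofNat, im_ofNat]
      push_cast
      ring
  rw [eT] at hT
  have hD := n2_le (Int.add (Int.add (Int.mul a1R (Int.ofNat W))
        (Int.add (Int.mul a2R cx) (Int.mul a2I cy))) (Int.add (Int.mul a2R cx) (Int.mul a2I cy)))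
      (Int.add (Int.add (Int.mul a1I (Int.ofNat W))
        (Int.sub (Int.mul a2I cx) (Int.mul a2R cy))) (Int.sub (Int.mul a2I cx) (Int.mul a2R cy)))
  rw [eD] at hD
  obtain ⟨d1, hd1⟩ : ∃ d1 : ℕ, d1 = n2 (Int.add (Int.add (Int.mul a1R (Int.ofNat W))
        (Int.add (Int.mul a2R cx) (Int.mul a2I cy))) (Int.add (Int.mul a2R cx) (Int.mul a2I cy)))
      (Int.add (Int.add (Int.mul a1I (Int.ofNat W))
        (Int.sub (Int.mul a2I cx) (Int.mul a2R cy)))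
          (Int.sub (Int.mul a2I cx) (Int.mul a2R cy))) := ⟨_, rfl⟩
  rw [← hd1] at hD
  have hA2 := n2_le a2R a2I
  rw [← hd1, ← hZ2] at hT
  unfold eL at hT
  simp only [nadd_c, nmul_c] at hT
  -- the identity
  have eI : (W : ℂ) ^ 2 * (A0 + A1 * conj w + A2 * conj w ^ 2) =
      (zc a0R a0I * (W : ℂ) ^ 2 + zc a1R a1I * (W : ℂ) * c + zc a2R a2I * c ^ 2) +
      ((zc a1R a1I * (W : ℂ) + 2 * (zc a2R a2I * c)) * δ + zc a2R a2I * (δ * δ) +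
        ((A0 - zc a0R a0I) * ((W : ℂ) * (W : ℂ)) + (A1 - zc a1R a1I) * (ζ * (W : ℂ)) +
          (A2 - zc a2R a2I) * (ζ * ζ))) := by
    have e1 : (W : ℂ) ^ 2 * (A0 + A1 * conj w + A2 * conj w ^ 2) =
        A0 * (W : ℂ) ^ 2 + A1 * (W : ℂ) * ζ + A2 * ζ ^ 2 := by rw [hζ]; ring
    rw [e1, hz]
    ring
  rw [eI]
  have n1 := norm_add_le (zc a0R a0I * (W : ℂ) ^ 2 + zc a1R a1I * (W : ℂ) * c +
      zc a2R a2I * c ^ 2) ((zc a1R a1I * (W : ℂ) + 2 * (zc a2R a2I * c)) * δ +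
      zc a2R a2I * (δ * δ) + ((A0 - zc a0R a0I) * ((W : ℂ) * (W : ℂ)) +
      (A1 - zc a1R a1I) * (ζ * (W : ℂ)) + (A2 - zc a2R a2I) * (ζ * ζ)))
  have n3 := norm_add_le ((zc a1R a1I * (W : ℂ) + 2 * (zc a2R a2I * c)) * δ +
      zc a2R a2I * (δ * δ)) ((A0 - zc a0R a0I) * ((W : ℂ) * (W : ℂ)) +
      (A1 - zc a1R a1I) * (ζ * (W : ℂ)) + (A2 - zc a2R a2I) * (ζ * ζ))
  have n4 := norm_add_le ((zc a1R a1I * (W : ℂ) + 2 * (zc a2R a2I * c)) * δ)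
      (zc a2R a2I * (δ * δ))
  have n5 := norm_add_le ((A0 - zc a0R a0I) * ((W : ℂ) * (W : ℂ)) +
      (A1 - zc a1R a1I) * (ζ * (W : ℂ))) ((A2 - zc a2R a2I) * (ζ * ζ))
  have n6 := norm_add_le ((A0 - zc a0R a0I) * ((W : ℂ) * (W : ℂ)))
      ((A1 - zc a1R a1I) * (ζ * (W : ℂ)))
  have hWn : ‖(W : ℂ)‖ = (W : ℝ) := by simp
  simp only [norm_mul, hWn] at n3 n4 n5 n6
  have hW0 : (0:ℝ) ≤ W := Nat.cast_nonneg W
  have hh0 : (0:ℝ) ≤ h := Nat.cast_nonneg h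
  have hZ0 : (0:ℝ) ≤ Z2 := Nat.cast_nonneg Z2
  have p1 : ‖(zc a1R a1I * (W : ℂ) + 2 * (zc a2R a2I * c))‖ * ‖δ‖ * 4 ≤ d1 * (3 * h) := by
    have := mul_le_mul hD hδn (by positivity) (Nat.cast_nonneg d1)
    linarith
  have p2 : ‖zc a2R a2I‖ * (‖δ‖ * ‖δ‖) * 8 ≤ (n2 a2R a2I : ℝ) * (9 * (h * h)) := by
    have := mul_le_mul hA2 (mul_le_mul hδn hδn (by positivity) (by positivity)) (by positivity)
      (Nat.cast_nonneg _)
    linarith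
  have p3 : ‖A0 - zc a0R a0I‖ * ((W : ℝ) * W) * 2 ≤ e0 * (W * W) := by
    have := mul_le_mul_of_nonneg_right h0 (mul_nonneg hW0 hW0)
    linarith
  have p4 : ‖A1 - zc a1R a1I‖ * (‖ζ‖ * (W : ℝ)) * 4 ≤ e1 * (Z2 * W) := by
    have := mul_le_mul h1 (mul_le_mul_of_nonneg_right hζn hW0) (by positivity)
      (Nat.cast_nonneg _)
    linarith
  have p5 : ‖A2 - zc a2R a2I‖ * (‖ζ‖ * ‖ζ‖) * 8 ≤ e2 * (Z2 * Z2) := by
    have := mul_le_mul h2 (mul_le_mul hζn hζn (by positivity) hZ0) (by positivity)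
      (Nat.cast_nonneg _)
    linarith
  obtain ⟨T, hTd⟩ : ∃ T : ℂ, T = zc a0R a0I * (W : ℂ) ^ 2 + zc a1R a1I * (W : ℂ) * c +
      zc a2R a2I * c ^ 2 := ⟨_, rfl⟩
  rw [← hTd] at hT n1 ⊢
  obtain ⟨U, hU⟩ : ∃ U : ℝ, U = ‖(zc a1R a1I * (W : ℂ) + 2 * (zc a2R a2I * c)) * δ +
      zc a2R a2I * (δ * δ) + ((A0 - zc a0R a0I) * ((W : ℂ) * (W : ℂ)) +
      (A1 - zc a1R a1I) * (ζ * (W : ℂ)) + (A2 - zc a2R a2I) * (ζ * ζ))‖ := ⟨_, rfl⟩
  have hU8 : 8 * U ≤ 4 * (e0 * ((W : ℝ) * W)) + 2 * (e1 * (Z2 * W)) + (e2 * (Z2 * Z2) +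
      h * (6 * d1 + 9 * ((n2 a2R a2I : ℝ) * h))) := by
    rw [hU]
    linarith
  rw [← hU] at n1
  have hB0 : (0:ℝ) ≤ 8 * Bd := by positivity
  have n7 := mul_le_mul_of_nonneg_left n1 hB0
  have hB1 : (0:ℝ) ≤ Bd := Nat.cast_nonneg _
  have n8 := mul_le_mul_of_nonneg_left hU8 hB1
  push_cast at hT
  refine n7.trans ?_
  have e9 : 8 * (Bd : ℝ) * (‖T‖ + U) = 8 * Bd * ‖T‖ + Bd * (8 * U) := by ring
  rw [e9]
  linarith

theorem lfl_le {W Bd BB8 : ℕ} {K : ℤ} {c0 c1 c2 : C6} {cx cy : ℤ} {h : ℕ} {lc : ℤ} {lr : ℕ}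
    (ht : lfl W Bd BB8 K c0 c1 c2 cx cy h lc lr = true) {w : ℂ} {l : ℝ}
    (hl : |(K : ℝ) * l - lc| ≤ lr) (hx : |(W : ℝ) * w.re - cx| ≤ h)
    (hy : |(W : ℝ) * w.im - cy| ≤ h) :
    8 * Bd * ((W : ℝ) ^ 2 * (K : ℝ) ^ 2 *
      ‖c0.val l + c1.val l * conj w + c2.val l * conj w ^ 2‖) ≤ (BB8 : ℝ) := by
  have key := lf0_le ht (eA_le c0 hl) (eA_le c1 hl) (eA_le c2 hl) hx hy
  have e : (W : ℂ) ^ 2 * ((K : ℂ) ^ 2 * c0.val l + (K : ℂ) ^ 2 * c1.val l * conj w +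
      (K : ℂ) ^ 2 * c2.val l * conj w ^ 2) = ((W : ℂ) ^ 2 * (K : ℂ) ^ 2) *
      (c0.val l + c1.val l * conj w + c2.val l * conj w ^ 2) := by ring
  rw [e, norm_mul, norm_mul, norm_pow, norm_pow] at key
  have e1 : ‖(W : ℂ)‖ = (W : ℝ) := by simp
  have e2 : ‖(K : ℂ)‖ ^ 2 = (K : ℝ) ^ 2 := by
    rw [norm_intCast, sq_abs]
  rw [e1, e2] at key
  exact key

end Pool.Agent.Helper11.CKC
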