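import Pool.Agent.Helper11.CKC.Fast

/-!
# Project CKC: fast check of the bound of the multiplier, degree 3 in `conj w`

As `Helper11.CKC.Box`, `Helper11.CKC.Fast`, with a fourth coefficient.
-/

set_option autoImplicit false

open Complex Metric Set
open scoped ComplexConjugate

namespace Pool.Agent.Helper11.CKC.D3

open Pool.Agent.Helper11.CKC
open Pool.Agent.Helper20.CK (hf hf_le split_box zof_cast ROk)
open Pool.Agent.Helper69.EK3 (rF rF_eq imul_cast' iadd_cast')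
open Pool.Agent.Helper82.CKC (wu mOk_dir)
open Pool.Agent.Helper69.CK (MOk)

/-! ### the leaf -/

/-- the last test: `t0` is the value at the centre, `E` sixteen times the error -/
def tst (Bd BB : ℕ) (t0R t0I : ℤ) (E : ℕ) : Bool :=
  and (Nat.ble (Nat.mul Bd E) BB)
    (Nat.ble (Nat.mul (Nat.mul 256 (Nat.mul Bd Bd))
        (Nat.add (Nat.mul (Int.natAbs t0R) (Int.natAbs t0R))
          (Nat.mul (Int.natAbs t0I) (Int.natAbs t0I))))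
      (Nat.mul (Nat.sub BB (Nat.mul Bd E)) (Nat.sub BB (Nat.mul Bd E))))

theorem tst_le {Bd BB : ℕ} {t0R t0I : ℤ} {E : ℕ} (h : tst Bd BB t0R t0I E = true) :
    16 * Bd * ‖zc t0R t0I‖ + Bd * E ≤ (BB : ℝ) := by
  simp only [tst, Bool.and_eq_true, Nat.ble_eq] at h
  obtain ⟨h1, h2⟩ := h
  have h1' : ((Nat.mul Bd E : ℕ) : ℝ) ≤ BB := by exact_mod_cast h1
  have h3 : ((Nat.sub BB (Nat.mul Bd E) : ℕ) : ℝ) = BB - Bd * E := by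
    have : Nat.sub BB (Nat.mul Bd E) = BB - Nat.mul Bd E := rfl
    rw [this, Nat.cast_sub h1, nmul_c]
  have h2' : ((Nat.mul (Nat.mul 256 (Nat.mul Bd Bd))
        (Nat.add (Nat.mul (Int.natAbs t0R) (Int.natAbs t0R))
          (Nat.mul (Int.natAbs t0I) (Int.natAbs t0I))) : ℕ) : ℝ) ≤
      ((Nat.mul (Nat.sub BB (Nat.mul Bd E)) (Nat.sub BB (Nat.mul Bd E)) : ℕ) : ℝ) := by
    exact_mod_cast h2
  rw [nmul_c, nmul_c, nmul_c, nadd_c, nmul_c, nmul_c, nmul_c, nabs_c, nabs_c, h3] at h2'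
  rw [nmul_c] at h1'
  have h4 : ‖zc t0R t0I‖ ^ 2 = (t0R : ℝ) ^ 2 + (t0I : ℝ) ^ 2 := by rw [nsq, zc_re, zc_im]
  have h5 : (16 * Bd * ‖zc t0R t0I‖) ^ 2 ≤ ((BB : ℝ) - Bd * E) ^ 2 := by
    have e : (16 * Bd * ‖zc t0R t0I‖) ^ 2 = 256 * (Bd * Bd) * ‖zc t0R t0I‖ ^ 2 := by ring
    rw [e, h4, ← sq_abs (t0R : ℝ), ← sq_abs (t0I : ℝ)]
    push_cast at h2'
    nlinarith
  have h6 := le_of_sq_le_sq h5 (by linarith)
  linarith

/-- sixteen times the error of the leaf -/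
def eL (W : ℕ) (e0 e1 e2 e3 Z2 d1 d2 d3 h : ℕ) : ℕ :=
  Nat.add (Nat.add (Nat.mul 8 (Nat.mul e0 (Nat.mul W (Nat.mul W W))))
      (Nat.mul 4 (Nat.mul e1 (Nat.mul Z2 (Nat.mul W W)))))
    (Nat.add (Nat.add (Nat.mul 2 (Nat.mul e2 (Nat.mul (Nat.mul Z2 Z2) W)))
        (Nat.mul e3 (Nat.mul (Nat.mul Z2 Z2) Z2)))
      (Nat.mul h (Nat.add (Nat.mul 12 d1) (Nat.mul h (Nat.add (Nat.mul 18 d2)
        (Nat.mul 27 (Nat.mul d3 h)))))))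

/-- `b = A_3 cz`, `p = A_2 W + b` , `g = A_1 W² + p cz`: `T = A_0 W³ + g cz`,
`P' = g + (p + b) cz`, `P''/2 = p + 2 b` -/
def lf4 (W Bd BB : ℕ) (a0R a0I gR gI uR uI qR qI a3R a3I cx cy : ℤ) (h e0 e1 e2 e3 : ℕ) : Bool :=
  tst Bd BB
    (Int.add (Int.mul a0R (Int.ofNat (Nat.mul W (Nat.mul W W))))
      (Int.add (Int.mul gR cx) (Int.mul gI cy)))
    (Int.add (Int.mul a0I (Int.ofNat (Nat.mul W (Nat.mul W W))))
      (Int.sub (Int.mul gI cx) (Int.mul gR cy)))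
    (eL W e0 e1 e2 e3 (Nat.add (n2 cx cy) (Nat.mul 3 h)) (n2 (Int.add gR uR) (Int.add gI uI))
      (n2 qR qI) (n2 a3R a3I) h)

/-- `p`, `b` known -/
def lf3 (W Bd BB : ℕ) (a0R a0I a1R a1I a3R a3I cx cy bR bI pR pI : ℤ) (h e0 e1 e2 e3 : ℕ) :
    Bool :=
  lf4 W Bd BB a0R a0I
    (Int.add (Int.mul a1R (Int.ofNat (Nat.mul W W))) (Int.add (Int.mul pR cx) (Int.mul pI cy)))
    (Int.add (Int.mul a1I (Int.ofNat (Nat.mul W W))) (Int.sub (Int.mul pI cx) (Int.mul pR cy)))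
    (Int.add (Int.mul (Int.add pR bR) cx) (Int.mul (Int.add pI bI) cy))
    (Int.sub (Int.mul (Int.add pI bI) cx) (Int.mul (Int.add pR bR) cy))
    (Int.add pR (Int.mul 2 bR)) (Int.add pI (Int.mul 2 bI)) a3R a3I cx cy h e0 e1 e2 e3

def lf1 (W Bd BB : ℕ) (a0R a0I a1R a1I a2R a2I a3R a3I cx cy bR bI : ℤ)
    (h e0 e1 e2 e3 : ℕ) : Bool :=
  lf3 W Bd BB a0R a0I a1R a1I a3R a3I cx cy bR bI (Int.add (Int.mul a2R (Int.ofNat W)) bR)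
    (Int.add (Int.mul a2I (Int.ofNat W)) bI) h e0 e1 e2 e3

def lf0 (W Bd BB : ℕ) (a0R a0I a1R a1I a2R a2I a3R a3I cx cy : ℤ) (h e0 e1 e2 e3 : ℕ) : Bool :=
  lf1 W Bd BB a0R a0I a1R a1I a2R a2I a3R a3I cx cy (Int.add (Int.mul a3R cx) (Int.mul a3I cy))
    (Int.sub (Int.mul a3I cx) (Int.mul a3R cy)) h e0 e1 e2 e3

/-- the leaf with a given enclosure of `l` -/
def lfl (W Bd BB : ℕ) (K : ℤ) (c0 c1 c2 c3 : C6) (cx cy : ℤ) (h : ℕ) (lc : ℤ) (lr : ℕ) : Bool :=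
  lf0 W Bd BB (q0 c0.x0 c0.x1 c0.x2 K lc) (q0 c0.y0 c0.y1 c0.y2 K lc)
    (q0 c1.x0 c1.x1 c1.x2 K lc) (q0 c1.y0 c1.y1 c1.y2 K lc)
    (q0 c2.x0 c2.x1 c2.x2 K lc) (q0 c2.y0 c2.y1 c2.y2 K lc)
    (q0 c3.x0 c3.x1 c3.x2 K lc) (q0 c3.y0 c3.y1 c3.y2 K lc) cx cy h
    (eA c0 K lc lr) (eA c1 K lc lr) (eA c2 K lc lr) (eA c3 K lc lr)

/-- a complex product with `conj (cx + cy i)` -/
theorem zc_mul (a b cx cy : ℤ) : zc a b * zc cx (-cy) =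
    zc (Int.add (Int.mul a cx) (Int.mul b cy)) (Int.sub (Int.mul b cx) (Int.mul a cy)) := by
  apply Complex.ext
  · rw [mul_re, zc_re, zc_im, zc_re, zc_im, zc_re, iadd_cast', imul_cast', imul_cast']
    push_cast
    ring
  · rw [mul_im, zc_re, zc_im, zc_re, zc_im, zc_im, isub_c, imul_cast', imul_cast']
    push_cast
    ring

theorem zc_add (a b c d : ℤ) : zc a b + zc c d = zc (Int.add a c) (Int.add b d) := by
  apply Complex.ext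
  · rw [add_re, zc_re, zc_re, zc_re, iadd_cast']
  · rw [add_im, zc_im, zc_im, zc_im, iadd_cast']

theorem zc_smul (a b c : ℤ) : zc a b * (c : ℂ) = zc (Int.mul a c) (Int.mul b c) := by
  apply Complex.ext
  · rw [mul_re, zc_re, zc_im, zc_re, imul_cast', intCast_re, intCast_im]
    ring
  · rw [mul_im, zc_re, zc_im, zc_im, imul_cast', intCast_re, intCast_im]
    ring

theorem zc_two (a b : ℤ) : 2 * zc a b = zc (Int.mul 2 a) (Int.mul 2 b) := by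
  apply Complex.ext
  · rw [mul_re, zc_re, zc_im, zc_re, imul_cast', re_ofNat, im_ofNat]
    push_cast
    ring
  · rw [mul_im, zc_re, zc_im, zc_im, imul_cast', re_ofNat, im_ofNat]
    push_cast
    ring

theorem lf0_le {W Bd BB : ℕ} {a0R a0I a1R a1I a2R a2I a3R a3I cx cy : ℤ}
    {h e0 e1 e2 e3 : ℕ}
    (ht : lf0 W Bd BB a0R a0I a1R a1I a2R a2I a3R a3I cx cy h e0 e1 e2 e3 = true)
    {A0 A1 A2 A3 w : ℂ}
    (h0 : 2 * ‖A0 - zc a0R a0I‖ ≤ e0) (h1 : 2 * ‖A1 - zc a1R a1I‖ ≤ e1)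
    (h2 : 2 * ‖A2 - zc a2R a2I‖ ≤ e2) (h3 : 2 * ‖A3 - zc a3R a3I‖ ≤ e3)
    (hx : |(W : ℝ) * w.re - cx| ≤ h) (hy : |(W : ℝ) * w.im - cy| ≤ h) :
    16 * Bd * ‖(W : ℂ) ^ 3 * (A0 + A1 * conj w + A2 * conj w ^ 2 + A3 * conj w ^ 3)‖ ≤
      (BB : ℝ) := by
  have hT := tst_le ht
  obtain ⟨c, hc⟩ : ∃ c : ℂ, c = zc cx (-cy) := ⟨_, rfl⟩
  obtain ⟨δ, hδ⟩ : ∃ δ : ℂ, δ = (W : ℂ) * conj w - c := ⟨_, rfl⟩
  obtain ⟨ζ, hζ⟩ : ∃ ζ : ℂ, ζ = (W : ℂ) * conj w := ⟨_, rfl⟩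
  have hz : ζ = c + δ := by rw [hδ, hζ]; ring
  have hδn : 2 * ‖δ‖ ≤ 3 * h := by
    have e1 : δ.re = (W : ℝ) * w.re - cx := by
      rw [hδ, hc, sub_re, zc_re]
      simp
    have e2 : δ.im = -((W : ℝ) * w.im - cy) := by
      rw [hδ, hc, sub_im, zc_im]
      simp
      ring
    have e3 : ‖δ‖ ^ 2 = ((W : ℝ) * w.re - cx) ^ 2 + ((W : ℝ) * w.im - cy) ^ 2 := by
      rw [nsq, e1, e2]
      ring
    have hh : (0:ℝ) ≤ h := Nat.cast_nonneg h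
    have k1 : ((W : ℝ) * w.re - cx) ^ 2 ≤ (h : ℝ) ^ 2 := by
      rw [← sq_abs]
      exact pow_le_pow_left₀ (abs_nonneg _) hx 2
    have k2 : ((W : ℝ) * w.im - cy) ^ 2 ≤ (h : ℝ) ^ 2 := by
      rw [← sq_abs]
      exact pow_le_pow_left₀ (abs_nonneg _) hy 2
    have k3 : (2 * ‖δ‖) ^ 2 ≤ (3 * (h : ℝ)) ^ 2 := by
      rw [mul_pow, e3]
      nlinarith
    exact le_of_sq_le_sq k3 (by positivity)
  have hcn : 2 * ‖c‖ ≤ (n2 cx cy : ℝ) := by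
    have := n2_le cx cy
    have e : ‖c‖ = ‖zc cx cy‖ := by
      have e1 : ‖c‖ ^ 2 = ‖zc cx cy‖ ^ 2 := by
        rw [hc, nsq, nsq, zc_re, zc_im, zc_re, zc_im]
        push_cast
        ring
      exact (sq_eq_sq₀ (norm_nonneg _) (norm_nonneg _)).1 e1
    rw [e]
    exact this
  obtain ⟨Z2, hZ2⟩ : ∃ Z2 : ℕ, Z2 = Nat.add (n2 cx cy) (Nat.mul 3 h) := ⟨_, rfl⟩
  have hζn : 2 * ‖ζ‖ ≤ (Z2 : ℝ) := by
    rw [hz, hZ2, nadd_c, nmul_c]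
    have := norm_add_le c δ
    push_cast
    linarith
  -- complex values
  obtain ⟨a0, ha0⟩ : ∃ a : ℂ, a = zc a0R a0I := ⟨_, rfl⟩
  obtain ⟨a1, ha1⟩ : ∃ a : ℂ, a = zc a1R a1I := ⟨_, rfl⟩
  obtain ⟨a2, ha2⟩ : ∃ a : ℂ, a = zc a2R a2I := ⟨_, rfl⟩
  obtain ⟨a3, ha3⟩ : ∃ a : ℂ, a = zc a3R a3I := ⟨_, rfl⟩
  have hWi : ∀ n : ℕ, ((Int.ofNat n : ℤ) : ℂ) = (n : ℂ) := fun n => by
    show (((n : ℤ)) : ℂ) = _
    push_cast
    rfl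
  have eb : zc (Int.add (Int.mul a3R cx) (Int.mul a3I cy))
      (Int.sub (Int.mul a3I cx) (Int.mul a3R cy)) = a3 * c := by rw [ha3, hc, zc_mul]
  obtain ⟨bR, hbR⟩ : ∃ b : ℤ, b = Int.add (Int.mul a3R cx) (Int.mul a3I cy) := ⟨_, rfl⟩
  obtain ⟨bI, hbI⟩ : ∃ b : ℤ, b = Int.sub (Int.mul a3I cx) (Int.mul a3R cy) := ⟨_, rfl⟩
  rw [← hbR, ← hbI] at eb
  have ep : zc (Int.add (Int.mul a2R (Int.ofNat W)) bR) (Int.add (Int.mul a2I (Int.ofNat W)) bI) =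
      a2 * W + a3 * c := by rw [← zc_add, ← zc_smul, hWi, eb, ha2]
  obtain ⟨pR, hpR⟩ : ∃ b : ℤ, b = Int.add (Int.mul a2R (Int.ofNat W)) bR := ⟨_, rfl⟩
  obtain ⟨pI, hpI⟩ : ∃ b : ℤ, b = Int.add (Int.mul a2I (Int.ofNat W)) bI := ⟨_, rfl⟩
  rw [← hpR, ← hpI] at ep
  have eW2 : ((Nat.mul W W : ℕ) : ℂ) = (W : ℂ) * W := by
    show (((W * W : ℕ)) : ℂ) = _
    push_cast
    ring
  have eW3 : ((Nat.mul W (Nat.mul W W) : ℕ) : ℂ) = (W : ℂ) ^ 3 := by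
    show (((W * (W * W) : ℕ)) : ℂ) = _
    push_cast
    ring
  have eg : zc (Int.add (Int.mul a1R (Int.ofNat (Nat.mul W W)))
      (Int.add (Int.mul pR cx) (Int.mul pI cy)))
      (Int.add (Int.mul a1I (Int.ofNat (Nat.mul W W))) (Int.sub (Int.mul pI cx) (Int.mul pR cy))) =
      a1 * ((W : ℂ) * W) + (a2 * W + a3 * c) * c := by
    rw [← zc_add, ← zc_smul, hWi, eW2, ← zc_mul, ← hc, ep, ha1]
  obtain ⟨gR, hgR⟩ : ∃ b : ℤ, b = Int.add (Int.mul a1R (Int.ofNat (Nat.mul W W)))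
      (Int.add (Int.mul pR cx) (Int.mul pI cy)) := ⟨_, rfl⟩
  obtain ⟨gI, hgI⟩ : ∃ b : ℤ, b = Int.add (Int.mul a1I (Int.ofNat (Nat.mul W W)))
      (Int.sub (Int.mul pI cx) (Int.mul pR cy)) := ⟨_, rfl⟩
  rw [← hgR, ← hgI] at eg
  have eT : zc (Int.add (Int.mul a0R (Int.ofNat (Nat.mul W (Nat.mul W W))))
      (Int.add (Int.mul gR cx) (Int.mul gI cy)))
    (Int.add (Int.mul a0I (Int.ofNat (Nat.mul W (Nat.mul W W))))
      (Int.sub (Int.mul gI cx) (Int.mul gR cy))) =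
      a0 * (W : ℂ) ^ 3 + a1 * (W : ℂ) ^ 2 * c + a2 * W * c ^ 2 + a3 * c ^ 3 := by
    rw [← zc_add, ← zc_smul, hWi, eW3, ← zc_mul, ← hc, eg, ha0]
    ring
  have eD : zc (Int.add gR (Int.add (Int.mul (Int.add pR bR) cx) (Int.mul (Int.add pI bI) cy)))
      (Int.add gI (Int.sub (Int.mul (Int.add pI bI) cx) (Int.mul (Int.add pR bR) cy))) =
      a1 * (W : ℂ) ^ 2 + 2 * (a2 * W * c) + 3 * (a3 * c ^ 2) := by
    rw [← zc_add, ← zc_mul, ← zc_add, ← hc, eg, ep, eb]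
    ring
  have eQ : zc (Int.add pR (Int.mul 2 bR)) (Int.add pI (Int.mul 2 bI)) =
      a2 * W + 3 * (a3 * c) := by
    rw [← zc_add, ← zc_two, ep, eb]
    ring
  have hD := n2_le (Int.add gR (Int.add (Int.mul (Int.add pR bR) cx)
      (Int.mul (Int.add pI bI) cy)))
    (Int.add gI (Int.sub (Int.mul (Int.add pI bI) cx) (Int.mul (Int.add pR bR) cy)))
  have hQ := n2_le (Int.add pR (Int.mul 2 bR)) (Int.add pI (Int.mul 2 bI))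
  have hA3 := n2_le a3R a3I
  rw [← hbR, ← hbI, ← hpR, ← hpI, ← hgR, ← hgI, eT, ← hZ2] at hT
  rw [eD] at hD
  rw [eQ] at hQ
  rw [← ha3] at hA3
  obtain ⟨d1, hd1⟩ : ∃ d : ℕ, d = n2 (Int.add gR (Int.add (Int.mul (Int.add pR bR) cx)
      (Int.mul (Int.add pI bI) cy)))
    (Int.add gI (Int.sub (Int.mul (Int.add pI bI) cx) (Int.mul (Int.add pR bR) cy))) := ⟨_, rfl⟩
  obtain ⟨d2, hd2⟩ : ∃ d : ℕ, d = n2 (Int.add pR (Int.mul 2 bR)) (Int.add pI (Int.mul 2 bI)) :=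
    ⟨_, rfl⟩
  obtain ⟨d3, hd3⟩ : ∃ d : ℕ, d = n2 a3R a3I := ⟨_, rfl⟩
  rw [← hd1, ← hd2, ← hd3] at hT
  rw [← hd1] at hD
  rw [← hd2] at hQ
  rw [← hd3] at hA3
  rw [← ha0] at h0
  rw [← ha1] at h1
  rw [← ha2] at h2
  rw [← ha3] at h3
  unfold eL at hT
  simp only [nadd_c, nmul_c] at hT
  clear eT eD eQ eg ep eb
  -- the identity
  have eI : (W : ℂ) ^ 3 * (A0 + A1 * conj w + A2 * conj w ^ 2 + A3 * conj w ^ 3) =
      (a0 * (W : ℂ) ^ 3 + a1 * (W : ℂ) ^ 2 * c + a2 * W * c ^ 2 + a3 * c ^ 3) +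
      (((a1 * (W : ℂ) ^ 2 + 2 * (a2 * W * c) + 3 * (a3 * c ^ 2)) * δ +
        (a2 * W + 3 * (a3 * c)) * (δ * δ) + a3 * (δ * (δ * δ))) +
        (((A0 - a0) * ((W : ℂ) * (W * W)) + (A1 - a1) * (ζ * (W * W))) +
          ((A2 - a2) * (ζ * ζ * W) + (A3 - a3) * (ζ * ζ * ζ)))) := by
    have e1 : (W : ℂ) ^ 3 * (A0 + A1 * conj w + A2 * conj w ^ 2 + A3 * conj w ^ 3) =
        A0 * (W : ℂ) ^ 3 + A1 * (W : ℂ) ^ 2 * ζ + A2 * W * ζ ^ 2 + A3 * ζ ^ 3 := by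
      rw [hζ]
      ring
    rw [e1, hz]
    ring
  rw [eI]
  have hWn : ‖(W : ℂ)‖ = (W : ℝ) := by simp
  have hW0 : (0:ℝ) ≤ W := Nat.cast_nonneg W
  have hh0 : (0:ℝ) ≤ h := Nat.cast_nonneg h
  have hZ0 : (0:ℝ) ≤ Z2 := Nat.cast_nonneg Z2
  have hδ0 := norm_nonneg δ
  have hζ0 := norm_nonneg ζ
  -- the seven terms
  have p1 : 16 * ‖(a1 * (W : ℂ) ^ 2 + 2 * (a2 * W * c) + 3 * (a3 * c ^ 2)) * δ‖ ≤
      12 * d1 * h := by
    rw [norm_mul]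
    have := mul_le_mul hD hδn (by positivity) (Nat.cast_nonneg d1)
    linarith
  have q2 : (2 * ‖δ‖) * (2 * ‖δ‖) ≤ (3 * h) * (3 * (h : ℝ)) :=
    mul_le_mul hδn hδn (by positivity) (by positivity)
  have p2 : 16 * ‖(a2 * W + 3 * (a3 * c)) * (δ * δ)‖ ≤ 18 * d2 * (h * h) := by
    rw [norm_mul, norm_mul]
    have := mul_le_mul hQ q2 (by positivity) (Nat.cast_nonneg _)
    linarith
  have p3 : 16 * ‖a3 * (δ * (δ * δ))‖ ≤ 27 * d3 * (h * (h * h)) := by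
    rw [norm_mul, norm_mul, norm_mul]
    have := mul_le_mul hA3 (mul_le_mul hδn q2 (by positivity) (by positivity)) (by positivity)
      (Nat.cast_nonneg _)
    linarith
  have p4 : 16 * ‖(A0 - a0) * ((W : ℂ) * (W * W))‖ ≤ 8 * (e0 * (W * (W * W))) := by
    rw [norm_mul, norm_mul, norm_mul, hWn]
    have := mul_le_mul_of_nonneg_right h0 (mul_nonneg hW0 (mul_nonneg hW0 hW0))
    linarith
  have p5 : 16 * ‖(A1 - a1) * (ζ * (W * W))‖ ≤ 4 * (e1 * (Z2 * (W * W))) := by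
    rw [norm_mul, norm_mul, norm_mul, hWn]
    have := mul_le_mul h1 (mul_le_mul_of_nonneg_right hζn (mul_nonneg hW0 hW0)) (by positivity)
      (Nat.cast_nonneg _)
    linarith
  have q3 : (2 * ‖ζ‖) * (2 * ‖ζ‖) ≤ (Z2 : ℝ) * Z2 := mul_le_mul hζn hζn (by positivity) hZ0
  have p6 : 16 * ‖(A2 - a2) * (ζ * ζ * W)‖ ≤ 2 * (e2 * (Z2 * Z2 * W)) := by
    rw [norm_mul, norm_mul, norm_mul, hWn]
    have := mul_le_mul h2 (mul_le_mul_of_nonneg_right q3 hW0) (by positivity)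
      (Nat.cast_nonneg _)
    linarith
  have p7 : 16 * ‖(A3 - a3) * (ζ * ζ * ζ)‖ ≤ e3 * (Z2 * Z2 * Z2) := by
    rw [norm_mul, norm_mul, norm_mul]
    have := mul_le_mul h3 (mul_le_mul q3 hζn (by positivity) (by positivity)) (by positivity)
      (Nat.cast_nonneg _)
    linarith
  generalize (a1 * (W : ℂ) ^ 2 + 2 * (a2 * W * c) + 3 * (a3 * c ^ 2)) * δ = t1 at *
  generalize (a2 * W + 3 * (a3 * c)) * (δ * δ) = t2 at *
  generalize a3 * (δ * (δ * δ)) = t3 at *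
  generalize (A0 - a0) * ((W : ℂ) * (W * W)) = t4 at *
  generalize (A1 - a1) * (ζ * (W * W)) = t5 at *
  generalize (A2 - a2) * (ζ * ζ * W) = t6 at *
  generalize (A3 - a3) * (ζ * ζ * ζ) = t7 at *
  generalize a0 * (W : ℂ) ^ 3 + a1 * (W : ℂ) ^ 2 * c + a2 * W * c ^ 2 + a3 * c ^ 3 = T at *
  have n1 := norm_add_le T ((t1 + t2 + t3) + ((t4 + t5) + (t6 + t7)))
  have n2' := norm_add_le (t1 + t2 + t3) ((t4 + t5) + (t6 + t7))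
  have n3 := norm_add₃_le (a := t1) (b := t2) (c := t3)
  have n4 := norm_add_le (t4 + t5) (t6 + t7)
  have n5 := norm_add_le t4 t5
  have n6 := norm_add_le t6 t7
  have hU : 16 * ‖T + ((t1 + t2 + t3) + ((t4 + t5) + (t6 + t7)))‖ ≤ 16 * ‖T‖ +
      (8 * (e0 * ((W : ℝ) * (W * W))) + 4 * (e1 * (Z2 * (W * W))) + (2 * (e2 * (Z2 * Z2 * W)) +
        e3 * (Z2 * Z2 * Z2) + h * (12 * d1 + h * (18 * d2 + 27 * (d3 * h))))) := by
    linarith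
  have hB1 : (0:ℝ) ≤ Bd := Nat.cast_nonneg _
  have n8 := mul_le_mul_of_nonneg_left hU hB1
  push_cast at hT
  linarith

theorem lfl_le {W Bd BB : ℕ} {K : ℤ} {c0 c1 c2 c3 : C6} {cx cy : ℤ} {h : ℕ} {lc : ℤ} {lr : ℕ}
    (ht : lfl W Bd BB K c0 c1 c2 c3 cx cy h lc lr = true) {w : ℂ} {l : ℝ}
    (hl : |(K : ℝ) * l - lc| ≤ lr) (hx : |(W : ℝ) * w.re - cx| ≤ h)
    (hy : |(W : ℝ) * w.im - cy| ≤ h) :
    16 * Bd * ((W : ℝ) ^ 3 * (K : ℝ) ^ 2 *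
      ‖c0.val l + c1.val l * conj w + c2.val l * conj w ^ 2 + c3.val l * conj w ^ 3‖) ≤
      (BB : ℝ) := by
  have key := lf0_le ht (eA_le c0 hl) (eA_le c1 hl) (eA_le c2 hl) (eA_le c3 hl) hx hy
  have e : (W : ℂ) ^ 3 * ((K : ℂ) ^ 2 * c0.val l + (K : ℂ) ^ 2 * c1.val l * conj w +
      (K : ℂ) ^ 2 * c2.val l * conj w ^ 2 + (K : ℂ) ^ 2 * c3.val l * conj w ^ 3) =
      ((W : ℂ) ^ 3 * (K : ℂ) ^ 2) *
      (c0.val l + c1.val l * conj w + c2.val l * conj w ^ 2 + c3.val l * conj w ^ 3) := by ring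
  rw [e, norm_mul, norm_mul, norm_pow, norm_pow] at key
  have e1 : ‖(W : ℂ)‖ = (W : ℝ) := by simp
  have e2 : ‖(K : ℂ)‖ ^ 2 = (K : ℝ) ^ 2 := by
    rw [norm_intCast, sq_abs]
  rw [e1, e2] at key
  exact key

end Pool.Agent.Helper11.CKC.D3
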