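import Pool.Agent.Helper11.CKC.Box

/-!
# Project CKC: fast check of the bound of the multiplier, part 2

The quotient `l`, the regions, and `MOk` for every direction of a cell `[a, b]` of the arc, for a
multiplier which is affine in the parameter `t` of the direction.
-/

set_option autoImplicit false

open Complex Metric Set
open scoped ComplexConjugate

namespace Pool.Agent.Helper11.CKC

open Pool.Agent.Helper20.CK (hf hf_le split_box zof_cast ROk)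
open Pool.Agent.Helper69.EK3 (rF rF_eq imul_cast' iadd_cast')
open Pool.Agent.Helper82.CKC (wu mOk_dir)
open Pool.Agent.Helper69.CK (MOk)

/-! ### the quotient -/

/-- the resolution, the scale, `sg r`, `r0 + r1`, `r1`, `r1 + r2` -/
structure LP where
  (W K : ℕ)
  (sr r01 r1 r12 : ℤ)

/-- `cx² + cy²` -/
def sqN (cx cy : ℤ) : ℕ :=
  Nat.add (Nat.mul (Int.natAbs cx) (Int.natAbs cx)) (Nat.mul (Int.natAbs cy) (Int.natAbs cy))

/-- `2 h (|cx| + |cy|)` -/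
def gN (cx cy : ℤ) (h : ℕ) : ℕ := Nat.mul 2 (Nat.mul h (Nat.add (Int.natAbs cx) (Int.natAbs cy)))

/-- the error of the square of the modulus -/
def dsN (cx cy : ℤ) (h : ℕ) : ℕ := Nat.add (gN cx cy h) (Nat.mul 2 (Nat.mul h h))

theorem sqN_c (cx cy : ℤ) : (sqN cx cy : ℝ) = (cx : ℝ) ^ 2 + (cy : ℝ) ^ 2 := by
  unfold sqN
  rw [nadd_c, nmul_c, nmul_c, nabs_c, nabs_c, ← pow_two, ← pow_two, sq_abs, sq_abs]

theorem gN_c (cx cy : ℤ) (h : ℕ) :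
    (gN cx cy h : ℝ) = 2 * (h * (|(cx : ℝ)| + |(cy : ℝ)|)) := by
  unfold gN
  rw [nmul_c, nmul_c, nadd_c, nabs_c, nabs_c]
  push_cast
  ring

theorem dsN_c (cx cy : ℤ) (h : ℕ) :
    (dsN cx cy h : ℝ) = 2 * (h * (|(cx : ℝ)| + |(cy : ℝ)|)) + 2 * (h * h) := by
  unfold dsN
  rw [nadd_c, gN_c, nmul_c, nmul_c]
  push_cast
  ring

theorem sq_lo {cx cy h X Y : ℝ} (hx : |X - cx| ≤ h) (hy : |Y - cy| ≤ h) :
    cx ^ 2 + cy ^ 2 - 2 * (h * (|cx| + |cy|)) ≤ X ^ 2 + Y ^ 2 := by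
  have h1 : |cx * (X - cx)| ≤ |cx| * h := by
    rw [abs_mul]
    exact mul_le_mul_of_nonneg_left hx (abs_nonneg _)
  have h2 : |cy * (Y - cy)| ≤ |cy| * h := by
    rw [abs_mul]
    exact mul_le_mul_of_nonneg_left hy (abs_nonneg _)
  have h3 := (abs_le.1 h1).1
  have h4 := (abs_le.1 h2).1
  nlinarith [sq_nonneg (X - cx), sq_nonneg (Y - cy)]

theorem sq_hi {cx cy h X Y : ℝ} (hx : |X - cx| ≤ h) (hy : |Y - cy| ≤ h) :
    X ^ 2 + Y ^ 2 ≤ cx ^ 2 + cy ^ 2 + (2 * (h * (|cx| + |cy|)) + 2 * (h * h)) := by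
  have h1 : |cx * (X - cx)| ≤ |cx| * h := by
    rw [abs_mul]
    exact mul_le_mul_of_nonneg_left hx (abs_nonneg _)
  have h2 : |cy * (Y - cy)| ≤ |cy| * h := by
    rw [abs_mul]
    exact mul_le_mul_of_nonneg_left hy (abs_nonneg _)
  have h3 := (abs_le.1 h1).2
  have h4 := (abs_le.1 h2).2
  have h5 : (X - cx) ^ 2 ≤ h ^ 2 := by
    rw [← sq_abs]
    exact pow_le_pow_left₀ (abs_nonneg _) hx 2
  have h6 : (Y - cy) ^ 2 ≤ h ^ 2 := by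
    rw [← sq_abs]
    exact pow_le_pow_left₀ (abs_nonneg _) hy 2
  nlinarith

/-- `Nc = K Oc - lc Rc`, `D = Rc - dR` -/
def ld5 (p : LP) (f : ℕ → ℕ → Bool) (h ds lc : ℕ) (Nc : ℤ) (D : ℕ) : Bool :=
  f lc (Nat.succ (Nat.div (Nat.add (Int.natAbs Nc)
    (Nat.add (Nat.mul (Int.natAbs (Int.add (Int.mul (Int.ofNat p.K) p.sr)
      (Int.mul (Int.ofNat lc) p.r12))) ds)
      (Nat.mul 2 (Nat.mul (Nat.mul lc (Int.natAbs p.r1)) (Nat.mul p.W h))))) D))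

def ld4 (p : LP) (f : ℕ → ℕ → Bool) (h ds lc : ℕ) (KO Rc : ℤ) (D : ℕ) : Bool :=
  ld5 p f h ds lc (Int.sub KO (Int.mul (Int.ofNat lc) Rc)) D

def ld3 (p : LP) (f : ℕ → ℕ → Bool) (h ds : ℕ) (KO Rc : ℤ) (dR : ℕ) : Bool :=
  and (Nat.ble (Nat.succ dR) (Int.toNat Rc))
    (ld4 p f h ds (Nat.div (Int.toNat KO) (Int.toNat Rc)) KO Rc (Nat.sub (Int.toNat Rc) dR))

def ld2 (p : LP) (f : ℕ → ℕ → Bool) (h : ℕ) (cx : ℤ) (S ds : ℕ) : Bool :=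
  ld3 p f h ds
    (Int.mul (Int.ofNat p.K) (Int.mul p.sr (Int.sub (Int.ofNat (Nat.mul p.W p.W)) (Int.ofNat S))))
    (Int.add (Int.add (Int.mul p.r01 (Int.ofNat (Nat.mul p.W p.W)))
      (Int.mul (Int.mul 2 p.r1) (Int.mul (Int.ofNat p.W) cx))) (Int.mul p.r12 (Int.ofNat S)))
    (Nat.add (Nat.mul 2 (Nat.mul (Int.natAbs p.r1) (Nat.mul p.W h)))
      (Nat.mul (Int.natAbs p.r12) ds))

/-- the enclosure of `l` is passed to `f` -/
def ld1 (p : LP) (f : ℕ → ℕ → Bool) (cx cy : ℤ) (h : ℕ) : Bool :=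
  ld2 p f h cx (sqN cx cy) (dsN cx cy h)

theorem enc_real {X Y cx cy h W K sr r01 r1 r12 l lc S ds Rc dR D : ℝ} (hW : 0 ≤ W)
    (hx : |X - cx| ≤ h) (hy : |Y - cy| ≤ h) (hS : S = cx ^ 2 + cy ^ 2)
    (hds : ds = 2 * (h * (|cx| + |cy|)) + 2 * (h * h))
    (hR : Rc = r01 * (W * W) + 2 * r1 * (W * cx) + r12 * S)
    (hdR : dR = 2 * (|r1| * (W * h)) + |r12| * ds) (hD : D = Rc - dR) (hpos : 0 < D)
    (hl : l * (r01 * W ^ 2 + 2 * r1 * (W * X) + r12 * (X ^ 2 + Y ^ 2)) =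
      sr * (W ^ 2 - (X ^ 2 + Y ^ 2))) :
    |K * l - lc| ≤ (|K * (sr * (W * W - S)) - lc * Rc| + (|K * sr + lc * r12| * ds +
      2 * (|lc| * |r1| * (W * h)))) / D := by
  obtain ⟨T, hT⟩ : ∃ T : ℝ, T = X ^ 2 + Y ^ 2 := ⟨_, rfl⟩
  have lo := sq_lo hx hy
  have hi := sq_hi hx hy
  rw [← hT, ← hS] at lo hi
  rw [← hT] at hl
  have hh : 0 ≤ h := (abs_nonneg _).trans hx
  have hTS : |T - S| ≤ ds := by
    rw [abs_le, hds]
    constructor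
    · nlinarith
    · linarith
  obtain ⟨R, hRR⟩ : ∃ R : ℝ, R = r01 * W ^ 2 + 2 * r1 * (W * X) + r12 * T := ⟨_, rfl⟩
  rw [← hRR] at hl
  have k1 : |r1 * (W * (X - cx))| ≤ |r1| * (W * h) := by
    rw [abs_mul, abs_mul, abs_of_nonneg hW]
    exact mul_le_mul_of_nonneg_left (mul_le_mul_of_nonneg_left hx hW) (abs_nonneg _)
  have k2 : |r12 * (T - S)| ≤ |r12| * ds := by
    rw [abs_mul]
    exact mul_le_mul_of_nonneg_left hTS (abs_nonneg _)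
  have e1 : R - Rc = 2 * (r1 * (W * (X - cx))) + r12 * (T - S) := by
    rw [hRR, hR]
    ring
  have hRD : D ≤ R := by
    have a1 := (abs_le.1 k1).1
    have a2 := (abs_le.1 k2).1
    rw [hD, hdR]
    linarith
  have e2 : (K * l - lc) * R = (K * (sr * (W * W - S)) - lc * Rc) -
      ((K * sr + lc * r12) * (T - S) + 2 * (lc * (r1 * (W * (X - cx))))) := by
    have : (K * l - lc) * R = K * (l * R) - lc * R := by ring
    rw [this, hl, hRR, hR]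
    ring
  have k3 : |(K * sr + lc * r12) * (T - S)| ≤ |K * sr + lc * r12| * ds := by
    rw [abs_mul]
    exact mul_le_mul_of_nonneg_left hTS (abs_nonneg _)
  have k4 : |lc * (r1 * (W * (X - cx)))| ≤ |lc| * |r1| * (W * h) := by
    rw [abs_mul, mul_assoc]
    exact mul_le_mul_of_nonneg_left k1 (abs_nonneg _)
  have k5 : |K * l - lc| * R ≤ |K * (sr * (W * W - S)) - lc * Rc| +
      (|K * sr + lc * r12| * ds + 2 * (|lc| * |r1| * (W * h))) := by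
    have hR0 : 0 ≤ R := hpos.le.trans hRD
    have e3 : |K * l - lc| * R = |(K * l - lc) * R| := by rw [abs_mul, abs_of_nonneg hR0]
    rw [e3, e2]
    have b1 := abs_sub (K * (sr * (W * W - S)) - lc * Rc)
      ((K * sr + lc * r12) * (T - S) + 2 * (lc * (r1 * (W * (X - cx)))))
    have b2 := abs_add_le ((K * sr + lc * r12) * (T - S)) (2 * (lc * (r1 * (W * (X - cx)))))
    have b3 : |2 * (lc * (r1 * (W * (X - cx))))| = 2 * |lc * (r1 * (W * (X - cx)))| := by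
      rw [abs_mul, abs_two]
    rw [b3] at b2
    linarith
  rw [le_div_iff₀ hpos]
  exact (mul_le_mul_of_nonneg_left hRD (abs_nonneg _)).trans k5

theorem div_lt_c (a D : ℕ) (hD : 0 < D) : (a : ℝ) / D ≤ ((Nat.succ (Nat.div a D) : ℕ) : ℝ) := by
  have h0 : (0:ℝ) < D := by exact_mod_cast hD
  rw [div_le_iff₀ h0]
  have h1 : a ≤ (Nat.succ (Nat.div a D)) * D := by
    have h2 : Nat.div a D = a / D := rfl
    rw [h2]
    have h3 := Nat.div_add_mod a D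
    have h4 := Nat.mod_lt a hD
    rw [Nat.succ_mul, Nat.mul_comm (a / D) D]
    omega
  exact_mod_cast h1

theorem ld1_sound {p : LP} {f : ℕ → ℕ → Bool} {cx cy : ℤ} {h : ℕ}
    (ht : ld1 p f cx cy h = true) {X Y l : ℝ} (hx : |X - cx| ≤ h) (hy : |Y - cy| ≤ h)
    (hl : l * (p.r01 * (p.W : ℝ) ^ 2 + 2 * p.r1 * (p.W * X) + p.r12 * (X ^ 2 + Y ^ 2)) =
      p.sr * ((p.W : ℝ) ^ 2 - (X ^ 2 + Y ^ 2))) :
    ∃ lc lr : ℕ, f lc lr = true ∧ |(p.K : ℝ) * l - lc| ≤ lr := by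
  unfold ld1 ld2 ld3 ld4 ld5 at ht
  obtain ⟨S, hS⟩ : ∃ S : ℕ, S = sqN cx cy := ⟨_, rfl⟩
  obtain ⟨ds, hds⟩ : ∃ ds : ℕ, ds = dsN cx cy h := ⟨_, rfl⟩
  rw [← hS, ← hds] at ht
  obtain ⟨Rc, hR⟩ : ∃ Rc : ℤ, Rc = Int.add (Int.add (Int.mul p.r01 (Int.ofNat (Nat.mul p.W p.W)))
      (Int.mul (Int.mul 2 p.r1) (Int.mul (Int.ofNat p.W) cx))) (Int.mul p.r12 (Int.ofNat S)) :=
    ⟨_, rfl⟩
  rw [← hR] at ht
  obtain ⟨dR, hdR⟩ : ∃ dR : ℕ, dR = Nat.add (Nat.mul 2 (Nat.mul (Int.natAbs p.r1)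
      (Nat.mul p.W h))) (Nat.mul (Int.natAbs p.r12) ds) := ⟨_, rfl⟩
  rw [← hdR] at ht
  obtain ⟨KO, hKO⟩ : ∃ KO : ℤ, KO = Int.mul (Int.ofNat p.K) (Int.mul p.sr
      (Int.sub (Int.ofNat (Nat.mul p.W p.W)) (Int.ofNat S))) := ⟨_, rfl⟩
  rw [← hKO] at ht
  obtain ⟨lc, hlc⟩ : ∃ lc : ℕ, lc = Nat.div (Int.toNat KO) (Int.toNat Rc) := ⟨_, rfl⟩
  rw [← hlc] at ht
  simp only [Bool.and_eq_true, Nat.ble_eq] at ht
  obtain ⟨h1, h2⟩ := ht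
  refine ⟨_, _, h2, ?_⟩
  have hSr : (S : ℝ) = (cx : ℝ) ^ 2 + (cy : ℝ) ^ 2 := by rw [hS, sqN_c]
  have hdsr : (ds : ℝ) = 2 * (h * (|(cx : ℝ)| + |(cy : ℝ)|)) + 2 * (h * h) := by
    rw [hds, dsN_c]
  have hRr : (Rc : ℝ) = p.r01 * (p.W * p.W) + 2 * p.r1 * (p.W * cx) + p.r12 * S := by
    rw [hR]
    simp only [iadd_cast', imul_cast', zof_cast, nmul_c]
    push_cast
    ring
  have hdRr : (dR : ℝ) = 2 * (|(p.r1 : ℝ)| * (p.W * h)) + |(p.r12 : ℝ)| * ds := by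
    rw [hdR]
    simp only [nadd_c, nmul_c, nabs_c]
    push_cast
    ring
  have hKr : (KO : ℝ) = p.K * (p.sr * (p.W * p.W - S)) := by
    rw [hKO]
    simp only [imul_cast', isub_c, zof_cast, nmul_c]
  have h3 : dR < Int.toNat Rc := h1
  have h4 : ((Int.toNat Rc : ℕ) : ℤ) = Rc := Int.toNat_of_nonneg (by
    by_contra h5
    have : Int.toNat Rc = 0 := Int.toNat_eq_zero.2 (le_of_lt (not_le.1 h5))
    omega)
  have hDr : ((Nat.sub (Int.toNat Rc) dR : ℕ) : ℝ) = Rc - dR := by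
    have e : Nat.sub (Int.toNat Rc) dR = Int.toNat Rc - dR := rfl
    rw [e, Nat.cast_sub h3.le]
    have : ((Int.toNat Rc : ℕ) : ℝ) = (((Int.toNat Rc : ℕ) : ℤ) : ℝ) := by push_cast; rfl
    rw [this, h4]
  have hDp : 0 < Nat.sub (Int.toNat Rc) dR := Nat.sub_pos_of_lt h3
  have hDp' : (0:ℝ) < ((Nat.sub (Int.toNat Rc) dR : ℕ) : ℝ) := by exact_mod_cast hDp
  have key := enc_real (K := (p.K : ℝ)) (lc := (lc : ℝ)) (Nat.cast_nonneg p.W) hx hy hSr hdsr hRr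
    hdRr hDr hDp' hl
  refine key.trans ?_
  refine le_trans (le_of_eq ?_) (div_lt_c _ _ hDp)
  congr 1
  simp only [nadd_c, nmul_c, nabs_c, iadd_cast', imul_cast', isub_c, zof_cast, hKr]
  rw [abs_of_nonneg (Nat.cast_nonneg lc : (0:ℝ) ≤ lc)]
  push_cast
  ring

/-! ### the regions -/

/-- outside the unit disc -/
def oI (W : ℕ) (cx cy : ℤ) (h : ℕ) : Bool :=
  Nat.ble (Nat.succ (Nat.add (Nat.mul W W) (gN cx cy h))) (sqN cx cy)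

theorem sq_W (W : ℕ) (w : ℂ) :
    ((W : ℝ) * w.re) ^ 2 + ((W : ℝ) * w.im) ^ 2 = (W : ℝ) * W * ‖w‖ ^ 2 := by
  rw [nsq]
  ring

theorem oI_sound {W : ℕ} {cx cy : ℤ} {h : ℕ} (ht : oI W cx cy h = true) {w : ℂ}
    (hw : ‖w‖ ≤ 1) (hx : |(W : ℝ) * w.re - cx| ≤ h) (hy : |(W : ℝ) * w.im - cy| ≤ h) : False := by
  simp only [oI, Nat.ble_eq] at ht
  have h1 : ((Nat.add (Nat.mul W W) (gN cx cy h) : ℕ) : ℝ) < (sqN cx cy : ℝ) := by
    exact_mod_cast ht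
  rw [nadd_c, nmul_c, gN_c, sqN_c] at h1
  have h2 := sq_lo hx hy
  rw [sq_W] at h2
  have hW : (0:ℝ) ≤ (W : ℝ) * W := mul_self_nonneg _
  have h4 : ‖w‖ ^ 2 ≤ 1 := pow_le_one₀ (norm_nonneg _) hw
  have h5 := mul_le_mul_of_nonneg_left h4 hW
  rw [mul_one] at h5
  linarith

/-- negative integers -/
def isN : ℤ → Bool
  | Int.ofNat _ => false
  | Int.negSucc _ => true

theorem isN_lt {a : ℤ} (h : isN a = true) : (a : ℝ) < 0 := by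
  have h1 : a < 0 := by
    cases a with
    | ofNat n => simp [isN] at h
    | negSucc n => exact Int.negSucc_lt_zero n
  exact_mod_cast h1

/-- `A + B X + C Y - D (X² + Y²)` is negative on the square -/
def vt (A B C D cx cy : ℤ) (h : ℕ) : Bool :=
  isN (Int.add (Int.sub (Int.add A (Int.add (Int.mul B cx) (Int.mul C cy)))
    (Int.mul D (Int.ofNat (sqN cx cy))))
    (Int.ofNat (Nat.mul h (Nat.add (Int.natAbs (Int.sub B (Int.mul 2 (Int.mul D cx))))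
      (Int.natAbs (Int.sub C (Int.mul 2 (Int.mul D cy))))))))

theorem vt_sound {A B C D cx cy : ℤ} {h : ℕ} (ht : vt A B C D cx cy h = true) (hD : 0 ≤ D)
    {X Y : ℝ} (hx : |X - cx| ≤ h) (hy : |Y - cy| ≤ h) :
    (A : ℝ) + B * X + C * Y - D * (X ^ 2 + Y ^ 2) < 0 := by
  have h1 := isN_lt ht
  simp only [iadd_cast', isub_c, imul_cast', zof_cast, nmul_c, nadd_c, nabs_c, sqN_c] at h1
  have hD' : (0:ℝ) ≤ D := by exact_mod_cast hD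
  have k1 : ((B : ℝ) - 2 * (D * cx)) * (X - cx) ≤ |(B : ℝ) - 2 * (D * cx)| * h :=
    (le_abs_self _).trans (by
      rw [abs_mul]
      exact mul_le_mul_of_nonneg_left hx (abs_nonneg _))
  have k2 : ((C : ℝ) - 2 * (D * cy)) * (Y - cy) ≤ |(C : ℝ) - 2 * (D * cy)| * h :=
    (le_abs_self _).trans (by
      rw [abs_mul]
      exact mul_le_mul_of_nonneg_left hy (abs_nonneg _))
  have k3 : 0 ≤ (D : ℝ) * ((X - cx) ^ 2 + (Y - cy) ^ 2) := by positivity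
  push_cast at h1
  have e : (A : ℝ) + B * X + C * Y - D * (X ^ 2 + Y ^ 2) =
      (A + (B * cx + C * cy) - D * ((cx : ℝ) ^ 2 + (cy : ℝ) ^ 2)) +
      (((B : ℝ) - 2 * (D * cx)) * (X - cx) + ((C : ℝ) - 2 * (D * cy)) * (Y - cy)) -
      (D : ℝ) * ((X - cx) ^ 2 + (Y - cy) ^ 2) := by ring
  rw [e]
  linarith

/-- outside the region of a vertex -/
def vr (W : ℕ) (v : ℤ × ℤ × ℤ) (cx cy : ℤ) (h : ℕ) : Bool :=
  vt (Int.mul (Int.add (Int.mul 7 v.2.2) (Int.mul 15 v.2.1)) (Int.ofNat (Nat.mul W W)))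
    (Int.mul (Int.sub (Int.mul 2 v.2.1) (Int.mul 6 v.2.2)) (Int.ofNat W))
    (Int.mul (Int.mul 8 v.1) (Int.ofNat W)) (Int.add v.2.2 v.2.1) cx cy h

theorem vr_sound {W : ℕ} {v : ℤ × ℤ × ℤ} {cx cy : ℤ} {h : ℕ} (ht : vr W v cx cy h = true)
    (hv : 0 ≤ v.2.2 + v.2.1) {w : ℂ} (hx : |(W : ℝ) * w.re - cx| ≤ h)
    (hy : |(W : ℝ) * w.im - cy| ≤ h) : ¬ Reg v w := by
  intro hR
  have h1 := vt_sound ht hv hx hy
  simp only [iadd_cast', isub_c, imul_cast', zof_cast, nmul_c] at h1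
  have h2 : 0 ≤ (W : ℝ) * W * ((v.2.2 : ℝ) * (12 - ‖w + 1‖ ^ 2 - 4 * (w + 1).re) +
      8 * v.1 * (w + 1).im + v.2.1 * (12 - ‖w + 1‖ ^ 2 + 4 * (w + 1).re)) :=
    mul_nonneg (mul_self_nonneg _) hR
  have e1 : ‖w + 1‖ ^ 2 = (w.re + 1) ^ 2 + w.im ^ 2 := by
    rw [nsq]
    simp
  rw [e1, add_re, one_re, add_im, one_im] at h2
  push_cast at h1
  nlinarith

/-- no point of the region of the cell outside the unit disc -/
def oO (W : ℕ) (v1 v2 v3 : ℤ × ℤ × ℤ) (cx cy : ℤ) (h : ℕ) : Bool :=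
  or (Nat.ble (Nat.add (sqN cx cy) (dsN cx cy h)) (Nat.mul W W))
    (or (Nat.ble (Nat.succ (Nat.add (Nat.mul 36 (Nat.mul W W))
        (gN (Int.add cx (Int.ofNat W)) cy h))) (sqN (Int.add cx (Int.ofNat W)) cy))
      (and (vr W v1 cx cy h) (and (vr W v2 cx cy h) (vr W v3 cx cy h))))

theorem oO_sound {W : ℕ} {v1 v2 v3 : ℤ × ℤ × ℤ} {cx cy : ℤ} {h : ℕ}
    (ht : oO W v1 v2 v3 cx cy h = true) (hW : 0 < W) (p1 : 0 ≤ v1.2.2 + v1.2.1)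
    (p2 : 0 ≤ v2.2.2 + v2.2.1) (p3 : 0 ≤ v3.2.2 + v3.2.1) {w : ℂ} (hw : ¬ ‖w‖ ≤ 1)
    (h6 : ‖w + 1‖ ≤ 6) (hR : Reg v1 w ∨ Reg v2 w ∨ Reg v3 w)
    (hx : |(W : ℝ) * w.re - cx| ≤ h) (hy : |(W : ℝ) * w.im - cy| ≤ h) : False := by
  simp only [oO, Bool.or_eq_true, Bool.and_eq_true, Nat.ble_eq] at ht
  have hW0 : (0:ℝ) < W := by exact_mod_cast hW
  have hWW : (0:ℝ) < (W : ℝ) * W := mul_pos hW0 hW0
  rcases ht with ht | ht | ⟨t1, t2, t3⟩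
  · have h1 : ((Nat.add (sqN cx cy) (dsN cx cy h) : ℕ) : ℝ) ≤ ((Nat.mul W W : ℕ) : ℝ) := by
      exact_mod_cast ht
    rw [nadd_c, nmul_c, dsN_c, sqN_c] at h1
    have h2 := sq_hi hx hy
    rw [sq_W] at h2
    have h3 : 1 < ‖w‖ ^ 2 := one_lt_pow₀ (not_le.1 hw) two_ne_zero
    have h4 := mul_lt_mul_of_pos_left h3 hWW
    linarith
  · have h1 : ((Nat.add (Nat.mul 36 (Nat.mul W W)) (gN (Int.add cx (Int.ofNat W)) cy h) : ℕ) : ℝ) <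
        (sqN (Int.add cx (Int.ofNat W)) cy : ℝ) := by
      exact_mod_cast ht
    rw [nadd_c, nmul_c, nmul_c, gN_c, sqN_c, iadd_cast', zof_cast] at h1
    have hx' : |(W : ℝ) * (w + 1).re - ((cx : ℝ) + W)| ≤ h := by
      have e : (W : ℝ) * (w + 1).re - ((cx : ℝ) + W) = (W : ℝ) * w.re - cx := by
        rw [add_re, one_re]
        ring
      rwa [e]
    have hy' : |(W : ℝ) * (w + 1).im - (cy : ℝ)| ≤ h := by
      rwa [add_im, one_im, add_zero]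
    have h2 := sq_lo hx' hy'
    rw [sq_W] at h2
    have h3 : ‖w + 1‖ ^ 2 ≤ 36 := by nlinarith [norm_nonneg (w + 1)]
    have h4 := mul_le_mul_of_nonneg_left h3 hWW.le
    push_cast at h1
    linarith
  · rcases hR with hR | hR | hR
    · exact vr_sound t1 p1 hx hy hR
    · exact vr_sound t2 p2 hx hy hR
    · exact vr_sound t3 p3 hx hy hR

/-! ### the leaf of one side -/

/-- the coefficients at the two ends of the cell -/
structure C66 where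
  (a0 a1 a2 b0 b1 b2 : C6)

def lfF (p : LP) (Bd BB8 : ℕ) (c : C66) (cx cy : ℤ) (h : ℕ) : Bool :=
  ld1 p (fun lc lr => and
    (lfl p.W Bd BB8 (Int.ofNat p.K) c.a0 c.a1 c.a2 cx cy h (Int.ofNat lc) lr)
    (lfl p.W Bd BB8 (Int.ofNat p.K) c.b0 c.b1 c.b2 cx cy h (Int.ofNat lc) lr)) cx cy h

/-- the value of three coefficients -/
noncomputable def v3 (c0 c1 c2 : C6) (l : ℝ) (w : ℂ) : ℂ :=
  c0.val l + c1.val l * conj w + c2.val l * conj w ^ 2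

theorem lfF_sound {p : LP} {Bd BB8 : ℕ} {c : C66} {cx cy : ℤ} {h : ℕ}
    (ht : lfF p Bd BB8 c cx cy h = true) {w : ℂ} {l ρ : ℝ}
    (hρ : ρ = p.r01 + 2 * p.r1 * w.re + p.r12 * ‖w‖ ^ 2) (hl : l * ρ = p.sr * (1 - ‖w‖ ^ 2))
    (hx : |(p.W : ℝ) * w.re - cx| ≤ h) (hy : |(p.W : ℝ) * w.im - cy| ≤ h) :
    8 * Bd * ((p.W : ℝ) ^ 2 * (p.K : ℝ) ^ 2 * ‖v3 c.a0 c.a1 c.a2 l w‖) ≤ (BB8 : ℝ) ∧
    8 * Bd * ((p.W : ℝ) ^ 2 * (p.K : ℝ) ^ 2 * ‖v3 c.b0 c.b1 c.b2 l w‖) ≤ (BB8 : ℝ) := by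
  obtain ⟨lc, lr, h1, h2⟩ := ld1_sound (l := l) ht hx hy (by
    have e1 : (p.r01 : ℝ) * (p.W : ℝ) ^ 2 + 2 * p.r1 * (p.W * (p.W * w.re)) +
        p.r12 * ((p.W * w.re) ^ 2 + (p.W * w.im) ^ 2) = (p.W : ℝ) ^ 2 * ρ := by
      rw [hρ, nsq]
      ring
    have e2 : (p.sr : ℝ) * ((p.W : ℝ) ^ 2 - ((p.W * w.re) ^ 2 + (p.W * w.im) ^ 2)) =
        (p.W : ℝ) ^ 2 * (p.sr * (1 - ‖w‖ ^ 2)) := by
      rw [nsq]
      ring
    rw [e1, e2, ← hl]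
    ring)
  simp only [Bool.and_eq_true] at h1
  have h3 : |((Int.ofNat p.K : ℤ) : ℝ) * l - ((Int.ofNat lc : ℤ) : ℝ)| ≤ lr := by
    rw [zof_cast, zof_cast]
    exact h2
  have k1 := lfl_le h1.1 h3 hx hy
  have k2 := lfl_le h1.2 h3 hx hy
  rw [zof_cast] at k1 k2
  exact ⟨k1, k2⟩

/-! ### coefficients of a list -/

/-- the sums of the coefficients of `lⁿ (conj w)^j`, real parts -/
def cR (n j : ℕ) : CL → ℤ
  | [] => 0
  | t :: L => cond (and (Nat.beq t.1 n) (Nat.beq t.2.1 j)) (Int.add t.2.2.1 (cR n j L)) (cR n j L)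

/-- the sums of the coefficients of `lⁿ (conj w)^j`, imaginary parts -/
def cJ (n j : ℕ) : CL → ℤ
  | [] => 0
  | t :: L => cond (and (Nat.beq t.1 n) (Nat.beq t.2.1 j)) (Int.add t.2.2.2 (cJ n j L)) (cJ n j L)

def c6 (j : ℕ) (L : CL) : C6 :=
  ⟨cR 0 j L, cJ 0 j L, cR 1 j L, cJ 1 j L, cR 2 j L, cJ 2 j L⟩

theorem MSc_c6 {L : CL} (hL : ∀ t ∈ L, t.1 ≤ 2 ∧ t.2.1 ≤ 2) (l : ℝ) (w : ℂ) :
    MSc L l w = v3 (c6 0 L) (c6 1 L) (c6 2 L) l w := by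
  unfold MSc v3 C6.val zc c6
  induction L with
  | nil => simp [cR, cJ]
  | cons t L ih =>
    obtain ⟨h1, h2⟩ := hL t List.mem_cons_self
    obtain ⟨n, j, a, b⟩ := t
    have e : ∀ a b : ℤ, Int.add a b = a + b := fun _ _ => rfl
    rw [List.map_cons, List.sum_cons, ih fun s hs => hL s (List.mem_cons_of_mem _ hs)]
    simp only at h1 h2 ⊢
    have h00 : Nat.beq 0 0 = true := rfl
    have h01 : Nat.beq 0 1 = false := rfl
    have h02 : Nat.beq 0 2 = false := rfl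
    have h10 : Nat.beq 1 0 = false := rfl
    have h11 : Nat.beq 1 1 = true := rfl
    have h12 : Nat.beq 1 2 = false := rfl
    have h20 : Nat.beq 2 0 = false := rfl
    have h21 : Nat.beq 2 1 = false := rfl
    have h22 : Nat.beq 2 2 = true := rfl
    interval_cases n <;> interval_cases j <;>
    · simp only [cR, cJ, h00, h01, h02, h10, h11, h12, h20, h21, h22, e, Bool.and_true,
        Bool.and_false, cond_true, cond_false]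
      push_cast
      ring

def cmb (u v : ℤ) (c d : C6) : C6 :=
  ⟨Int.add (Int.mul u c.x0) (Int.mul v d.x0), Int.add (Int.mul u c.y0) (Int.mul v d.y0),
    Int.add (Int.mul u c.x1) (Int.mul v d.x1), Int.add (Int.mul u c.y1) (Int.mul v d.y1),
    Int.add (Int.mul u c.x2) (Int.mul v d.x2), Int.add (Int.mul u c.y2) (Int.mul v d.y2)⟩

theorem cmb_val (u v : ℤ) (c d : C6) (l : ℝ) :
    (cmb u v c d).val l = u * c.val l + v * d.val l := by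
  have e1 : ∀ a b : ℤ, ((Int.mul a b : ℤ) : ℂ) = a * b := fun a b => by
    show (((a * b : ℤ)) : ℂ) = _
    push_cast
    ring
  have e2 : ∀ a b : ℤ, ((Int.add a b : ℤ) : ℂ) = a + b := fun a b => by
    show (((a + b : ℤ)) : ℂ) = _
    push_cast
    ring
  unfold C6.val zc cmb
  simp only [e1, e2]
  ring

/-- the coefficients at the ends of the cell -/
def ends (ad an bn : ℤ) (L0 L1 : CL) : C66 :=
  ⟨cmb ad an (c6 0 L0) (c6 0 L1), cmb ad an (c6 1 L0) (c6 1 L1), cmb ad an (c6 2 L0) (c6 2 L1),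
    cmb ad bn (c6 0 L0) (c6 0 L1), cmb ad bn (c6 1 L0) (c6 1 L1), cmb ad bn (c6 2 L0) (c6 2 L1)⟩

theorem v3_cmb (u v : ℤ) (c0 c1 c2 d0 d1 d2 : C6) (l : ℝ) (w : ℂ) :
    v3 (cmb u v c0 d0) (cmb u v c1 d1) (cmb u v c2 d2) l w =
      u * v3 c0 c1 c2 l w + v * v3 d0 d1 d2 l w := by
  unfold v3
  rw [cmb_val, cmb_val, cmb_val]
  ring

def eqC (c d : C6) : Bool :=
  and (and (and (decide (c.x0 = d.x0)) (decide (c.y0 = d.y0)))
    (and (decide (c.x1 = d.x1)) (decide (c.y1 = d.y1))))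
    (and (decide (c.x2 = d.x2)) (decide (c.y2 = d.y2)))

theorem eqC_eq {c d : C6} (h : eqC c d = true) : c = d := by
  simp only [eqC, Bool.and_eq_true, decide_eq_true_eq] at h
  obtain ⟨⟨⟨h1, h2⟩, h3, h4⟩, h5, h6⟩ := h
  cases c
  cases d
  simp only at h1 h2 h3 h4 h5 h6
  rw [h1, h2, h3, h4, h5, h6]

def eqC66 (c d : C66) : Bool :=
  and (and (and (eqC c.a0 d.a0) (eqC c.a1 d.a1)) (and (eqC c.a2 d.a2) (eqC c.b0 d.b0)))
    (and (eqC c.b1 d.b1) (eqC c.b2 d.b2))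

theorem eqC66_eq {c d : C66} (h : eqC66 c d = true) : c = d := by
  simp only [eqC66, Bool.and_eq_true] at h
  obtain ⟨⟨⟨h1, h2⟩, h3, h4⟩, h5, h6⟩ := h
  cases c
  cases d
  simp only at h1 h2 h3 h4 h5 h6
  rw [eqC_eq h1, eqC_eq h2, eqC_eq h3, eqC_eq h4, eqC_eq h5, eqC_eq h6]

/-- a bound at both ends of a segment -/
theorem norm_seg {P Q : ℂ} {a b t B : ℝ} (ha : a ≤ t) (hb : t ≤ b)
    (h1 : ‖P + (a : ℂ) * Q‖ ≤ B) (h2 : ‖P + (b : ℂ) * Q‖ ≤ B) : ‖P + (t : ℂ) * Q‖ ≤ B := by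
  rcases eq_or_lt_of_le (ha.trans hb) with h | h
  · have : t = a := le_antisymm (hb.trans h.symm.le) ha
    rwa [this]
  · have d : 0 < b - a := sub_pos.2 h
    have e : ((b - a : ℝ) : ℂ) * (P + (t : ℂ) * Q) = ((b - t : ℝ) : ℂ) * (P + (a : ℂ) * Q) +
        ((t - a : ℝ) : ℂ) * (P + (b : ℂ) * Q) := by
      push_cast
      ring
    have e2 : (b - a) * ‖P + (t : ℂ) * Q‖ = ‖((b - a : ℝ) : ℂ) * (P + (t : ℂ) * Q)‖ := by
      rw [norm_mul, Complex.norm_real, Real.norm_of_nonneg d.le]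
    have k := norm_add_le (((b - t : ℝ) : ℂ) * (P + (a : ℂ) * Q))
      (((t - a : ℝ) : ℂ) * (P + (b : ℂ) * Q))
    rw [norm_mul, norm_mul, Complex.norm_real, Complex.norm_real,
      Real.norm_of_nonneg (sub_nonneg.2 hb), Real.norm_of_nonneg (sub_nonneg.2 ha)] at k
    have k1 := mul_le_mul_of_nonneg_left h1 (sub_nonneg.2 hb)
    have k2 := mul_le_mul_of_nonneg_left h2 (sub_nonneg.2 ha)
    have k3 : (b - a) * ‖P + (t : ℂ) * Q‖ ≤ (b - a) * B := by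
      rw [e2, e]
      linarith
    exact le_of_mul_le_mul_left k3 d

/-! ### the check -/

/-- the multiplier `M''` of the parameter `t`, affine in `t` -/
noncomputable def MqA (M : ℤ) (I0 I1 O0 O1 : CL) (p0 p1 p2 q0 q1 q2 t : ℝ) (w : ℂ) : ℂ :=
  Mqc M I0 O0 p0 p1 p2 q0 q1 q2 w + (t : ℂ) * Mqc M I1 O1 p0 p1 p2 q0 q1 q2 w

/-- the data of the check on the cell `[an/ad, bn/ad]`: resolution, scale and depth inside and
outside, the bound `Bn / Bd` of `M''`, the denominators `ri / r` (inside) and `si / s`, the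
numbers `8 Bn M ad K² W²`, the coefficients at the ends -/
structure FChk where
  (W K n W' K' n' Bn Bd : ℕ)
  (r r0 r1 r2 s s0 s1 s2 ad an bn : ℤ)
  (BI BO : ℕ)
  (cI cO : C66)

/-- the three vertices of a cell -/
def FChk.v (c : FChk) : ℕ → ℤ × ℤ × ℤ
  | 0 => (Int.mul c.an c.ad, Int.mul c.an c.an, Int.mul c.ad c.ad)
  | 1 => (Int.mul c.bn c.ad, Int.mul c.bn c.bn, Int.mul c.ad c.ad)
  | _ => (Int.mul (Int.add c.an c.bn) c.ad, Int.mul 2 (Int.mul c.an c.bn),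
      Int.mul 2 (Int.mul c.ad c.ad))

/-- the boxes inside -/
def FChk.okI (c : FChk) : Bool :=
  qx (oI c.W) (lfF ⟨c.W, c.K, c.r, Int.add c.r0 c.r1, c.r1, Int.add c.r1 c.r2⟩ c.Bd c.BI c.cI)
    c.n 0 0 c.W

/-- the boxes outside -/
def FChk.okO (c : FChk) : Bool :=
  qx (oO c.W' (c.v 0) (c.v 1) (c.v 2))
    (lfF ⟨c.W', c.K', Int.neg c.s, Int.add c.s0 c.s1, c.s1, Int.add c.s1 c.s2⟩ c.Bd c.BO c.cO)
    c.n' (Int.neg (Int.ofNat c.W')) 0 (Nat.mul 6 c.W')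

/-- the algebraic conditions -/
def FChk.ok0 (c : FChk) (M : ℤ) (I0 I1 O0 O1 : CL) : Bool :=
  and (and (and (and (degC 2 I0) (degC 2 I1)) (and (degC 2 O0) (degC 2 O1)))
    (and (shC I0 O0) (shC I1 O1)))
  (and (and (eqC66 c.cI (ends c.ad c.an c.bn I0 I1)) (eqC66 c.cO (ends c.ad c.an c.bn O0 O1)))
    (and (and (and (decide (0 < M)) (decide (0 < c.ad)))
        (and (decide (0 ≤ Int.mul c.an c.bn)) (decide (0 < c.Bd))))
      (and (and (and (decide (0 < c.W)) (decide (0 < c.K)))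
          (and (decide (0 < c.W')) (decide (0 < c.K'))))
        (and (decide ((c.BI : ℤ) ≤ 8 * c.Bn * (c.ad * M) * (c.W * c.W * (c.K * c.K))))
          (decide ((c.BO : ℤ) ≤ 8 * c.Bn * (c.ad * M) * (c.W' * c.W' * (c.K' * c.K'))))))))

theorem bd_of {W K Bn Bd BB : ℕ} {M ad : ℤ} {Z : ℂ} (hW : 0 < W) (hK : 0 < K) (hBd : 0 < Bd)
    (hB : (BB : ℤ) ≤ 8 * Bn * (ad * M) * (W * W * (K * K)))
    (h : 8 * Bd * ((W : ℝ) ^ 2 * (K : ℝ) ^ 2 * ‖Z‖) ≤ (BB : ℝ)) :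
    ‖Z‖ ≤ (Bn : ℝ) / Bd * (ad * M) := by
  have hB' : (BB : ℝ) ≤ 8 * Bn * (ad * M) * (W * W * (K * K)) := by exact_mod_cast hB
  have hW0 : (0:ℝ) < W := by exact_mod_cast hW
  have hK0 : (0:ℝ) < K := by exact_mod_cast hK
  have hB0 : (0:ℝ) < Bd := by exact_mod_cast hBd
  have h1 : 8 * ((W : ℝ) ^ 2 * (K : ℝ) ^ 2) * (Bd * ‖Z‖) ≤
      8 * ((W : ℝ) ^ 2 * (K : ℝ) ^ 2) * (Bn * (ad * M)) := by
    have h2 := h.trans hB'
    nlinarith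
  have h3 : (Bd : ℝ) * ‖Z‖ ≤ Bn * (ad * M) := le_of_mul_le_mul_left h1 (by positivity)
  rw [div_mul_eq_mul_div, le_div_iff₀ hB0]
  linarith

/-- both ends give the bound on the segment -/
theorem seg_bound {ad an bn M : ℤ} {Bn Bd : ℕ} {L0 L1 : CL} {c : C66} {l : ℝ} {w : ℂ} {t : ℝ}
    (hM : 0 < M) (had : 0 < ad) (hc : c = ends ad an bn L0 L1)
    (d0 : ∀ s ∈ L0, s.1 ≤ 2 ∧ s.2.1 ≤ 2) (d1 : ∀ s ∈ L1, s.1 ≤ 2 ∧ s.2.1 ≤ 2)
    (ha : (an : ℝ) ≤ ad * t) (hb : (ad : ℝ) * t ≤ bn)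
    (h1 : ‖v3 c.a0 c.a1 c.a2 l w‖ ≤ (Bn : ℝ) / Bd * (ad * M))
    (h2 : ‖v3 c.b0 c.b1 c.b2 l w‖ ≤ (Bn : ℝ) / Bd * (ad * M)) :
    ‖MSc L0 l w / (M : ℂ) + (t : ℂ) * (MSc L1 l w / (M : ℂ))‖ ≤ (Bn : ℝ) / Bd := by
  have hM0 : (0:ℝ) < M := by exact_mod_cast hM
  have ha0 : (0:ℝ) < ad := by exact_mod_cast had
  have hMc : (M : ℂ) ≠ 0 := by exact_mod_cast hM.ne'
  have hac : (ad : ℂ) ≠ 0 := by exact_mod_cast had.ne'
  have key : ∀ kn : ℤ, ‖(ad : ℂ) * v3 (c6 0 L0) (c6 1 L0) (c6 2 L0) l w +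
      (kn : ℂ) * v3 (c6 0 L1) (c6 1 L1) (c6 2 L1) l w‖ ≤ (Bn : ℝ) / Bd * (ad * M) →
      ‖MSc L0 l w / (M : ℂ) + (((kn : ℝ) / ad : ℝ) : ℂ) * (MSc L1 l w / (M : ℂ))‖ ≤
        (Bn : ℝ) / Bd := by
    intro kn hk
    rw [← MSc_c6 d0, ← MSc_c6 d1] at hk
    have e : MSc L0 l w / (M : ℂ) + (((kn : ℝ) / ad : ℝ) : ℂ) * (MSc L1 l w / (M : ℂ)) =
        ((ad : ℂ) * MSc L0 l w + (kn : ℂ) * MSc L1 l w) / ((ad * M : ℝ) : ℂ) := by
      push_cast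
      field_simp
    rw [e, norm_div, Complex.norm_real, Real.norm_of_nonneg (mul_pos ha0 hM0).le,
      div_le_iff₀ (mul_pos ha0 hM0)]
    exact hk
  rw [hc] at h1 h2
  simp only [ends, v3_cmb] at h1 h2
  refine norm_seg (a := (an : ℝ) / ad) (b := (bn : ℝ) / ad) ?_ ?_ (key an h1) (key bn h2)
  · rw [div_le_iff₀ ha0]
    linarith
  · rw [le_div_iff₀ ha0]
    linarith

/-- **the bound of `M''`** on the discs of a cell -/
theorem MqA_le {p0 p1 p2 q0 q1 q2 k k' : ℝ} (hk : 0 < k)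
    (hl : ∀ w : ℂ, ‖w‖ ≤ 1 → k ≤ rF p0 p1 p2 w) (hk' : 0 < k')
    (hl' : ∀ w : ℂ, k' ≤ rF q0 q1 q2 w) {M : ℤ} {I0 I1 O0 O1 : CL} (c : FChk)
    (hr : ROk c.r c.r0 c.r1 c.r2 p0 p1 p2) (hr' : ROk c.s c.s0 c.s1 c.s2 q0 q1 q2)
    (h0 : c.ok0 M I0 I1 O0 O1 = true) (hI : c.okI = true) (hO : c.okO = true) {t : ℝ}
    (ha : (c.an : ℝ) ≤ c.ad * t) (hb : (c.ad : ℝ) * t ≤ c.bn) {m : ℂ} (hm : ‖m + 3‖ ≤ 4) :
    ‖MqA M I0 I1 O0 O1 p0 p1 p2 q0 q1 q2 t (wu (uT t) m)‖ ≤ (c.Bn : ℝ) / c.Bd := by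
  simp only [FChk.ok0, Bool.and_eq_true, decide_eq_true_eq] at h0
  obtain ⟨⟨⟨⟨dI0, dI1⟩, dO0, dO1⟩, -, -⟩, ⟨eI, eO⟩, ⟨⟨hM, had⟩, hab, hBd⟩,
    ⟨⟨hW, hK⟩, hW', hK'⟩, hBI, hBO⟩ := h0
  have had0 : (0:ℝ) < c.ad := by exact_mod_cast had
  obtain ⟨w, hw⟩ : ∃ w : ℂ, w = wu (uT t) m := ⟨_, rfl⟩
  obtain ⟨h6, hreg⟩ := cover (a := (c.an : ℝ) / c.ad) (b := (c.bn : ℝ) / c.ad) (t := t)
    (v1 := c.v 0) (v2 := c.v 1) (v3 := c.v 2)
    (by rw [div_le_iff₀ had0]; linarith) (by rw [le_div_iff₀ had0]; linarith)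
    (by
      show 0 < c.ad * c.ad
      positivity)
    (by
      show 0 < c.ad * c.ad
      positivity)
    (by
      show 0 < 2 * (c.ad * c.ad)
      positivity)
    (by
      simp only [FChk.v, imul_cast']
      field_simp)
    (by
      simp only [FChk.v, imul_cast']
      field_simp)
    (by
      simp only [FChk.v, imul_cast']
      field_simp)
    (by
      simp only [FChk.v, imul_cast']
      field_simp)
    (by
      simp only [FChk.v, imul_cast', iadd_cast']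
      push_cast
      field_simp)
    (by
      simp only [FChk.v, imul_cast']
      push_cast
      field_simp) hm
  rw [← hw] at h6 hreg ⊢
  unfold MqA Mqc
  split_ifs with h1
  · have hr0 : (0:ℝ) < c.r := by exact_mod_cast hr.pos
    have h2 : 0 < rF p0 p1 p2 w := hk.trans_le (hl w h1)
    have hb1 : ∀ x : ℝ, |x| ≤ 1 → |(c.W : ℝ) * x - ((0 : ℤ) : ℝ)| ≤ c.W := fun x hx => by
      rw [Int.cast_zero, sub_zero, abs_mul, abs_of_nonneg (Nat.cast_nonneg c.W)]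
      have := mul_le_mul_of_nonneg_left hx (Nat.cast_nonneg c.W : (0:ℝ) ≤ c.W)
      rwa [mul_one] at this
    have key := qx_sound (X := (c.W : ℝ) * w.re) (Y := (c.W : ℝ) * w.im)
      (P := 8 * c.Bd * ((c.W : ℝ) ^ 2 * (c.K : ℝ) ^ 2 * ‖v3 c.cI.a0 c.cI.a1 c.cI.a2
          ((1 - ‖w‖ ^ 2) / rF p0 p1 p2 w) w‖) ≤ (c.BI : ℝ) ∧
        8 * c.Bd * ((c.W : ℝ) ^ 2 * (c.K : ℝ) ^ 2 * ‖v3 c.cI.b0 c.cI.b1 c.cI.b2
          ((1 - ‖w‖ ^ 2) / rF p0 p1 p2 w) w‖) ≤ (c.BI : ℝ))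
      (fun cx cy h a1 a2 a3 => oI_sound a1 h1 a2 a3)
      (fun cx cy h a1 a2 a3 => lfF_sound (ρ := c.r * rF p0 p1 p2 w) a1 (by
          rw [rF_eq]
          simp only [iadd_cast', hr.e0, hr.e1, hr.e2]
          ring) (by field_simp) a2 a3) c.n 0 0 c.W hI
      (hb1 _ ((Complex.abs_re_le_norm w).trans h1)) (hb1 _ ((Complex.abs_im_le_norm w).trans h1))
    exact seg_bound hM had (eqC66_eq eI) (degC_iff dI0) (degC_iff dI1) ha hb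
      (bd_of hW hK hBd hBI key.1) (bd_of hW hK hBd hBI key.2)
  · have hr0 : (0:ℝ) < c.s := by exact_mod_cast hr'.pos
    have h2 : 0 < rF q0 q1 q2 w := hk'.trans_le (hl' w)
    have e6 : ((Nat.mul 6 c.W' : ℕ) : ℝ) = 6 * c.W' := by
      rw [nmul_c]
      push_cast
      ring
    have hb1 : |(c.W' : ℝ) * w.re - ((Int.neg (Int.ofNat c.W') : ℤ) : ℝ)| ≤
        ((Nat.mul 6 c.W' : ℕ) : ℝ) := by
      rw [ineg_cast', zof_cast, e6]
      have a1 := Complex.abs_re_le_norm (w + 1)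
      rw [add_re, one_re] at a1
      have e : (c.W' : ℝ) * w.re - -(c.W' : ℝ) = c.W' * (w.re + 1) := by ring
      rw [e, abs_mul, abs_of_nonneg (Nat.cast_nonneg c.W')]
      have := mul_le_mul_of_nonneg_left (a1.trans h6) (Nat.cast_nonneg c.W' : (0:ℝ) ≤ c.W')
      linarith
    have hb2 : |(c.W' : ℝ) * w.im - ((0 : ℤ) : ℝ)| ≤ ((Nat.mul 6 c.W' : ℕ) : ℝ) := by
      rw [Int.cast_zero, sub_zero, e6]
      have a1 := Complex.abs_im_le_norm (w + 1)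
      rw [add_im, one_im, add_zero] at a1
      rw [abs_mul, abs_of_nonneg (Nat.cast_nonneg c.W')]
      have := mul_le_mul_of_nonneg_left (a1.trans h6) (Nat.cast_nonneg c.W' : (0:ℝ) ≤ c.W')
      linarith
    have hD : ∀ x y : ℤ, 0 ≤ x * x + y * y := fun x y =>
      add_nonneg (mul_self_nonneg x) (mul_self_nonneg y)
    have key := qx_sound (X := (c.W' : ℝ) * w.re) (Y := (c.W' : ℝ) * w.im)
      (P := 8 * c.Bd * ((c.W' : ℝ) ^ 2 * (c.K' : ℝ) ^ 2 * ‖v3 c.cO.a0 c.cO.a1 c.cO.a2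
          ((‖w‖ ^ 2 - 1) / rF q0 q1 q2 w) w‖) ≤ (c.BO : ℝ) ∧
        8 * c.Bd * ((c.W' : ℝ) ^ 2 * (c.K' : ℝ) ^ 2 * ‖v3 c.cO.b0 c.cO.b1 c.cO.b2
          ((‖w‖ ^ 2 - 1) / rF q0 q1 q2 w) w‖) ≤ (c.BO : ℝ))
      (fun cx cy h a1 a2 a3 => oO_sound a1 hW' (hD c.ad c.an) (hD c.ad c.bn) (by
        show 0 ≤ 2 * (c.ad * c.ad) + 2 * (c.an * c.bn)
        have e : Int.mul c.an c.bn = c.an * c.bn := rfl
        rw [e] at hab
        have := mul_self_nonneg c.ad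
        omega) h1 h6 hreg a2 a3)
      (fun cx cy h a1 a2 a3 => lfF_sound (ρ := c.s * rF q0 q1 q2 w) a1 (by
          rw [rF_eq]
          simp only [iadd_cast', hr'.e0, hr'.e1, hr'.e2]
          ring) (by
          simp only [ineg_cast']
          field_simp
          ring) a2 a3) c.n' _ _ _ hO hb1 hb2
    exact seg_bound hM had (eqC66_eq eO) (degC_iff dO0) (degC_iff dO1) ha hb
      (bd_of hW' hK' hBd hBO key.1) (bd_of hW' hK' hBd hBO key.2)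

/-- **`MOk` for every direction of a cell** -/
theorem mOk_F {p0 p1 p2 q0 q1 q2 k k' : ℝ} (hk : 0 < k)
    (hl : ∀ w : ℂ, ‖w‖ ≤ 1 → k ≤ rF p0 p1 p2 w) (hk' : 0 < k')
    (hl' : ∀ w : ℂ, k' ≤ rF q0 q1 q2 w) {M : ℤ} {I0 I1 O0 O1 : CL} (c : FChk)
    (hr : ROk c.r c.r0 c.r1 c.r2 p0 p1 p2) (hr' : ROk c.s c.s0 c.s1 c.s2 q0 q1 q2)
    (h0 : c.ok0 M I0 I1 O0 O1 = true) (hI : c.okI = true) (hO : c.okO = true) {t : ℝ}
    (ha : (c.an : ℝ) ≤ c.ad * t) (hb : (c.ad : ℝ) * t ≤ c.bn) {Mb : ℝ}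
    (hMb : Real.sqrt (1 + t ^ 2) / 2 * ((c.Bn : ℝ) / c.Bd) < Mb) :
    ∃ (M' : ℂ → ℂ) (L' ε : ℝ), 0 < ε ∧ MOk (fun m => conj (uT t) ^ 2 * ((1 + (t : ℂ) * I) / 2) *
      MqA M I0 I1 O0 O1 p0 p1 p2 q0 q1 q2 t (wu (uT t) m)) M' Mb L' ε := by
  have hh := h0
  simp only [FChk.ok0, Bool.and_eq_true, decide_eq_true_eq] at hh
  obtain ⟨⟨⟨⟨dI0, dI1⟩, dO0, dO1⟩, s0, s1⟩, -⟩ := hh
  have z0 := shC_eq (degC_iff dI0) (degC_iff dO0) s0
  have z1 := shC_eq (degC_iff dI1) (degC_iff dO1) s1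
  obtain ⟨L0, hL0, lip0⟩ := Mqc_lip (M := M) hk hl hk' hl' z0 (R := 10) (by norm_num)
  obtain ⟨L1, hL1, lip1⟩ := Mqc_lip (M := M) hk hl hk' hl' z1 (R := 10) (by norm_num)
  obtain ⟨z, hzz⟩ : ∃ z : ℂ, z = conj (uT t) ^ 2 * ((1 + (t : ℂ) * I) / 2) := ⟨_, rfl⟩
  have hzn : ‖z‖ = Real.sqrt (1 + t ^ 2) / 2 := by rw [hzz]; exact fac_norm t
  rw [← hzz]
  have hc : Continuous (MqA M I0 I1 O0 O1 p0 p1 p2 q0 q1 q2 t) := by
    unfold MqA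
    exact (Mqc_cont hk hl hk' hl' z0).add (continuous_const.mul (Mqc_cont hk hl hk' hl' z1))
  have hlip : ∀ w w' : ℂ, ‖w‖ ≤ 10 → ‖w'‖ ≤ 10 →
      ‖MqA M I0 I1 O0 O1 p0 p1 p2 q0 q1 q2 t w - MqA M I0 I1 O0 O1 p0 p1 p2 q0 q1 q2 t w'‖ ≤
        (L0 + |t| * L1) * ‖w - w'‖ := by
    intro w w' hw hw'
    have e : MqA M I0 I1 O0 O1 p0 p1 p2 q0 q1 q2 t w - MqA M I0 I1 O0 O1 p0 p1 p2 q0 q1 q2 t w' =
        (Mqc M I0 O0 p0 p1 p2 q0 q1 q2 w - Mqc M I0 O0 p0 p1 p2 q0 q1 q2 w') +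
        (t : ℂ) * (Mqc M I1 O1 p0 p1 p2 q0 q1 q2 w - Mqc M I1 O1 p0 p1 p2 q0 q1 q2 w') := by
      unfold MqA
      ring
    rw [e]
    refine (norm_add_le _ _).trans ?_
    rw [norm_mul, Complex.norm_real, Real.norm_eq_abs]
    have a1 := lip0 w w' hw hw'
    have a2 := mul_le_mul_of_nonneg_left (lip1 w w' hw hw') (abs_nonneg t)
    linarith
  exact mOk_dir (F := fun w => z * MqA M I0 I1 O0 O1 p0 p1 p2 q0 q1 q2 t w)
    (continuous_const.mul hc) (L := ‖z‖ * (L0 + |t| * L1)) (by positivity)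
    (fun w w' hw hw' => by
      rw [← mul_sub, norm_mul, mul_assoc]
      exact mul_le_mul_of_nonneg_left (hlip w w' hw hw') (norm_nonneg _))
    (uT_norm t) (b := Real.sqrt (1 + t ^ 2) / 2 * ((c.Bn : ℝ) / c.Bd)) (fun m hm => by
      rw [norm_mul, hzn]
      exact mul_le_mul_of_nonneg_left (MqA_le hk hl hk' hl' c hr hr' h0 hI hO ha hb hm)
        (by positivity)) hMb

end Pool.Agent.Helper11.CKC
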