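import Pool.Agent.Helper11.CKC.Fast
import Pool.Agent.Helper99.CKC.Coord
import Pool.Agent.Helper20.EK7.FieldG

/-!
# Project CKC: the multiplier on a whole arc `0 ≤ τ ≤ T`, from a list of cells
-/

set_option autoImplicit false

open Complex Metric Set
open scoped ComplexConjugate

namespace Pool.Agent.Helper11.CKC

open Pool.Agent.Helper20.CK (ROk)
open Pool.Agent.Helper69.EK3 (rF)
open Pool.Agent.Helper82.CKC (wu)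
open Pool.Agent.Helper69.CK (MOk)
open Pool.Agent.Helper99.CKC (ud)
open Pool.Agent.Helper20.EK7 (InL OutL OutD)

/-- the cells cover `[pn/pd, Tn/Td]` -/
def covB (Tn Td : ℤ) : ℤ → ℤ → List FChk → Bool
  | pn, pd, [] => decide (Tn * pd ≤ pn * Td)
  | pn, pd, c :: cs => and (decide (c.an * pd ≤ pn * c.ad)) (covB Tn Td c.bn c.ad cs)

/-- the number of the bound: `(1 + b²) B² < 16 κ(a)²`, `κ(τ) = (kA + kB τ²)/kD` -/
def numB (kA kB kD : ℤ) (c : FChk) : Bool :=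
  and (and (decide (0 ≤ c.an)) (decide (0 < c.ad)))
    (and (and (decide (0 < (c.Bd : ℤ))) (decide (0 ≤ kA * c.ad ^ 2 + kB * c.an ^ 2)))
    (decide ((c.ad ^ 2 + c.bn ^ 2) * (c.Bn : ℤ) ^ 2 * c.ad ^ 2 * kD ^ 2 <
      16 * (c.Bd : ℤ) ^ 2 * (kA * c.ad ^ 2 + kB * c.an ^ 2) ^ 2)))

/-- all conditions on a list of cells except the boxes -/
def arcB (M : ℤ) (I0 I1 O0 O1 : CL) (r r0 r1 r2 s s0 s1 s2 kA kB kD : ℤ) : List FChk → Bool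
  | [] => true
  | c :: cs => and (and (and (c.ok0 M I0 I1 O0 O1) (numB kA kB kD c))
      (and (and (and (decide (c.r = r)) (decide (c.r0 = r0)))
          (and (decide (c.r1 = r1)) (decide (c.r2 = r2))))
        (and (and (decide (c.s = s)) (decide (c.s0 = s0)))
          (and (decide (c.s1 = s1)) (decide (c.s2 = s2))))))
      (arcB M I0 I1 O0 O1 r r0 r1 r2 s s0 s1 s2 kA kB kD cs)

theorem covB_sound {Tn Td : ℤ} (hTd : 0 < Td) {τ : ℝ} (hτ : τ * Td ≤ Tn) :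
    ∀ (cs : List FChk) (pn pd : ℤ), covB Tn Td pn pd cs = true → 0 < pd →
      (∀ c ∈ cs, 0 < c.ad) → (pn : ℝ) < pd * τ →
      ∃ c ∈ cs, (c.an : ℝ) ≤ c.ad * τ ∧ (c.ad : ℝ) * τ ≤ c.bn := by
  intro cs
  induction cs with
  | nil =>
    intro pn pd h hpd _ hp
    simp only [covB, decide_eq_true_eq] at h
    exfalso
    have h1 : (Tn : ℝ) * pd ≤ pn * Td := by exact_mod_cast h
    have hT0 : (0:ℝ) < Td := by exact_mod_cast hTd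
    have hp0 : (0:ℝ) < pd := by exact_mod_cast hpd
    nlinarith
  | cons c cs ih =>
    intro pn pd h hpd had hp
    simp only [covB, Bool.and_eq_true, decide_eq_true_eq] at h
    obtain ⟨h1, h2⟩ := h
    have hc := had c List.mem_cons_self
    have hc0 : (0:ℝ) < c.ad := by exact_mod_cast hc
    have hp0 : (0:ℝ) < pd := by exact_mod_cast hpd
    by_cases hb : (c.ad : ℝ) * τ ≤ c.bn
    · refine ⟨c, List.mem_cons_self, ?_, hb⟩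
      have h3 : (c.an : ℝ) * pd ≤ pn * c.ad := by exact_mod_cast h1
      have h4 : (c.an : ℝ) * pd ≤ c.ad * τ * pd := by nlinarith
      exact le_of_mul_le_mul_right h4 hp0
    · obtain ⟨d, hd, hd2⟩ := ih c.bn c.ad h2 hc
        (fun e he => had e (List.mem_cons_of_mem _ he)) (not_le.1 hb)
      exact ⟨d, List.mem_cons_of_mem _ hd, hd2⟩

theorem covB_sound0 {Tn Td : ℤ} (hTd : 0 < Td) {τ : ℝ} (h0 : 0 ≤ τ) (hτ : τ * Td ≤ Tn)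
    {cs : List FChk} (h : covB Tn Td 0 1 cs = true) (hne : cs ≠ []) (had : ∀ c ∈ cs, 0 < c.ad) :
    ∃ c ∈ cs, (c.an : ℝ) ≤ c.ad * τ ∧ (c.ad : ℝ) * τ ≤ c.bn := by
  cases cs with
  | nil => exact absurd rfl hne
  | cons c cs =>
    simp only [covB, Bool.and_eq_true, decide_eq_true_eq] at h
    obtain ⟨h1, h2⟩ := h
    have hc := had c List.mem_cons_self
    have hc0 : (0:ℝ) < c.ad := by exact_mod_cast hc
    by_cases hb : (c.ad : ℝ) * τ ≤ c.bn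
    · refine ⟨c, List.mem_cons_self, ?_, hb⟩
      have h3 : (c.an : ℝ) ≤ 0 := by
        have : c.an ≤ 0 := by linarith
        exact_mod_cast this
      have := mul_nonneg hc0.le h0
      linarith
    · obtain ⟨d, hd, hd2⟩ := covB_sound hTd hτ cs c.bn c.ad h2 hc
        (fun e he => had e (List.mem_cons_of_mem _ he)) (not_le.1 hb)
      exact ⟨d, List.mem_cons_of_mem _ hd, hd2⟩

/-- the number of a cell gives the strict inequality for all its directions -/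
theorem numB_lt {kA kB kD : ℤ} {c : FChk} (h : numB kA kB kD c = true) (hkB : 0 ≤ kB)
    (hkD : 0 < kD) {τ : ℝ} (ha : (c.an : ℝ) ≤ c.ad * τ) (hb : (c.ad : ℝ) * τ ≤ c.bn) :
    Real.sqrt (1 + τ ^ 2) / 2 * ((c.Bn : ℝ) / c.Bd) < 2 * ((kA : ℝ) / kD + kB / kD * τ ^ 2) := by
  simp only [numB, Bool.and_eq_true, decide_eq_true_eq] at h
  obtain ⟨⟨h0, had⟩, ⟨hBd, hk⟩, hlt⟩ := h
  have an0 : (0:ℝ) ≤ c.an := by exact_mod_cast h0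
  have ad0 : (0:ℝ) < c.ad := by exact_mod_cast had
  have bd0 : (0:ℝ) < c.Bd := by exact_mod_cast hBd
  have k0 : (0:ℝ) ≤ kA * (c.ad : ℝ) ^ 2 + kB * (c.an : ℝ) ^ 2 := by exact_mod_cast hk
  have kB0 : (0:ℝ) ≤ kB := by exact_mod_cast hkB
  have kD0 : (0:ℝ) < kD := by exact_mod_cast hkD
  have hlt' : ((c.ad : ℝ) ^ 2 + (c.bn : ℝ) ^ 2) * (c.Bn : ℝ) ^ 2 * (c.ad : ℝ) ^ 2 * (kD : ℝ) ^ 2 <
      16 * (c.Bd : ℝ) ^ 2 * (kA * (c.ad : ℝ) ^ 2 + kB * (c.an : ℝ) ^ 2) ^ 2 := by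
    exact_mod_cast hlt
  have aτ : 0 ≤ (c.ad : ℝ) * τ := an0.trans ha
  have hτ0 : 0 ≤ τ := nonneg_of_mul_nonneg_right aτ ad0
  have sb : ((c.ad : ℝ) * τ) ^ 2 ≤ (c.bn : ℝ) ^ 2 := pow_le_pow_left₀ aτ hb 2
  have sa : (c.an : ℝ) ^ 2 ≤ ((c.ad : ℝ) * τ) ^ 2 := pow_le_pow_left₀ an0 ha 2
  -- square of the left side
  have hB0 : (0:ℝ) ≤ c.Bn := Nat.cast_nonneg _
  have hs := Real.sq_sqrt (show (0:ℝ) ≤ 1 + τ ^ 2 by positivity)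
  obtain ⟨S, hS⟩ : ∃ S : ℝ, S = Real.sqrt (1 + τ ^ 2) := ⟨_, rfl⟩
  rw [← hS] at hs ⊢
  have hS0 : 0 ≤ S := by rw [hS]; exact Real.sqrt_nonneg _
  obtain ⟨Q, hQ⟩ : ∃ Q : ℝ, Q = kA * (c.ad : ℝ) ^ 2 + kB * ((c.ad : ℝ) * τ) ^ 2 := ⟨_, rfl⟩
  have hQ1 : kA * (c.ad : ℝ) ^ 2 + kB * (c.an : ℝ) ^ 2 ≤ Q := by
    rw [hQ]
    have := mul_le_mul_of_nonneg_left sa kB0
    linarith
  have hQ0 : 0 ≤ Q := k0.trans hQ1
  have hQ2 : (kA * (c.ad : ℝ) ^ 2 + kB * (c.an : ℝ) ^ 2) ^ 2 ≤ Q ^ 2 :=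
    pow_le_pow_left₀ k0 hQ1 2
  -- (S Bn ad² kD)² < (4 Bd Q)²
  have key : (S * c.Bn * (c.ad : ℝ) ^ 2 * kD) ^ 2 < (4 * c.Bd * Q) ^ 2 := by
    have e1 : (S * c.Bn * (c.ad : ℝ) ^ 2 * kD) ^ 2 =
        ((c.ad : ℝ) ^ 2 + ((c.ad : ℝ) * τ) ^ 2) * ((c.Bn : ℝ) ^ 2 * (c.ad : ℝ) ^ 2 * (kD : ℝ) ^ 2) := by
      have : (S * c.Bn * (c.ad : ℝ) ^ 2 * kD) ^ 2 =
          S ^ 2 * ((c.ad : ℝ) ^ 2 * ((c.Bn : ℝ) ^ 2 * (c.ad : ℝ) ^ 2 * (kD : ℝ) ^ 2)) := by ring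
      rw [this, hs]
      ring
    have e2 : (4 * c.Bd * Q) ^ 2 = 16 * (c.Bd : ℝ) ^ 2 * Q ^ 2 := by ring
    rw [e1, e2]
    have k1 : ((c.ad : ℝ) ^ 2 + ((c.ad : ℝ) * τ) ^ 2) *
        ((c.Bn : ℝ) ^ 2 * (c.ad : ℝ) ^ 2 * (kD : ℝ) ^ 2) ≤
        ((c.ad : ℝ) ^ 2 + (c.bn : ℝ) ^ 2) * ((c.Bn : ℝ) ^ 2 * (c.ad : ℝ) ^ 2 * (kD : ℝ) ^ 2) :=
      mul_le_mul_of_nonneg_right (by linarith) (by positivity)
    have k2 : 16 * (c.Bd : ℝ) ^ 2 * (kA * (c.ad : ℝ) ^ 2 + kB * (c.an : ℝ) ^ 2) ^ 2 ≤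
        16 * (c.Bd : ℝ) ^ 2 * Q ^ 2 := mul_le_mul_of_nonneg_left hQ2 (by positivity)
    linarith
  have key2 : S * c.Bn * (c.ad : ℝ) ^ 2 * kD < 4 * c.Bd * Q :=
    lt_of_pow_lt_pow_left₀ 2 (by positivity) key
  have e3 : Real.sqrt (1 + τ ^ 2) = S := hS.symm
  have e4 : S / 2 * ((c.Bn : ℝ) / c.Bd) = (S * c.Bn * (c.ad : ℝ) ^ 2 * kD) /
      (2 * c.Bd * (c.ad : ℝ) ^ 2 * kD) := by field_simp
  have e5 : 2 * ((kA : ℝ) / kD + kB / kD * τ ^ 2) = (4 * c.Bd * Q) /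
      (2 * c.Bd * (c.ad : ℝ) ^ 2 * kD) := by
    rw [hQ]
    field_simp
    ring
  rw [e4, e5]
  exact div_lt_div_of_pos_right key2 (by positivity)

/-- the conditions of one cell of a list -/
theorem arcB_mem {M : ℤ} {I0 I1 O0 O1 : CL} {r r0 r1 r2 s s0 s1 s2 kA kB kD : ℤ}
    {cs : List FChk} (h : arcB M I0 I1 O0 O1 r r0 r1 r2 s s0 s1 s2 kA kB kD cs = true)
    {c : FChk} (hc : c ∈ cs) : c.ok0 M I0 I1 O0 O1 = true ∧ numB kA kB kD c = true ∧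
      (c.r = r ∧ c.r0 = r0 ∧ c.r1 = r1 ∧ c.r2 = r2) ∧
      (c.s = s ∧ c.s0 = s0 ∧ c.s1 = s1 ∧ c.s2 = s2) := by
  induction cs with
  | nil => simp at hc
  | cons d cs ih =>
    simp only [arcB, Bool.and_eq_true, decide_eq_true_eq] at h
    obtain ⟨⟨⟨h1, h2⟩, ⟨⟨a1, a2⟩, a3, a4⟩, ⟨b1, b2⟩, b3, b4⟩, h4⟩ := h
    rcases List.mem_cons.1 hc with rfl | hc
    · exact ⟨h1, h2, ⟨a1, a2, a3, a4⟩, b1, b2, b3, b4⟩
    · exact ih h4 hc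

/-- **the multiplier of every direction of the arc `0 ≤ τ ≤ Tn/Td`** -/
theorem mOk_arc {p0 p1 p2 q0 q1 q2 : ℝ} (hp : InL p0 p1 p2) (hq : OutD q0 q1 q2)
    {M : ℤ} {I0 I1 O0 O1 : CL} {r r0 r1 r2 s s0 s1 s2 kA kB kD Tn Td : ℤ}
    (hr : ROk r r0 r1 r2 p0 p1 p2) (hr' : ROk s s0 s1 s2 q0 q1 q2) {cs : List FChk}
    (hne : cs ≠ []) (hTd : 0 < Td) (hkB : 0 ≤ kB) (hkD : 0 < kD)
    (hcov : covB Tn Td 0 1 cs = true)
    (harc : arcB M I0 I1 O0 O1 r r0 r1 r2 s s0 s1 s2 kA kB kD cs = true)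
    (hbox : ∀ c ∈ cs, c.okI = true ∧ c.okO = true) {τ : ℝ} (h0 : 0 ≤ τ) (hτ : τ * Td ≤ Tn) :
    ∃ (Mb : ℝ) (M' : ℂ → ℂ) (Lm ε₀ : ℝ), Mb < 2 * ((kA : ℝ) / kD + kB / kD * τ ^ 2) ∧
      0 < ε₀ ∧ MOk (fun m => conj (ud τ) ^ 2 * ((1 + (τ : ℂ) * I) / 2) *
        MqA M I0 I1 O0 O1 p0 p1 p2 q0 q1 q2 τ (wu (ud τ) m)) M' Mb Lm ε₀ := by
  obtain ⟨c, hc, ha, hb⟩ := covB_sound0 hTd h0 hτ hcov hne fun c hc => by
    have h1 := (arcB_mem harc hc).2.1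
    simp only [numB, Bool.and_eq_true, decide_eq_true_eq] at h1
    exact h1.1.2
  obtain ⟨h1, h2, ⟨a1, a2, a3, a4⟩, b1, b2, b3, b4⟩ := arcB_mem harc hc
  have hlt := numB_lt h2 hkB hkD ha hb
  obtain ⟨Mb, hM1, hM2⟩ := exists_between hlt
  obtain ⟨k, hk, hl⟩ := hp.low
  have h3 : OutL (q1 + q2) q0 q1 q2 := ⟨rfl, hq.pos, hq.pos'⟩
  obtain ⟨k', hk', hl'⟩ := h3.low
  obtain ⟨M', L', ε, hε, hMO⟩ := mOk_F (I0 := I0) (I1 := I1) (O0 := O0) (O1 := O1) (M := M)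
    hk (fun w hw => le_trans (by nlinarith [sq_nonneg ‖w‖]) (hl w hw)) hk'
    (fun w => le_trans (by nlinarith [sq_nonneg ‖w‖]) (hl' w)) c
    (by rw [a1, a2, a3, a4]; exact hr) (by rw [b1, b2, b3, b4]; exact hr') h1 (hbox c hc).1
    (hbox c hc).2 ha hb hM1
  refine ⟨Mb, M', L', ε, hM2, hε, ?_⟩
  have e : uT τ = ud τ := by
    unfold uT ud
    rw [mul_comm (τ : ℂ) I]
  rw [e] at hMO
  exact hMO

end Pool.Agent.Helper11.CKC
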