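import Pool.Agent.Helper11.CKC.Box3
import Pool.Agent.Helper11.CKC.FastU

/-!
# Project CKC: fast check of the bound of the multiplier, degree 3 in `conj w`, part 2
-/

set_option autoImplicit false

open Complex Metric Set
open scoped ComplexConjugate

namespace Pool.Agent.Helper11.CKC.D3

open Pool.Agent.Helper11.CKC
open Pool.Agent.Helper20.CK (hf hf_le split_box zof_cast ROk)
open Pool.Agent.Helper69.EK3 (rF rF_eq imul_cast' iadd_cast')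
open Pool.Agent.Helper82.CKC (wu mOk_dir)
open Pool.Agent.Helper69.CK (MOk)
open Pool.Agent.Helper99.CKC (ud)
open Pool.Agent.Helper20.EK7 (InL OutL OutD)

/-- the coefficients at the two ends of the cell -/
structure C88 where
  (a0 a1 a2 a3 b0 b1 b2 b3 : C6)

def lfF (p : LP) (Bd BB : ℕ) (c : C88) (cx cy : ℤ) (h : ℕ) : Bool :=
  ld1 p (fun lc lr => and
    (lfl p.W Bd BB (Int.ofNat p.K) c.a0 c.a1 c.a2 c.a3 cx cy h (Int.ofNat lc) lr)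
    (lfl p.W Bd BB (Int.ofNat p.K) c.b0 c.b1 c.b2 c.b3 cx cy h (Int.ofNat lc) lr)) cx cy h

/-- the value of four coefficients -/
noncomputable def v4 (c0 c1 c2 c3 : C6) (l : ℝ) (w : ℂ) : ℂ :=
  c0.val l + c1.val l * conj w + c2.val l * conj w ^ 2 + c3.val l * conj w ^ 3

theorem lfF_sound {p : LP} {Bd BB : ℕ} {c : C88} {cx cy : ℤ} {h : ℕ}
    (ht : lfF p Bd BB c cx cy h = true) {w : ℂ} {l ρ : ℝ}
    (hρ : ρ = p.r01 + 2 * p.r1 * w.re + p.r12 * ‖w‖ ^ 2) (hl : l * ρ = p.sr * (1 - ‖w‖ ^ 2))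
    (hx : |(p.W : ℝ) * w.re - cx| ≤ h) (hy : |(p.W : ℝ) * w.im - cy| ≤ h) :
    16 * Bd * ((p.W : ℝ) ^ 3 * (p.K : ℝ) ^ 2 * ‖v4 c.a0 c.a1 c.a2 c.a3 l w‖) ≤ (BB : ℝ) ∧
    16 * Bd * ((p.W : ℝ) ^ 3 * (p.K : ℝ) ^ 2 * ‖v4 c.b0 c.b1 c.b2 c.b3 l w‖) ≤ (BB : ℝ) := by
  obtain ⟨lc, lr, h1, h2⟩ := ld1_sound (l := l) ht hx hy (by
    have e1 : (p.r01 : ℝ) * (p.W : ℝ) ^ 2 + 2 * p.r1 * (p.W * (p.W * w.re)) +
        p.r12 * ((p.W * w.re) ^ 2 + (p.W * w.im) ^ 2) = (p.W : ℝ) ^ 2 * ρ := by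
      rw [hρ, nsq]
      ring
    have e2 : (p.sr : ℝ) * ((p.W : ℝ) ^ 2 - ((p.W * w.re) ^ 2 + (p.W * w.im) ^ 2)) =
        (p.W : ℝ) ^ 2 * (p.sr * (1 - ‖w‖ ^ 2)) := by
      rw [nsq]
      ring
    rw [e1, e2, ← hl]
    ring)
  simp only [Bool.and_eq_true] at h1
  have h3 : |((Int.ofNat p.K : ℤ) : ℝ) * l - ((Int.ofNat lc : ℤ) : ℝ)| ≤ lr := by
    rw [zof_cast, zof_cast]
    exact h2
  have k1 := lfl_le h1.1 h3 hx hy
  have k2 := lfl_le h1.2 h3 hx hy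
  rw [zof_cast] at k1 k2
  exact ⟨k1, k2⟩

/-! ### coefficients of a list -/

theorem MSc_c6 {L : CL} (hL : ∀ t ∈ L, t.1 ≤ 2 ∧ t.2.1 ≤ 3) (l : ℝ) (w : ℂ) :
    MSc L l w = v4 (c6 0 L) (c6 1 L) (c6 2 L) (c6 3 L) l w := by
  unfold MSc v4 C6.val zc c6
  induction L with
  | nil => simp [cR, cJ]
  | cons t L ih =>
    obtain ⟨h1, h2⟩ := hL t List.mem_cons_self
    obtain ⟨n, j, a, b⟩ := t
    have e : ∀ a b : ℤ, Int.add a b = a + b := fun _ _ => rfl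
    rw [List.map_cons, List.sum_cons, ih fun s hs => hL s (List.mem_cons_of_mem _ hs)]
    simp only at h1 h2 ⊢
    have h00 : Nat.beq 0 0 = true := rfl
    have h01 : Nat.beq 0 1 = false := rfl
    have h02 : Nat.beq 0 2 = false := rfl
    have h03 : Nat.beq 0 3 = false := rfl
    have h10 : Nat.beq 1 0 = false := rfl
    have h11 : Nat.beq 1 1 = true := rfl
    have h12 : Nat.beq 1 2 = false := rfl
    have h13 : Nat.beq 1 3 = false := rfl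
    have h20 : Nat.beq 2 0 = false := rfl
    have h21 : Nat.beq 2 1 = false := rfl
    have h22 : Nat.beq 2 2 = true := rfl
    have h23 : Nat.beq 2 3 = false := rfl
    have h30 : Nat.beq 3 0 = false := rfl
    have h31 : Nat.beq 3 1 = false := rfl
    have h32 : Nat.beq 3 2 = false := rfl
    have h33 : Nat.beq 3 3 = true := rfl
    interval_cases n <;> interval_cases j <;>
    · simp only [cR, cJ, h00, h01, h02, h03, h10, h11, h12, h13, h20, h21, h22, h23, h30, h31,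
        h32, h33, e, Bool.and_true, Bool.and_false, cond_true, cond_false]
      push_cast
      ring

/-- the coefficients at the ends of the cell -/
def ends (ad an bn : ℤ) (L0 L1 : CL) : C88 :=
  ⟨cmb ad an (c6 0 L0) (c6 0 L1), cmb ad an (c6 1 L0) (c6 1 L1), cmb ad an (c6 2 L0) (c6 2 L1),
    cmb ad an (c6 3 L0) (c6 3 L1),
    cmb ad bn (c6 0 L0) (c6 0 L1), cmb ad bn (c6 1 L0) (c6 1 L1), cmb ad bn (c6 2 L0) (c6 2 L1),
    cmb ad bn (c6 3 L0) (c6 3 L1)⟩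

theorem v4_cmb (u v : ℤ) (c0 c1 c2 c3 d0 d1 d2 d3 : C6) (l : ℝ) (w : ℂ) :
    v4 (cmb u v c0 d0) (cmb u v c1 d1) (cmb u v c2 d2) (cmb u v c3 d3) l w =
      u * v4 c0 c1 c2 c3 l w + v * v4 d0 d1 d2 d3 l w := by
  unfold v4
  rw [cmb_val, cmb_val, cmb_val, cmb_val]
  ring

def eqC88 (c d : C88) : Bool :=
  and (and (and (eqC c.a0 d.a0) (eqC c.a1 d.a1)) (and (eqC c.a2 d.a2) (eqC c.a3 d.a3)))
    (and (and (eqC c.b0 d.b0) (eqC c.b1 d.b1)) (and (eqC c.b2 d.b2) (eqC c.b3 d.b3)))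

theorem eqC88_eq {c d : C88} (h : eqC88 c d = true) : c = d := by
  simp only [eqC88, Bool.and_eq_true] at h
  obtain ⟨⟨⟨h1, h2⟩, h3, h4⟩, ⟨h5, h6⟩, h7, h8⟩ := h
  cases c
  cases d
  simp only at h1 h2 h3 h4 h5 h6 h7 h8
  rw [eqC_eq h1, eqC_eq h2, eqC_eq h3, eqC_eq h4, eqC_eq h5, eqC_eq h6, eqC_eq h7, eqC_eq h8]

/-- degrees in `l` at most 2, in `conj w` at most 3 -/
def degD : CL → Bool
  | [] => true
  | t :: L => and (and (Nat.ble t.1 2) (Nat.ble t.2.1 3)) (degD L)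

theorem degD_iff {L : CL} (h : degD L = true) : ∀ t ∈ L, t.1 ≤ 2 ∧ t.2.1 ≤ 3 := by
  induction L with
  | nil => simp
  | cons t L ih =>
    simp only [degD, Bool.and_eq_true, Nat.ble_eq] at h
    obtain ⟨⟨h1, h2⟩, h3⟩ := h
    intro q hq
    rcases List.mem_cons.1 hq with rfl | hq
    · exact ⟨h1, h2⟩
    · exact ih h3 q hq

/-- the columns of `l⁰` agree -/
def shD (MI MO : CL) : Bool :=
  and (and (and (decide (cR 0 0 MI = cR 0 0 MO)) (decide (cJ 0 0 MI = cJ 0 0 MO)))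
      (and (decide (cR 0 1 MI = cR 0 1 MO)) (decide (cJ 0 1 MI = cJ 0 1 MO))))
    (and (and (decide (cR 0 2 MI = cR 0 2 MO)) (decide (cJ 0 2 MI = cJ 0 2 MO)))
      (and (decide (cR 0 3 MI = cR 0 3 MO)) (decide (cJ 0 3 MI = cJ 0 3 MO))))

theorem shD_eq {MI MO : CL} (hI : ∀ t ∈ MI, t.1 ≤ 2 ∧ t.2.1 ≤ 3)
    (hO : ∀ t ∈ MO, t.1 ≤ 2 ∧ t.2.1 ≤ 3) (h : shD MI MO = true) (w : ℂ) :
    MSc MI 0 w = MSc MO 0 w := by
  simp only [shD, Bool.and_eq_true, decide_eq_true_eq] at h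
  obtain ⟨⟨⟨h1, h2⟩, h3, h4⟩, ⟨h5, h6⟩, h7, h8⟩ := h
  rw [MSc_c6 hI, MSc_c6 hO]
  unfold v4 C6.val c6
  simp only [h1, h2, h3, h4, h5, h6, h7, h8]
  simp

/-! ### the check -/

/-- the data of the check, see `Helper11.CKC.FChk`; `BI BO` are `16 Bn M ad K² W³` -/
structure FChk where
  (W K n W' K' n' Bn Bd : ℕ)
  (r r0 r1 r2 s s0 s1 s2 ad an bn : ℤ)
  (BI BO : ℕ)
  (cI cO : C88)

/-- the three vertices of a cell -/
def FChk.v (c : FChk) : ℕ → ℤ × ℤ × ℤ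
  | 0 => (Int.mul c.an c.ad, Int.mul c.an c.an, Int.mul c.ad c.ad)
  | 1 => (Int.mul c.bn c.ad, Int.mul c.bn c.bn, Int.mul c.ad c.ad)
  | _ => (Int.mul (Int.add c.an c.bn) c.ad, Int.mul 2 (Int.mul c.an c.bn),
      Int.mul 2 (Int.mul c.ad c.ad))

/-- the boxes inside -/
def FChk.okI (c : FChk) : Bool :=
  qx (oI c.W) (lfF ⟨c.W, c.K, c.r, Int.add c.r0 c.r1, c.r1, Int.add c.r1 c.r2⟩ c.Bd c.BI c.cI)
    c.n 0 0 c.W

/-- the boxes outside -/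
def FChk.okO (c : FChk) : Bool :=
  qx (oO c.W' (c.v 0) (c.v 1) (c.v 2))
    (lfF ⟨c.W', c.K', Int.neg c.s, Int.add c.s0 c.s1, c.s1, Int.add c.s1 c.s2⟩ c.Bd c.BO c.cO)
    c.n' (Int.neg (Int.ofNat c.W')) 0 (Nat.mul 6 c.W')

/-- the algebraic conditions -/
def FChk.ok0 (c : FChk) (M : ℤ) (I0 I1 O0 O1 : CL) : Bool :=
  and (and (and (and (degD I0) (degD I1)) (and (degD O0) (degD O1)))
    (and (shD I0 O0) (shD I1 O1)))
  (and (and (eqC88 c.cI (ends c.ad c.an c.bn I0 I1)) (eqC88 c.cO (ends c.ad c.an c.bn O0 O1)))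
    (and (and (and (decide (0 < M)) (decide (0 < c.ad)))
        (and (decide (0 ≤ Int.mul c.an c.bn)) (decide (0 < c.Bd))))
      (and (and (and (decide (0 < c.W)) (decide (0 < c.K)))
          (and (decide (0 < c.W')) (decide (0 < c.K'))))
        (and (decide ((c.BI : ℤ) ≤ 16 * c.Bn * (c.ad * M) * (c.W * c.W * c.W * (c.K * c.K))))
          (decide ((c.BO : ℤ) ≤
            16 * c.Bn * (c.ad * M) * (c.W' * c.W' * c.W' * (c.K' * c.K'))))))))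

theorem bd_of {W K Bn Bd BB : ℕ} {M ad : ℤ} {Z : ℂ} (hW : 0 < W) (hK : 0 < K) (hBd : 0 < Bd)
    (hB : (BB : ℤ) ≤ 16 * Bn * (ad * M) * (W * W * W * (K * K)))
    (h : 16 * Bd * ((W : ℝ) ^ 3 * (K : ℝ) ^ 2 * ‖Z‖) ≤ (BB : ℝ)) :
    ‖Z‖ ≤ (Bn : ℝ) / Bd * (ad * M) := by
  have hB' : (BB : ℝ) ≤ 16 * Bn * (ad * M) * (W * W * W * (K * K)) := by exact_mod_cast hB
  have hW0 : (0:ℝ) < W := by exact_mod_cast hW
  have hK0 : (0:ℝ) < K := by exact_mod_cast hK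
  have hB0 : (0:ℝ) < Bd := by exact_mod_cast hBd
  have h1 : 16 * ((W : ℝ) ^ 3 * (K : ℝ) ^ 2) * (Bd * ‖Z‖) ≤
      16 * ((W : ℝ) ^ 3 * (K : ℝ) ^ 2) * (Bn * (ad * M)) := by
    have h2 := h.trans hB'
    nlinarith
  have h3 : (Bd : ℝ) * ‖Z‖ ≤ Bn * (ad * M) := le_of_mul_le_mul_left h1 (by positivity)
  rw [div_mul_eq_mul_div, le_div_iff₀ hB0]
  linarith

/-- both ends give the bound on the segment -/
theorem seg_bound {ad an bn M : ℤ} {Bn Bd : ℕ} {L0 L1 : CL} {c : C88} {l : ℝ} {w : ℂ} {t : ℝ}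
    (hM : 0 < M) (had : 0 < ad) (hc : c = ends ad an bn L0 L1)
    (d0 : ∀ s ∈ L0, s.1 ≤ 2 ∧ s.2.1 ≤ 3) (d1 : ∀ s ∈ L1, s.1 ≤ 2 ∧ s.2.1 ≤ 3)
    (ha : (an : ℝ) ≤ ad * t) (hb : (ad : ℝ) * t ≤ bn)
    (h1 : ‖v4 c.a0 c.a1 c.a2 c.a3 l w‖ ≤ (Bn : ℝ) / Bd * (ad * M))
    (h2 : ‖v4 c.b0 c.b1 c.b2 c.b3 l w‖ ≤ (Bn : ℝ) / Bd * (ad * M)) :
    ‖MSc L0 l w / (M : ℂ) + (t : ℂ) * (MSc L1 l w / (M : ℂ))‖ ≤ (Bn : ℝ) / Bd := by
  have hM0 : (0:ℝ) < M := by exact_mod_cast hM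
  have ha0 : (0:ℝ) < ad := by exact_mod_cast had
  have hMc : (M : ℂ) ≠ 0 := by exact_mod_cast hM.ne'
  have hac : (ad : ℂ) ≠ 0 := by exact_mod_cast had.ne'
  have key : ∀ kn : ℤ, ‖(ad : ℂ) * v4 (c6 0 L0) (c6 1 L0) (c6 2 L0) (c6 3 L0) l w +
      (kn : ℂ) * v4 (c6 0 L1) (c6 1 L1) (c6 2 L1) (c6 3 L1) l w‖ ≤ (Bn : ℝ) / Bd * (ad * M) →
      ‖MSc L0 l w / (M : ℂ) + (((kn : ℝ) / ad : ℝ) : ℂ) * (MSc L1 l w / (M : ℂ))‖ ≤
        (Bn : ℝ) / Bd := by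
    intro kn hk
    rw [← MSc_c6 d0, ← MSc_c6 d1] at hk
    have e : MSc L0 l w / (M : ℂ) + (((kn : ℝ) / ad : ℝ) : ℂ) * (MSc L1 l w / (M : ℂ)) =
        ((ad : ℂ) * MSc L0 l w + (kn : ℂ) * MSc L1 l w) / ((ad * M : ℝ) : ℂ) := by
      push_cast
      field_simp
    rw [e, norm_div, Complex.norm_real, Real.norm_of_nonneg (mul_pos ha0 hM0).le,
      div_le_iff₀ (mul_pos ha0 hM0)]
    exact hk
  rw [hc] at h1 h2
  simp only [ends, v4_cmb] at h1 h2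
  refine norm_seg (a := (an : ℝ) / ad) (b := (bn : ℝ) / ad) ?_ ?_ (key an h1) (key bn h2)
  · rw [div_le_iff₀ ha0]
    linarith
  · rw [le_div_iff₀ ha0]
    linarith

/-- **the bound of `M''`** on the discs of a cell -/
theorem MqA_le {p0 p1 p2 q0 q1 q2 k k' : ℝ} (hk : 0 < k)
    (hl : ∀ w : ℂ, ‖w‖ ≤ 1 → k ≤ rF p0 p1 p2 w) (hk' : 0 < k')
    (hl' : ∀ w : ℂ, k' ≤ rF q0 q1 q2 w) {M : ℤ} {I0 I1 O0 O1 : CL} (c : FChk)
    (hr : ROk c.r c.r0 c.r1 c.r2 p0 p1 p2) (hr' : ROk c.s c.s0 c.s1 c.s2 q0 q1 q2)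
    (h0 : c.ok0 M I0 I1 O0 O1 = true) (hI : c.okI = true) (hO : c.okO = true) {t : ℝ}
    (ha : (c.an : ℝ) ≤ c.ad * t) (hb : (c.ad : ℝ) * t ≤ c.bn) {m : ℂ} (hm : ‖m + 3‖ ≤ 4) :
    ‖MqA M I0 I1 O0 O1 p0 p1 p2 q0 q1 q2 t (wu (uT t) m)‖ ≤ (c.Bn : ℝ) / c.Bd := by
  simp only [FChk.ok0, Bool.and_eq_true, decide_eq_true_eq] at h0
  obtain ⟨⟨⟨⟨dI0, dI1⟩, dO0, dO1⟩, -, -⟩, ⟨eI, eO⟩, ⟨⟨hM, had⟩, hab, hBd⟩,
    ⟨⟨hW, hK⟩, hW', hK'⟩, hBI, hBO⟩ := h0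
  have had0 : (0:ℝ) < c.ad := by exact_mod_cast had
  obtain ⟨w, hw⟩ : ∃ w : ℂ, w = wu (uT t) m := ⟨_, rfl⟩
  obtain ⟨h6, hreg⟩ := cover (a := (c.an : ℝ) / c.ad) (b := (c.bn : ℝ) / c.ad) (t := t)
    (v1 := c.v 0) (v2 := c.v 1) (v3 := c.v 2)
    (by rw [div_le_iff₀ had0]; linarith) (by rw [le_div_iff₀ had0]; linarith)
    (by
      show 0 < c.ad * c.ad
      positivity)
    (by
      show 0 < c.ad * c.ad
      positivity)
    (by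
      show 0 < 2 * (c.ad * c.ad)
      positivity)
    (by
      simp only [FChk.v, imul_cast']
      field_simp)
    (by
      simp only [FChk.v, imul_cast']
      field_simp)
    (by
      simp only [FChk.v, imul_cast']
      field_simp)
    (by
      simp only [FChk.v, imul_cast']
      field_simp)
    (by
      simp only [FChk.v, imul_cast', iadd_cast']
      push_cast
      field_simp)
    (by
      simp only [FChk.v, imul_cast']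
      push_cast
      field_simp) hm
  rw [← hw] at h6 hreg ⊢
  unfold MqA Mqc
  split_ifs with h1
  · have hr0 : (0:ℝ) < c.r := by exact_mod_cast hr.pos
    have h2 : 0 < rF p0 p1 p2 w := hk.trans_le (hl w h1)
    have hb1 : ∀ x : ℝ, |x| ≤ 1 → |(c.W : ℝ) * x - ((0 : ℤ) : ℝ)| ≤ c.W := fun x hx => by
      rw [Int.cast_zero, sub_zero, abs_mul, abs_of_nonneg (Nat.cast_nonneg c.W)]
      have := mul_le_mul_of_nonneg_left hx (Nat.cast_nonneg c.W : (0:ℝ) ≤ c.W)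
      rwa [mul_one] at this
    have key := qx_sound (X := (c.W : ℝ) * w.re) (Y := (c.W : ℝ) * w.im)
      (P := 16 * c.Bd * ((c.W : ℝ) ^ 3 * (c.K : ℝ) ^ 2 * ‖v4 c.cI.a0 c.cI.a1 c.cI.a2 c.cI.a3
          ((1 - ‖w‖ ^ 2) / rF p0 p1 p2 w) w‖) ≤ (c.BI : ℝ) ∧
        16 * c.Bd * ((c.W : ℝ) ^ 3 * (c.K : ℝ) ^ 2 * ‖v4 c.cI.b0 c.cI.b1 c.cI.b2 c.cI.b3
          ((1 - ‖w‖ ^ 2) / rF p0 p1 p2 w) w‖) ≤ (c.BI : ℝ))
      (fun cx cy h a1 a2 a3 => oI_sound a1 h1 a2 a3)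
      (fun cx cy h a1 a2 a3 => lfF_sound (ρ := c.r * rF p0 p1 p2 w) a1 (by
          rw [rF_eq]
          simp only [iadd_cast', hr.e0, hr.e1, hr.e2]
          ring) (by field_simp) a2 a3) c.n 0 0 c.W hI
      (hb1 _ ((Complex.abs_re_le_norm w).trans h1)) (hb1 _ ((Complex.abs_im_le_norm w).trans h1))
    exact seg_bound hM had (eqC88_eq eI) (degD_iff dI0) (degD_iff dI1) ha hb
      (bd_of hW hK hBd hBI key.1) (bd_of hW hK hBd hBI key.2)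
  · have hr0 : (0:ℝ) < c.s := by exact_mod_cast hr'.pos
    have h2 : 0 < rF q0 q1 q2 w := hk'.trans_le (hl' w)
    have e6 : ((Nat.mul 6 c.W' : ℕ) : ℝ) = 6 * c.W' := by
      rw [nmul_c]
      push_cast
      ring
    have hb1 : |(c.W' : ℝ) * w.re - ((Int.neg (Int.ofNat c.W') : ℤ) : ℝ)| ≤
        ((Nat.mul 6 c.W' : ℕ) : ℝ) := by
      rw [ineg_cast', zof_cast, e6]
      have a1 := Complex.abs_re_le_norm (w + 1)
      rw [add_re, one_re] at a1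
      have e : (c.W' : ℝ) * w.re - -(c.W' : ℝ) = c.W' * (w.re + 1) := by ring
      rw [e, abs_mul, abs_of_nonneg (Nat.cast_nonneg c.W')]
      have := mul_le_mul_of_nonneg_left (a1.trans h6) (Nat.cast_nonneg c.W' : (0:ℝ) ≤ c.W')
      linarith
    have hb2 : |(c.W' : ℝ) * w.im - ((0 : ℤ) : ℝ)| ≤ ((Nat.mul 6 c.W' : ℕ) : ℝ) := by
      rw [Int.cast_zero, sub_zero, e6]
      have a1 := Complex.abs_im_le_norm (w + 1)
      rw [add_im, one_im, add_zero] at a1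
      rw [abs_mul, abs_of_nonneg (Nat.cast_nonneg c.W')]
      have := mul_le_mul_of_nonneg_left (a1.trans h6) (Nat.cast_nonneg c.W' : (0:ℝ) ≤ c.W')
      linarith
    have hD : ∀ x y : ℤ, 0 ≤ x * x + y * y := fun x y =>
      add_nonneg (mul_self_nonneg x) (mul_self_nonneg y)
    have key := qx_sound (X := (c.W' : ℝ) * w.re) (Y := (c.W' : ℝ) * w.im)
      (P := 16 * c.Bd * ((c.W' : ℝ) ^ 3 * (c.K' : ℝ) ^ 2 * ‖v4 c.cO.a0 c.cO.a1 c.cO.a2 c.cO.a3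
          ((‖w‖ ^ 2 - 1) / rF q0 q1 q2 w) w‖) ≤ (c.BO : ℝ) ∧
        16 * c.Bd * ((c.W' : ℝ) ^ 3 * (c.K' : ℝ) ^ 2 * ‖v4 c.cO.b0 c.cO.b1 c.cO.b2 c.cO.b3
          ((‖w‖ ^ 2 - 1) / rF q0 q1 q2 w) w‖) ≤ (c.BO : ℝ))
      (fun cx cy h a1 a2 a3 => oO_sound a1 hW' (hD c.ad c.an) (hD c.ad c.bn) (by
        show 0 ≤ 2 * (c.ad * c.ad) + 2 * (c.an * c.bn)
        have e : Int.mul c.an c.bn = c.an * c.bn := rfl
        rw [e] at hab
        have := mul_self_nonneg c.ad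
        omega) h1 h6 hreg a2 a3)
      (fun cx cy h a1 a2 a3 => lfF_sound (ρ := c.s * rF q0 q1 q2 w) a1 (by
          rw [rF_eq]
          simp only [iadd_cast', hr'.e0, hr'.e1, hr'.e2]
          ring) (by
          simp only [ineg_cast']
          field_simp
          ring) a2 a3) c.n' _ _ _ hO hb1 hb2
    exact seg_bound hM had (eqC88_eq eO) (degD_iff dO0) (degD_iff dO1) ha hb
      (bd_of hW' hK' hBd hBO key.1) (bd_of hW' hK' hBd hBO key.2)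

/-- **`MOk` for every direction of a cell** -/
theorem mOk_F {p0 p1 p2 q0 q1 q2 k k' : ℝ} (hk : 0 < k)
    (hl : ∀ w : ℂ, ‖w‖ ≤ 1 → k ≤ rF p0 p1 p2 w) (hk' : 0 < k')
    (hl' : ∀ w : ℂ, k' ≤ rF q0 q1 q2 w) {M : ℤ} {I0 I1 O0 O1 : CL} (c : FChk)
    (hr : ROk c.r c.r0 c.r1 c.r2 p0 p1 p2) (hr' : ROk c.s c.s0 c.s1 c.s2 q0 q1 q2)
    (h0 : c.ok0 M I0 I1 O0 O1 = true) (hI : c.okI = true) (hO : c.okO = true) {t : ℝ}
    (ha : (c.an : ℝ) ≤ c.ad * t) (hb : (c.ad : ℝ) * t ≤ c.bn) {Mb : ℝ}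
    (hMb : Real.sqrt (1 + t ^ 2) / 2 * ((c.Bn : ℝ) / c.Bd) < Mb) :
    ∃ (M' : ℂ → ℂ) (L' ε : ℝ), 0 < ε ∧ MOk (fun m => conj (uT t) ^ 2 * ((1 + (t : ℂ) * I) / 2) *
      MqA M I0 I1 O0 O1 p0 p1 p2 q0 q1 q2 t (wu (uT t) m)) M' Mb L' ε := by
  have hh := h0
  simp only [FChk.ok0, Bool.and_eq_true, decide_eq_true_eq] at hh
  obtain ⟨⟨⟨⟨dI0, dI1⟩, dO0, dO1⟩, s0, s1⟩, -⟩ := hh
  have z0 := shD_eq (degD_iff dI0) (degD_iff dO0) s0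
  have z1 := shD_eq (degD_iff dI1) (degD_iff dO1) s1
  obtain ⟨L0, hL0, lip0⟩ := Mqc_lip (M := M) hk hl hk' hl' z0 (R := 10) (by norm_num)
  obtain ⟨L1, hL1, lip1⟩ := Mqc_lip (M := M) hk hl hk' hl' z1 (R := 10) (by norm_num)
  obtain ⟨z, hzz⟩ : ∃ z : ℂ, z = conj (uT t) ^ 2 * ((1 + (t : ℂ) * I) / 2) := ⟨_, rfl⟩
  have hzn : ‖z‖ = Real.sqrt (1 + t ^ 2) / 2 := by rw [hzz]; exact fac_norm t
  rw [← hzz]
  have hc : Continuous (MqA M I0 I1 O0 O1 p0 p1 p2 q0 q1 q2 t) := by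
    unfold MqA
    exact (Mqc_cont hk hl hk' hl' z0).add (continuous_const.mul (Mqc_cont hk hl hk' hl' z1))
  have hlip : ∀ w w' : ℂ, ‖w‖ ≤ 10 → ‖w'‖ ≤ 10 →
      ‖MqA M I0 I1 O0 O1 p0 p1 p2 q0 q1 q2 t w - MqA M I0 I1 O0 O1 p0 p1 p2 q0 q1 q2 t w'‖ ≤
        (L0 + |t| * L1) * ‖w - w'‖ := by
    intro w w' hw hw'
    have e : MqA M I0 I1 O0 O1 p0 p1 p2 q0 q1 q2 t w - MqA M I0 I1 O0 O1 p0 p1 p2 q0 q1 q2 t w' =
        (Mqc M I0 O0 p0 p1 p2 q0 q1 q2 w - Mqc M I0 O0 p0 p1 p2 q0 q1 q2 w') +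
        (t : ℂ) * (Mqc M I1 O1 p0 p1 p2 q0 q1 q2 w - Mqc M I1 O1 p0 p1 p2 q0 q1 q2 w') := by
      unfold MqA
      ring
    rw [e]
    refine (norm_add_le _ _).trans ?_
    rw [norm_mul, Complex.norm_real, Real.norm_eq_abs]
    have a1 := lip0 w w' hw hw'
    have a2 := mul_le_mul_of_nonneg_left (lip1 w w' hw hw') (abs_nonneg t)
    linarith
  exact mOk_dir (F := fun w => z * MqA M I0 I1 O0 O1 p0 p1 p2 q0 q1 q2 t w)
    (continuous_const.mul hc) (L := ‖z‖ * (L0 + |t| * L1)) (by positivity)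
    (fun w w' hw hw' => by
      rw [← mul_sub, norm_mul, mul_assoc]
      exact mul_le_mul_of_nonneg_left (hlip w w' hw hw') (norm_nonneg _))
    (uT_norm t) (b := Real.sqrt (1 + t ^ 2) / 2 * ((c.Bn : ℝ) / c.Bd)) (fun m hm => by
      rw [norm_mul, hzn]
      exact mul_le_mul_of_nonneg_left (MqA_le hk hl hk' hl' c hr hr' h0 hI hO ha hb hm)
        (by positivity)) hMb

/-! ### the arc -/

/-- the cells cover `[pn/pd, Tn/Td]` -/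
def covB (Tn Td : ℤ) : ℤ → ℤ → List FChk → Bool
  | pn, pd, [] => decide (Tn * pd ≤ pn * Td)
  | pn, pd, c :: cs => and (decide (c.an * pd ≤ pn * c.ad)) (covB Tn Td c.bn c.ad cs)

/-- the number of the bound: `(1 + b²) B² < 16 κ(a)²`, `κ(τ) = (kA + kB τ²)/kD` -/
def numB (kA kB kD : ℤ) (c : FChk) : Bool :=
  and (and (decide (0 ≤ c.an)) (decide (0 < c.ad)))
    (and (and (decide (0 < (c.Bd : ℤ))) (decide (0 ≤ kA * c.ad ^ 2 + kB * c.an ^ 2)))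
    (decide ((c.ad ^ 2 + c.bn ^ 2) * (c.Bn : ℤ) ^ 2 * c.ad ^ 2 * kD ^ 2 <
      16 * (c.Bd : ℤ) ^ 2 * (kA * c.ad ^ 2 + kB * c.an ^ 2) ^ 2)))

/-- all conditions on a list of cells except the boxes -/
def arcB (M : ℤ) (I0 I1 O0 O1 : CL) (r r0 r1 r2 s s0 s1 s2 kA kB kD : ℤ) : List FChk → Bool
  | [] => true
  | c :: cs => and (and (and (c.ok0 M I0 I1 O0 O1) (numB kA kB kD c))
      (and (and (and (decide (c.r = r)) (decide (c.r0 = r0)))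
          (and (decide (c.r1 = r1)) (decide (c.r2 = r2))))
        (and (and (decide (c.s = s)) (decide (c.s0 = s0)))
          (and (decide (c.s1 = s1)) (decide (c.s2 = s2))))))
      (arcB M I0 I1 O0 O1 r r0 r1 r2 s s0 s1 s2 kA kB kD cs)

/-- the corresponding cell of degree 2 (only the numbers) -/
def FChk.to2 (c : FChk) : Pool.Agent.Helper11.CKC.FChk :=
  ⟨c.W, c.K, c.n, c.W', c.K', c.n', c.Bn, c.Bd, c.r, c.r0, c.r1, c.r2, c.s, c.s0, c.s1, c.s2,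
    c.ad, c.an, c.bn, c.BI, c.BO,
    ⟨c.cI.a0, c.cI.a0, c.cI.a0, c.cI.a0, c.cI.a0, c.cI.a0⟩,
    ⟨c.cI.a0, c.cI.a0, c.cI.a0, c.cI.a0, c.cI.a0, c.cI.a0⟩⟩

theorem covB_to2 (Tn Td : ℤ) (cs : List FChk) : ∀ pn pd : ℤ, covB Tn Td pn pd cs =
    Pool.Agent.Helper11.CKC.covB Tn Td pn pd (cs.map FChk.to2) := by
  induction cs with
  | nil => intro pn pd; rfl
  | cons c cs ih =>
    intro pn pd
    rw [List.map_cons, covB, Pool.Agent.Helper11.CKC.covB, ih]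
    rfl

/-- the conditions of one cell of a list -/
theorem arcB_mem {M : ℤ} {I0 I1 O0 O1 : CL} {r r0 r1 r2 s s0 s1 s2 kA kB kD : ℤ}
    {cs : List FChk} (h : arcB M I0 I1 O0 O1 r r0 r1 r2 s s0 s1 s2 kA kB kD cs = true)
    {c : FChk} (hc : c ∈ cs) : c.ok0 M I0 I1 O0 O1 = true ∧ numB kA kB kD c = true ∧
      (c.r = r ∧ c.r0 = r0 ∧ c.r1 = r1 ∧ c.r2 = r2) ∧
      (c.s = s ∧ c.s0 = s0 ∧ c.s1 = s1 ∧ c.s2 = s2) := by
  induction cs with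
  | nil => simp at hc
  | cons d cs ih =>
    simp only [arcB, Bool.and_eq_true, decide_eq_true_eq] at h
    obtain ⟨⟨⟨h1, h2⟩, ⟨⟨a1, a2⟩, a3, a4⟩, ⟨b1, b2⟩, b3, b4⟩, h4⟩ := h
    rcases List.mem_cons.1 hc with rfl | hc
    · exact ⟨h1, h2, ⟨a1, a2, a3, a4⟩, b1, b2, b3, b4⟩
    · exact ih h4 hc

/-- **the multiplier of every direction of the arc `0 ≤ τ ≤ Tn/Td`** -/
theorem mOk_arc {p0 p1 p2 q0 q1 q2 : ℝ} (hp : InL p0 p1 p2) (hq : OutD q0 q1 q2)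
    {M : ℤ} {I0 I1 O0 O1 : CL} {r r0 r1 r2 s s0 s1 s2 kA kB kD Tn Td : ℤ}
    (hr : ROk r r0 r1 r2 p0 p1 p2) (hr' : ROk s s0 s1 s2 q0 q1 q2) {cs : List FChk}
    (hne : cs ≠ []) (hTd : 0 < Td) (hkB : 0 ≤ kB) (hkD : 0 < kD)
    (hcov : covB Tn Td 0 1 cs = true)
    (harc : arcB M I0 I1 O0 O1 r r0 r1 r2 s s0 s1 s2 kA kB kD cs = true)
    (hbox : ∀ c ∈ cs, c.okI = true ∧ c.okO = true) {τ : ℝ} (h0 : 0 ≤ τ) (hτ : τ * Td ≤ Tn) :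
    ∃ (Mb : ℝ) (M' : ℂ → ℂ) (Lm ε₀ : ℝ), Mb < 2 * ((kA : ℝ) / kD + kB / kD * τ ^ 2) ∧
      0 < ε₀ ∧ MOk (fun m => conj (ud τ) ^ 2 * ((1 + (τ : ℂ) * I) / 2) *
        MqA M I0 I1 O0 O1 p0 p1 p2 q0 q1 q2 τ (wu (ud τ) m)) M' Mb Lm ε₀ := by
  obtain ⟨c', hc', ha', hb'⟩ := covB_sound0 hTd h0 hτ (cs := cs.map FChk.to2)
    (by rw [← covB_to2]; exact hcov) (by simpa using hne) (fun c hc => by
      obtain ⟨d, hd, rfl⟩ := List.mem_map.1 hc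
      have h1 := (arcB_mem harc hd).2.1
      simp only [numB, Bool.and_eq_true, decide_eq_true_eq] at h1
      exact h1.1.2)
  obtain ⟨c, hc, rfl⟩ := List.mem_map.1 hc'
  have ha : (c.an : ℝ) ≤ c.ad * τ := ha'
  have hb : (c.ad : ℝ) * τ ≤ c.bn := hb'
  obtain ⟨h1, h2, ⟨a1, a2, a3, a4⟩, b1, b2, b3, b4⟩ := arcB_mem harc hc
  have h2' : Pool.Agent.Helper11.CKC.numB kA kB kD c.to2 = true := h2
  have hlt : Real.sqrt (1 + τ ^ 2) / 2 * ((c.Bn : ℝ) / c.Bd) <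
      2 * ((kA : ℝ) / kD + kB / kD * τ ^ 2) := numB_lt h2' hkB hkD ha' hb'
  obtain ⟨Mb, hM1, hM2⟩ := exists_between hlt
  obtain ⟨k, hk, hl⟩ := hp.low
  have h3 : OutL (q1 + q2) q0 q1 q2 := ⟨rfl, hq.pos, hq.pos'⟩
  obtain ⟨k', hk', hl'⟩ := h3.low
  obtain ⟨M', L', ε, hε, hMO⟩ := mOk_F (I0 := I0) (I1 := I1) (O0 := O0) (O1 := O1) (M := M)
    hk (fun w hw => le_trans (by nlinarith [sq_nonneg ‖w‖]) (hl w hw)) hk'
    (fun w => le_trans (by nlinarith [sq_nonneg ‖w‖]) (hl' w)) c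
    (by rw [a1, a2, a3, a4]; exact hr) (by rw [b1, b2, b3, b4]; exact hr') h1 (hbox c hc).1
    (hbox c hc).2 ha hb hM1
  refine ⟨Mb, M', L', ε, hM2, hε, ?_⟩
  have e : uT τ = ud τ := by
    unfold uT ud
    rw [mul_comm (τ : ℂ) I]
  rw [e] at hMO
  exact hMO

end Pool.Agent.Helper11.CKC.D3
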