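import Pool.Agent.Helper11.CKC.FastU

/-!
# Project CKC: the multiplier on a ray of directions `T ≤ τ`

Cells are given by homogeneous vectors `(ya, xa)`, `(yb, xb)`, `τ = x/y`, `yb = 0` allowed.
-/

set_option autoImplicit false

open Complex Metric Set
open scoped ComplexConjugate

namespace Pool.Agent.Helper11.CKC

open Pool.Agent.Helper20.CK (hf hf_le split_box zof_cast ROk)
open Pool.Agent.Helper69.EK3 (rF rF_eq imul_cast' iadd_cast')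
open Pool.Agent.Helper82.CKC (wu mOk_dir)
open Pool.Agent.Helper69.CK (MOk)
open Pool.Agent.Helper99.CKC (ud)
open Pool.Agent.Helper20.EK7 (InL OutL OutD)

/-- a positive combination of three negative numbers is negative -/
theorem quad_neg {P Q R al be : ℝ} (ha : 0 ≤ al) (hb : 0 ≤ be) (hab : 0 < al + be) (hP : P < 0)
    (hQ : Q < 0) (hR : R < 0) : al ^ 2 * P + be ^ 2 * Q + al * be * R < 0 := by
  have h1 := mul_nonneg (sq_nonneg al) (neg_nonneg.2 hP.le)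
  have h2 := mul_nonneg (sq_nonneg be) (neg_nonneg.2 hQ.le)
  have h3 := mul_nonneg (mul_nonneg ha hb) (neg_nonneg.2 hR.le)
  rcases eq_or_lt_of_le ha with h | h
  · have hb' : 0 < be := by linarith
    have := mul_pos (pow_pos hb' 2) (neg_pos.2 hQ)
    linarith
  · have := mul_pos (pow_pos h 2) (neg_pos.2 hP)
    linarith

/-- **the cover**, homogeneous form: `v i = (tn, sn, td)` -/
theorem coverH {ya xa yb xb : ℤ} {t al be : ℝ} (hal : 0 ≤ al) (hbe : 0 ≤ be)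
    (h1 : al * ya + be * yb = 1) (ht : al * xa + be * xb = t) {v1 v2 v3 : ℤ × ℤ × ℤ}
    (e1 : v1 = (ya * xa, xa * xa, ya * ya)) (e2 : v2 = (yb * xb, xb * xb, yb * yb))
    (e3 : v3 = (xa * yb + ya * xb, 2 * (xa * xb), 2 * (ya * yb)))
    {m : ℂ} (hm : ‖m + 3‖ ≤ 4) :
    ‖wu (uT t) m + 1‖ ≤ 6 ∧ (Reg v1 (wu (uT t) m) ∨ Reg v2 (wu (uT t) m) ∨
      Reg v3 (wu (uT t) m)) := by
  obtain ⟨u, hu⟩ : ∃ u : ℂ, u = uT t := ⟨_, rfl⟩
  obtain ⟨ω, hω⟩ : ∃ ω : ℂ, ω = conj u * (m + 1) := ⟨_, rfl⟩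
  have hun : ‖u‖ = 1 := by rw [hu]; exact uT_norm t
  have ew : wu (uT t) m + 1 = ω := by
    unfold wu
    rw [← hu, hω]
    ring
  have huc : u * conj u = 1 := by
    rw [mul_conj', hun]
    norm_num
  have e4 : m + 1 = u * ω := by
    rw [hω, ← mul_assoc, huc, one_mul]
  have hn : ‖ω‖ = ‖m + 1‖ := by
    rw [hω, norm_mul, norm_conj, hun, one_mul]
  have h6 : ‖ω‖ ≤ 6 := by
    rw [hn]
    have h1 := norm_sub_le (m + 3) 2
    have e : m + 3 - 2 = m + 1 := by ring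
    rw [e, Complex.norm_ofNat] at h1
    linarith
  have hP : 0 ≤ 12 - ‖ω‖ ^ 2 - 4 * (u * ω).re := by
    have h1 : ‖m + 3‖ ^ 2 ≤ 16 := by nlinarith [norm_nonneg (m + 3)]
    have e : m + 3 = u * ω + 2 := by rw [← e4]; ring
    rw [e, nsq] at h1
    have e5 : ‖ω‖ ^ 2 = (u * ω).re ^ 2 + (u * ω).im ^ 2 := by
      rw [← nsq, norm_mul, hun, one_mul]
    rw [e5]
    simp only [add_re, re_ofNat, add_im, im_ofNat, add_zero] at h1
    linarith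
  have hQ : 0 ≤ (12 - ‖ω‖ ^ 2 - 4 * ω.re) + 8 * ω.im * t + (12 - ‖ω‖ ^ 2 + 4 * ω.re) * t ^ 2 := by
    have h1 : 0 ≤ (1 + t ^ 2) * (12 - ‖ω‖ ^ 2 - 4 * (u * ω).re) :=
      mul_nonneg (by positivity) hP
    have e : (1 + t ^ 2) * (u * ω).re = ((1 + (t : ℂ) * I) ^ 2 * ω).re := by
      rw [← uT_mul, ← hu, mul_assoc, re_ofReal_mul]
    have e' : ((1 + (t : ℂ) * I) ^ 2 * ω).re = (1 - t ^ 2) * ω.re - 2 * t * ω.im := by
      simp only [pow_two, mul_re, add_re, one_re, ofReal_re, I_re, ofReal_im, I_im, add_im,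
        one_im, mul_im]
      ring
    rw [e'] at e
    nlinarith [e]
  rw [ew]
  refine ⟨h6, ?_⟩
  by_contra hno
  simp only [not_or, Reg, not_le, ew] at hno
  obtain ⟨n1, n2, n3⟩ := hno
  subst e1 e2 e3
  simp only at n1 n2 n3
  push_cast at n1 n2 n3
  have hab : 0 < al + be := by
    by_contra h
    have ha0 : al = 0 := by linarith
    have hb0 : be = 0 := by linarith
    rw [ha0, hb0] at h1
    simp at h1
  have key := quad_neg hal hbe hab n1 n2 n3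
  obtain ⟨P, hPP⟩ : ∃ P : ℝ, P = 12 - ‖ω‖ ^ 2 - 4 * ω.re := ⟨_, rfl⟩
  obtain ⟨Q, hQQ⟩ : ∃ Q : ℝ, Q = 12 - ‖ω‖ ^ 2 + 4 * ω.re := ⟨_, rfl⟩
  rw [← hPP, ← hQQ] at hQ key
  have e : P + 8 * ω.im * t + Q * t ^ 2 =
      P * (al * ya + be * yb) ^ 2 + 8 * ω.im * ((al * ya + be * yb) * (al * xa + be * xb)) +
      Q * (al * xa + be * xb) ^ 2 := by
    rw [h1, ht]
    ring
  rw [e] at hQ
  nlinarith [hQ, key]

/-- the data of the check on a homogeneous cell -/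
structure HChk where
  (W K n W' K' n' Bn Bd : ℕ)
  (r r0 r1 r2 s s0 s1 s2 ya xa yb xb : ℤ)
  (BI BO : ℕ)
  (cI cO : C66)

/-- the three vertices of a cell -/
def HChk.v (c : HChk) : ℕ → ℤ × ℤ × ℤ
  | 0 => (c.ya * c.xa, c.xa * c.xa, c.ya * c.ya)
  | 1 => (c.yb * c.xb, c.xb * c.xb, c.yb * c.yb)
  | _ => (c.xa * c.yb + c.ya * c.xb, 2 * (c.xa * c.xb), 2 * (c.ya * c.yb))

/-- the boxes inside -/
def HChk.okI (c : HChk) : Bool :=
  qx (oI c.W) (lfF ⟨c.W, c.K, c.r, Int.add c.r0 c.r1, c.r1, Int.add c.r1 c.r2⟩ c.Bd c.BI c.cI)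
    c.n 0 0 c.W

/-- the boxes outside -/
def HChk.okO (c : HChk) : Bool :=
  qx (oO c.W' (c.v 0) (c.v 1) (c.v 2))
    (lfF ⟨c.W', c.K', Int.neg c.s, Int.add c.s0 c.s1, c.s1, Int.add c.s1 c.s2⟩ c.Bd c.BO c.cO)
    c.n' (Int.neg (Int.ofNat c.W')) 0 (Nat.mul 6 c.W')

/-- the coefficients at the ends of the cell -/
def endsH (ya xa yb xb : ℤ) (L0 L1 : CL) : C66 :=
  ⟨cmb ya xa (c6 0 L0) (c6 0 L1), cmb ya xa (c6 1 L0) (c6 1 L1), cmb ya xa (c6 2 L0) (c6 2 L1),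
    cmb yb xb (c6 0 L0) (c6 0 L1), cmb yb xb (c6 1 L0) (c6 1 L1), cmb yb xb (c6 2 L0) (c6 2 L1)⟩

/-- the algebraic conditions -/
def HChk.ok0 (c : HChk) (M : ℤ) (I0 I1 O0 O1 : CL) : Bool :=
  and (and (and (and (degC 2 I0) (degC 2 I1)) (and (degC 2 O0) (degC 2 O1)))
    (and (shC I0 O0) (shC I1 O1)))
  (and (and (eqC66 c.cI (endsH c.ya c.xa c.yb c.xb I0 I1))
      (eqC66 c.cO (endsH c.ya c.xa c.yb c.xb O0 O1)))
    (and (and (and (decide (0 < M)) (decide (0 ≤ c.ya)))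
        (and (and (decide (0 ≤ c.xa)) (decide (0 ≤ c.yb)))
          (and (decide (0 ≤ c.xb)) (decide (0 < c.Bd)))))
      (and (and (and (decide (0 < c.W)) (decide (0 < c.K)))
          (and (decide (0 < c.W')) (decide (0 < c.K'))))
        (and (decide ((c.BI : ℤ) ≤ 8 * c.Bn * M * (c.W * c.W * (c.K * c.K))))
          (decide ((c.BO : ℤ) ≤ 8 * c.Bn * M * (c.W' * c.W' * (c.K' * c.K'))))))))

theorem bd_ofH {W K Bn Bd BB : ℕ} {M : ℤ} {Z : ℂ} (hW : 0 < W) (hK : 0 < K) (hBd : 0 < Bd)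
    (hB : (BB : ℤ) ≤ 8 * Bn * M * (W * W * (K * K)))
    (h : 8 * Bd * ((W : ℝ) ^ 2 * (K : ℝ) ^ 2 * ‖Z‖) ≤ (BB : ℝ)) :
    ‖Z‖ ≤ (Bn : ℝ) / Bd * M := by
  have h1 := bd_of (M := M) (ad := 1) hW hK hBd (by rw [one_mul]; exact hB) h
  push_cast at h1
  rwa [one_mul] at h1

/-- both ends give the bound on the cell -/
theorem seg_boundH {ya xa yb xb M : ℤ} {Bn Bd : ℕ} {L0 L1 : CL} {c : C66} {l : ℝ} {w : ℂ}
    {t al be : ℝ} (hM : 0 < M) (hc : c = endsH ya xa yb xb L0 L1)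
    (d0 : ∀ s ∈ L0, s.1 ≤ 2 ∧ s.2.1 ≤ 2) (d1 : ∀ s ∈ L1, s.1 ≤ 2 ∧ s.2.1 ≤ 2)
    (hal : 0 ≤ al) (hbe : 0 ≤ be) (e1 : al * ya + be * yb = 1) (ht : al * xa + be * xb = t)
    (h1 : ‖v3 c.a0 c.a1 c.a2 l w‖ ≤ (Bn : ℝ) / Bd * M)
    (h2 : ‖v3 c.b0 c.b1 c.b2 l w‖ ≤ (Bn : ℝ) / Bd * M) :
    ‖MSc L0 l w / (M : ℂ) + (t : ℂ) * (MSc L1 l w / (M : ℂ))‖ ≤
      (al + be) * ((Bn : ℝ) / Bd) := by
  have hM0 : (0:ℝ) < M := by exact_mod_cast hM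
  have hMc : (M : ℂ) ≠ 0 := by exact_mod_cast hM.ne'
  rw [hc] at h1 h2
  simp only [endsH, v3_cmb] at h1 h2
  rw [← MSc_c6 d0, ← MSc_c6 d1] at h1 h2
  have e : MSc L0 l w / (M : ℂ) + (t : ℂ) * (MSc L1 l w / (M : ℂ)) =
      ((al : ℂ) * ((ya : ℂ) * MSc L0 l w + (xa : ℂ) * MSc L1 l w) +
        (be : ℂ) * ((yb : ℂ) * MSc L0 l w + (xb : ℂ) * MSc L1 l w)) / ((M : ℝ) : ℂ) := by
    have k1 : (al : ℂ) * (ya : ℂ) + (be : ℂ) * (yb : ℂ) = 1 := by exact_mod_cast e1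
    have k2 : (al : ℂ) * (xa : ℂ) + (be : ℂ) * (xb : ℂ) = (t : ℂ) := by exact_mod_cast ht
    push_cast
    field_simp
    linear_combination (-MSc L0 l w) * k1 - (MSc L1 l w) * k2
  rw [e, norm_div, Complex.norm_real, Real.norm_of_nonneg hM0.le, div_le_iff₀ hM0]
  refine (norm_add_le _ _).trans ?_
  rw [norm_mul, norm_mul, Complex.norm_real, Complex.norm_real, Real.norm_of_nonneg hal,
    Real.norm_of_nonneg hbe]
  have k1 := mul_le_mul_of_nonneg_left h1 hal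
  have k2 := mul_le_mul_of_nonneg_left h2 hbe
  linarith

/-- **the bound of `M''`** on the discs of a homogeneous cell -/
theorem MqA_leH {p0 p1 p2 q0 q1 q2 k k' : ℝ} (hk : 0 < k)
    (hl : ∀ w : ℂ, ‖w‖ ≤ 1 → k ≤ rF p0 p1 p2 w) (hk' : 0 < k')
    (hl' : ∀ w : ℂ, k' ≤ rF q0 q1 q2 w) {M : ℤ} {I0 I1 O0 O1 : CL} (c : HChk)
    (hr : ROk c.r c.r0 c.r1 c.r2 p0 p1 p2) (hr' : ROk c.s c.s0 c.s1 c.s2 q0 q1 q2)
    (h0 : c.ok0 M I0 I1 O0 O1 = true) (hI : c.okI = true) (hO : c.okO = true) {t al be : ℝ}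
    (hal : 0 ≤ al) (hbe : 0 ≤ be) (e1 : al * c.ya + be * c.yb = 1)
    (ht : al * c.xa + be * c.xb = t) {m : ℂ} (hm : ‖m + 3‖ ≤ 4) :
    ‖MqA M I0 I1 O0 O1 p0 p1 p2 q0 q1 q2 t (wu (uT t) m)‖ ≤
      (al + be) * ((c.Bn : ℝ) / c.Bd) := by
  simp only [HChk.ok0, Bool.and_eq_true, decide_eq_true_eq] at h0
  obtain ⟨⟨⟨⟨dI0, dI1⟩, dO0, dO1⟩, -, -⟩, ⟨eI, eO⟩, ⟨⟨hM, hya⟩, ⟨hxa, hyb⟩, hxb, hBd⟩,
    ⟨⟨hW, hK⟩, hW', hK'⟩, hBI, hBO⟩ := h0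
  obtain ⟨w, hw⟩ : ∃ w : ℂ, w = wu (uT t) m := ⟨_, rfl⟩
  obtain ⟨h6, hreg⟩ := coverH (v1 := c.v 0) (v2 := c.v 1) (v3 := c.v 2) hal hbe e1 ht rfl rfl rfl
    hm
  rw [← hw] at h6 hreg ⊢
  unfold MqA Mqc
  split_ifs with h1
  · have hr0 : (0:ℝ) < c.r := by exact_mod_cast hr.pos
    have h2 : 0 < rF p0 p1 p2 w := hk.trans_le (hl w h1)
    have hb1 : ∀ x : ℝ, |x| ≤ 1 → |(c.W : ℝ) * x - ((0 : ℤ) : ℝ)| ≤ c.W := fun x hx => by
      rw [Int.cast_zero, sub_zero, abs_mul, abs_of_nonneg (Nat.cast_nonneg c.W)]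
      have := mul_le_mul_of_nonneg_left hx (Nat.cast_nonneg c.W : (0:ℝ) ≤ c.W)
      rwa [mul_one] at this
    have key := qx_sound (X := (c.W : ℝ) * w.re) (Y := (c.W : ℝ) * w.im)
      (P := 8 * c.Bd * ((c.W : ℝ) ^ 2 * (c.K : ℝ) ^ 2 * ‖v3 c.cI.a0 c.cI.a1 c.cI.a2
          ((1 - ‖w‖ ^ 2) / rF p0 p1 p2 w) w‖) ≤ (c.BI : ℝ) ∧
        8 * c.Bd * ((c.W : ℝ) ^ 2 * (c.K : ℝ) ^ 2 * ‖v3 c.cI.b0 c.cI.b1 c.cI.b2
          ((1 - ‖w‖ ^ 2) / rF p0 p1 p2 w) w‖) ≤ (c.BI : ℝ))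
      (fun cx cy h a1 a2 a3 => oI_sound a1 h1 a2 a3)
      (fun cx cy h a1 a2 a3 => lfF_sound (ρ := c.r * rF p0 p1 p2 w) a1 (by
          rw [rF_eq]
          simp only [iadd_cast', hr.e0, hr.e1, hr.e2]
          ring) (by field_simp) a2 a3) c.n 0 0 c.W hI
      (hb1 _ ((Complex.abs_re_le_norm w).trans h1)) (hb1 _ ((Complex.abs_im_le_norm w).trans h1))
    exact seg_boundH hM (eqC66_eq eI) (degC_iff dI0) (degC_iff dI1) hal hbe e1 ht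
      (bd_ofH hW hK hBd hBI key.1) (bd_ofH hW hK hBd hBI key.2)
  · have hr0 : (0:ℝ) < c.s := by exact_mod_cast hr'.pos
    have h2 : 0 < rF q0 q1 q2 w := hk'.trans_le (hl' w)
    have e6 : ((Nat.mul 6 c.W' : ℕ) : ℝ) = 6 * c.W' := by
      rw [nmul_c]
      push_cast
      ring
    have hb1 : |(c.W' : ℝ) * w.re - ((Int.neg (Int.ofNat c.W') : ℤ) : ℝ)| ≤
        ((Nat.mul 6 c.W' : ℕ) : ℝ) := by
      rw [ineg_cast', zof_cast, e6]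
      have a1 := Complex.abs_re_le_norm (w + 1)
      rw [add_re, one_re] at a1
      have e : (c.W' : ℝ) * w.re - -(c.W' : ℝ) = c.W' * (w.re + 1) := by ring
      rw [e, abs_mul, abs_of_nonneg (Nat.cast_nonneg c.W')]
      have := mul_le_mul_of_nonneg_left (a1.trans h6) (Nat.cast_nonneg c.W' : (0:ℝ) ≤ c.W')
      linarith
    have hb2 : |(c.W' : ℝ) * w.im - ((0 : ℤ) : ℝ)| ≤ ((Nat.mul 6 c.W' : ℕ) : ℝ) := by
      rw [Int.cast_zero, sub_zero, e6]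
      have a1 := Complex.abs_im_le_norm (w + 1)
      rw [add_im, one_im, add_zero] at a1
      rw [abs_mul, abs_of_nonneg (Nat.cast_nonneg c.W')]
      have := mul_le_mul_of_nonneg_left (a1.trans h6) (Nat.cast_nonneg c.W' : (0:ℝ) ≤ c.W')
      linarith
    have hD : ∀ x y : ℤ, 0 ≤ x * x + y * y := fun x y =>
      add_nonneg (mul_self_nonneg x) (mul_self_nonneg y)
    have key := qx_sound (X := (c.W' : ℝ) * w.re) (Y := (c.W' : ℝ) * w.im)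
      (P := 8 * c.Bd * ((c.W' : ℝ) ^ 2 * (c.K' : ℝ) ^ 2 * ‖v3 c.cO.a0 c.cO.a1 c.cO.a2
          ((‖w‖ ^ 2 - 1) / rF q0 q1 q2 w) w‖) ≤ (c.BO : ℝ) ∧
        8 * c.Bd * ((c.W' : ℝ) ^ 2 * (c.K' : ℝ) ^ 2 * ‖v3 c.cO.b0 c.cO.b1 c.cO.b2
          ((‖w‖ ^ 2 - 1) / rF q0 q1 q2 w) w‖) ≤ (c.BO : ℝ))
      (fun cx cy h a1 a2 a3 => oO_sound a1 hW' (hD c.ya c.xa) (hD c.yb c.xb) (by
        show 0 ≤ 2 * (c.ya * c.yb) + 2 * (c.xa * c.xb)
        have := mul_nonneg hya hyb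
        have := mul_nonneg hxa hxb
        linarith) h1 h6 hreg a2 a3)
      (fun cx cy h a1 a2 a3 => lfF_sound (ρ := c.s * rF q0 q1 q2 w) a1 (by
          rw [rF_eq]
          simp only [iadd_cast', hr'.e0, hr'.e1, hr'.e2]
          ring) (by
          simp only [ineg_cast']
          field_simp
          ring) a2 a3) c.n' _ _ _ hO hb1 hb2
    exact seg_boundH hM (eqC66_eq eO) (degC_iff dO0) (degC_iff dO1) hal hbe e1 ht
      (bd_ofH hW' hK' hBd hBO key.1) (bd_ofH hW' hK' hBd hBO key.2)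

/-- **`MOk` for every direction of a homogeneous cell** -/
theorem mOk_H {p0 p1 p2 q0 q1 q2 k k' : ℝ} (hk : 0 < k)
    (hl : ∀ w : ℂ, ‖w‖ ≤ 1 → k ≤ rF p0 p1 p2 w) (hk' : 0 < k')
    (hl' : ∀ w : ℂ, k' ≤ rF q0 q1 q2 w) {M : ℤ} {I0 I1 O0 O1 : CL} (c : HChk)
    (hr : ROk c.r c.r0 c.r1 c.r2 p0 p1 p2) (hr' : ROk c.s c.s0 c.s1 c.s2 q0 q1 q2)
    (h0 : c.ok0 M I0 I1 O0 O1 = true) (hI : c.okI = true) (hO : c.okO = true) {t al be : ℝ}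
    (hal : 0 ≤ al) (hbe : 0 ≤ be) (e1 : al * c.ya + be * c.yb = 1)
    (ht : al * c.xa + be * c.xb = t) {Mb : ℝ}
    (hMb : Real.sqrt (1 + t ^ 2) / 2 * ((al + be) * ((c.Bn : ℝ) / c.Bd)) < Mb) :
    ∃ (M' : ℂ → ℂ) (L' ε : ℝ), 0 < ε ∧ MOk (fun m => conj (uT t) ^ 2 * ((1 + (t : ℂ) * I) / 2) *
      MqA M I0 I1 O0 O1 p0 p1 p2 q0 q1 q2 t (wu (uT t) m)) M' Mb L' ε := by
  have hh := h0
  simp only [HChk.ok0, Bool.and_eq_true, decide_eq_true_eq] at hh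
  obtain ⟨⟨⟨⟨dI0, dI1⟩, dO0, dO1⟩, s0, s1⟩, -⟩ := hh
  have z0 := shC_eq (degC_iff dI0) (degC_iff dO0) s0
  have z1 := shC_eq (degC_iff dI1) (degC_iff dO1) s1
  obtain ⟨L0, hL0, lip0⟩ := Mqc_lip (M := M) hk hl hk' hl' z0 (R := 10) (by norm_num)
  obtain ⟨L1, hL1, lip1⟩ := Mqc_lip (M := M) hk hl hk' hl' z1 (R := 10) (by norm_num)
  obtain ⟨z, hzz⟩ : ∃ z : ℂ, z = conj (uT t) ^ 2 * ((1 + (t : ℂ) * I) / 2) := ⟨_, rfl⟩
  have hzn : ‖z‖ = Real.sqrt (1 + t ^ 2) / 2 := by rw [hzz]; exact fac_norm t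
  rw [← hzz]
  have hc : Continuous (MqA M I0 I1 O0 O1 p0 p1 p2 q0 q1 q2 t) := by
    unfold MqA
    exact (Mqc_cont hk hl hk' hl' z0).add (continuous_const.mul (Mqc_cont hk hl hk' hl' z1))
  have hlip : ∀ w w' : ℂ, ‖w‖ ≤ 10 → ‖w'‖ ≤ 10 →
      ‖MqA M I0 I1 O0 O1 p0 p1 p2 q0 q1 q2 t w - MqA M I0 I1 O0 O1 p0 p1 p2 q0 q1 q2 t w'‖ ≤
        (L0 + |t| * L1) * ‖w - w'‖ := by
    intro w w' hw hw'
    have e : MqA M I0 I1 O0 O1 p0 p1 p2 q0 q1 q2 t w - MqA M I0 I1 O0 O1 p0 p1 p2 q0 q1 q2 t w' =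
        (Mqc M I0 O0 p0 p1 p2 q0 q1 q2 w - Mqc M I0 O0 p0 p1 p2 q0 q1 q2 w') +
        (t : ℂ) * (Mqc M I1 O1 p0 p1 p2 q0 q1 q2 w - Mqc M I1 O1 p0 p1 p2 q0 q1 q2 w') := by
      unfold MqA
      ring
    rw [e]
    refine (norm_add_le _ _).trans ?_
    rw [norm_mul, Complex.norm_real, Real.norm_eq_abs]
    have a1 := lip0 w w' hw hw'
    have a2 := mul_le_mul_of_nonneg_left (lip1 w w' hw hw') (abs_nonneg t)
    linarith
  exact mOk_dir (F := fun w => z * MqA M I0 I1 O0 O1 p0 p1 p2 q0 q1 q2 t w)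
    (continuous_const.mul hc) (L := ‖z‖ * (L0 + |t| * L1)) (by positivity)
    (fun w w' hw hw' => by
      rw [← mul_sub, norm_mul, mul_assoc]
      exact mul_le_mul_of_nonneg_left (hlip w w' hw hw') (norm_nonneg _))
    (uT_norm t) (b := Real.sqrt (1 + t ^ 2) / 2 * ((al + be) * ((c.Bn : ℝ) / c.Bd))) (fun m hm => by
      rw [norm_mul, hzn]
      exact mul_le_mul_of_nonneg_left (MqA_leH hk hl hk' hl' c hr hr' h0 hI hO hal hbe e1 ht hm)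
        (by positivity)) hMb

/-! ### numbers -/

/-- the five coefficients of `16 Bd² (kA y² + kB x²)² - Bn² kD² (y² + x²) (α + β)²` -/
def num5 (A B : ℤ) (q0 q1 q2 n0 n1 n2 : ℤ) : Bool :=
  and (and (decide (B * n0 < A * (q0 * q0))) (decide (B * (2 * n0 + n1) < A * (2 * (q0 * q1)))))
    (and (decide (B * (n0 + 2 * n1 + n2) < A * (q1 * q1 + 2 * (q0 * q2))))
      (and (decide (B * (n1 + 2 * n2) < A * (2 * (q1 * q2)))) (decide (B * n2 < A * (q2 * q2)))))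

def numH (kA kB kD : ℤ) (c : HChk) : Bool :=
  and (decide (0 < c.ya * c.xb - c.xa * c.yb))
    (num5 (16 * ((c.Bd : ℤ) * c.Bd)) ((c.Bn : ℤ) * c.Bn * (kD * kD))
      (kA * (c.ya * c.ya) + kB * (c.xa * c.xa)) (2 * (kA * (c.ya * c.yb) + kB * (c.xa * c.xb)))
      (kA * (c.yb * c.yb) + kB * (c.xb * c.xb)) (c.ya * c.ya + c.xa * c.xa)
      (2 * (c.ya * c.yb + c.xa * c.xb)) (c.yb * c.yb + c.xb * c.xb))

theorem num5_pos {A B q0 q1 q2 n0 n1 n2 : ℤ} (h : num5 A B q0 q1 q2 n0 n1 n2 = true)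
    {al be : ℝ} (ha : 0 ≤ al) (hb : 0 ≤ be) (hab : 0 < al + be) :
    (B : ℝ) * ((n0 * al ^ 2 + n1 * (al * be) + n2 * be ^ 2) * (al + be) ^ 2) <
      A * (q0 * al ^ 2 + q1 * (al * be) + q2 * be ^ 2) ^ 2 := by
  simp only [num5, Bool.and_eq_true, decide_eq_true_eq] at h
  obtain ⟨⟨h0, h1⟩, h2, h3, h4⟩ := h
  have h0' : (B : ℝ) * n0 < A * (q0 * q0) := by exact_mod_cast h0
  have h1' : (B : ℝ) * (2 * n0 + n1) < A * (2 * (q0 * q1)) := by exact_mod_cast h1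
  have h2' : (B : ℝ) * (n0 + 2 * n1 + n2) < A * (q1 * q1 + 2 * (q0 * q2)) := by exact_mod_cast h2
  have h3' : (B : ℝ) * (n1 + 2 * n2) < A * (2 * (q1 * q2)) := by exact_mod_cast h3
  have h4' : (B : ℝ) * n2 < A * (q2 * q2) := by exact_mod_cast h4
  have k0 := mul_nonneg (pow_nonneg ha 4) (sub_pos.2 h0').le
  have k1 := mul_nonneg (mul_nonneg (pow_nonneg ha 3) hb) (sub_pos.2 h1').le
  have k2 := mul_nonneg (mul_nonneg (pow_nonneg ha 2) (pow_nonneg hb 2)) (sub_pos.2 h2').le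
  have k3 := mul_nonneg (mul_nonneg ha (pow_nonneg hb 3)) (sub_pos.2 h3').le
  have k4 := mul_nonneg (pow_nonneg hb 4) (sub_pos.2 h4').le
  have e : A * (q0 * al ^ 2 + q1 * (al * be) + q2 * be ^ 2) ^ 2 -
      (B : ℝ) * ((n0 * al ^ 2 + n1 * (al * be) + n2 * be ^ 2) * (al + be) ^ 2) =
      al ^ 4 * ((A : ℝ) * (q0 * q0) - B * n0) +
      al ^ 3 * be * ((A : ℝ) * (2 * (q0 * q1)) - B * (2 * n0 + n1)) +
      al ^ 2 * be ^ 2 * ((A : ℝ) * (q1 * q1 + 2 * (q0 * q2)) - B * (n0 + 2 * n1 + n2)) +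
      al * be ^ 3 * ((A : ℝ) * (2 * (q1 * q2)) - B * (n1 + 2 * n2)) +
      be ^ 4 * ((A : ℝ) * (q2 * q2) - B * n2) := by ring
  rcases eq_or_lt_of_le ha with h | h
  · have hb' : 0 < be := by linarith
    have := mul_pos (pow_pos hb' 4) (sub_pos.2 h4')
    linarith
  · have := mul_pos (pow_pos h 4) (sub_pos.2 h0')
    linarith

theorem numH_lt {kA kB kD : ℤ} {c : HChk} (h : numH kA kB kD c = true) (hkA : 0 ≤ kA)
    (hkB : 0 ≤ kB) (hkD : 0 < kD) (hBd : 0 < c.Bd) {τ al be : ℝ} (hal : 0 ≤ al) (hbe : 0 ≤ be)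
    (e1 : al * c.ya + be * c.yb = 1) (ht : al * c.xa + be * c.xb = τ) :
    Real.sqrt (1 + τ ^ 2) / 2 * ((al + be) * ((c.Bn : ℝ) / c.Bd)) <
      2 * ((kA : ℝ) / kD + kB / kD * τ ^ 2) := by
  simp only [numH, Bool.and_eq_true, decide_eq_true_eq] at h
  obtain ⟨-, h5⟩ := h
  have hab : 0 < al + be := by
    by_contra h
    have ha0 : al = 0 := by linarith
    have hb0 : be = 0 := by linarith
    rw [ha0, hb0] at e1
    simp at e1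
  have key := num5_pos h5 hal hbe hab
  push_cast at key
  have bd0 : (0:ℝ) < c.Bd := by exact_mod_cast hBd
  have kA0 : (0:ℝ) ≤ kA := by exact_mod_cast hkA
  have kB0 : (0:ℝ) ≤ kB := by exact_mod_cast hkB
  have kD0 : (0:ℝ) < kD := by exact_mod_cast hkD
  have hB0 : (0:ℝ) ≤ c.Bn := Nat.cast_nonneg _
  have hs := Real.sq_sqrt (show (0:ℝ) ≤ 1 + τ ^ 2 by positivity)
  obtain ⟨S, hS⟩ : ∃ S : ℝ, S = Real.sqrt (1 + τ ^ 2) := ⟨_, rfl⟩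
  rw [← hS] at hs ⊢
  have hS0 : 0 ≤ S := by rw [hS]; exact Real.sqrt_nonneg _
  have n1 : ((c.ya : ℝ) * c.ya + c.xa * c.xa) * al ^ 2 +
      2 * ((c.ya : ℝ) * c.yb + c.xa * c.xb) * (al * be) +
      ((c.yb : ℝ) * c.yb + c.xb * c.xb) * be ^ 2 = 1 + τ ^ 2 := by
    have : ((c.ya : ℝ) * c.ya + c.xa * c.xa) * al ^ 2 +
      2 * ((c.ya : ℝ) * c.yb + c.xa * c.xb) * (al * be) +
      ((c.yb : ℝ) * c.yb + c.xb * c.xb) * be ^ 2 =
      (al * c.ya + be * c.yb) ^ 2 + (al * c.xa + be * c.xb) ^ 2 := by ring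
    rw [this, e1, ht]
    ring
  have q1 : ((kA : ℝ) * (c.ya * c.ya) + kB * (c.xa * c.xa)) * al ^ 2 +
      2 * ((kA : ℝ) * (c.ya * c.yb) + kB * (c.xa * c.xb)) * (al * be) +
      ((kA : ℝ) * (c.yb * c.yb) + kB * (c.xb * c.xb)) * be ^ 2 = kA + kB * τ ^ 2 := by
    have : ((kA : ℝ) * (c.ya * c.ya) + kB * (c.xa * c.xa)) * al ^ 2 +
      2 * ((kA : ℝ) * (c.ya * c.yb) + kB * (c.xa * c.xb)) * (al * be) +
      ((kA : ℝ) * (c.yb * c.yb) + kB * (c.xb * c.xb)) * be ^ 2 =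
      kA * (al * c.ya + be * c.yb) ^ 2 + kB * (al * c.xa + be * c.xb) ^ 2 := by ring
    rw [this, e1, ht]
    ring
  rw [n1, q1, ← hs] at key
  have hQ0 : 0 ≤ (kA : ℝ) + kB * τ ^ 2 := by positivity
  have key2 : (S * (al + be) * c.Bn * kD) ^ 2 < (4 * c.Bd * (kA + kB * τ ^ 2)) ^ 2 := by
    have a1 : (S * (al + be) * c.Bn * kD) ^ 2 =
        (c.Bn : ℝ) * c.Bn * (kD * kD) * (S ^ 2 * (al + be) ^ 2) := by ring
    have a2 : (4 * c.Bd * (kA + kB * τ ^ 2)) ^ 2 =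
        16 * ((c.Bd : ℝ) * c.Bd) * (kA + kB * τ ^ 2) ^ 2 := by ring
    rw [a1, a2]
    exact key
  have key3 : S * (al + be) * c.Bn * kD < 4 * c.Bd * (kA + kB * τ ^ 2) :=
    lt_of_pow_lt_pow_left₀ 2 (by positivity) key2
  have e4 : S / 2 * ((al + be) * ((c.Bn : ℝ) / c.Bd)) = (S * (al + be) * c.Bn * kD) /
      (2 * c.Bd * kD) := by field_simp
  have e5 : 2 * ((kA : ℝ) / kD + kB / kD * τ ^ 2) = (4 * c.Bd * (kA + kB * τ ^ 2)) /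
      (2 * c.Bd * kD) := by
    field_simp
    ring
  rw [e4, e5]
  exact div_lt_div_of_pos_right key3 (by positivity)

/-! ### the ray -/

/-- the cells cover `[px/py, ∞)` -/
def covH : ℤ → ℤ → List HChk → Bool
  | _, _, [] => false
  | px, py, [c] => and (decide (c.xa * py ≤ px * c.ya)) (decide (c.yb = 0))
  | px, py, c :: d :: cs => and (decide (c.xa * py ≤ px * c.ya)) (covH c.xb c.yb (d :: cs))

/-- all conditions on a list of cells except the boxes -/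
def rayB (M : ℤ) (I0 I1 O0 O1 : CL) (r r0 r1 r2 s s0 s1 s2 kA kB kD : ℤ) : List HChk → Bool
  | [] => true
  | c :: cs => and (and (and (c.ok0 M I0 I1 O0 O1) (numH kA kB kD c))
      (and (and (and (decide (c.r = r)) (decide (c.r0 = r0)))
          (and (decide (c.r1 = r1)) (decide (c.r2 = r2))))
        (and (and (decide (c.s = s)) (decide (c.s0 = s0)))
          (and (decide (c.s1 = s1)) (decide (c.s2 = s2))))))
      (rayB M I0 I1 O0 O1 r r0 r1 r2 s s0 s1 s2 kA kB kD cs)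

/-- the conditions of one cell of a list -/
theorem rayB_mem {M : ℤ} {I0 I1 O0 O1 : CL} {r r0 r1 r2 s s0 s1 s2 kA kB kD : ℤ}
    {cs : List HChk} (h : rayB M I0 I1 O0 O1 r r0 r1 r2 s s0 s1 s2 kA kB kD cs = true)
    {c : HChk} (hc : c ∈ cs) : c.ok0 M I0 I1 O0 O1 = true ∧ numH kA kB kD c = true ∧
      (c.r = r ∧ c.r0 = r0 ∧ c.r1 = r1 ∧ c.r2 = r2) ∧
      (c.s = s ∧ c.s0 = s0 ∧ c.s1 = s1 ∧ c.s2 = s2) := by
  induction cs with
  | nil => simp at hc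
  | cons d cs ih =>
    simp only [rayB, Bool.and_eq_true, decide_eq_true_eq] at h
    obtain ⟨⟨⟨h1, h2⟩, ⟨⟨a1, a2⟩, a3, a4⟩, ⟨b1, b2⟩, b3, b4⟩, h4⟩ := h
    rcases List.mem_cons.1 hc with rfl | hc
    · exact ⟨h1, h2, ⟨a1, a2, a3, a4⟩, b1, b2, b3, b4⟩
    · exact ih h4 hc

/-- the cell of `τ` -/
theorem covH_sound {τ : ℝ} : ∀ (cs : List HChk) (px py : ℤ), covH px py cs = true → 0 ≤ py →
    (∀ c ∈ cs, 0 ≤ c.ya ∧ 0 ≤ c.yb ∧ 0 ≤ c.xb) → (px : ℝ) ≤ py * τ → (py = 0 → 0 < px) →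
    ∃ c ∈ cs, (c.xa : ℝ) ≤ c.ya * τ ∧ (c.yb : ℝ) * τ ≤ c.xb := by
  intro cs
  induction cs with
  | nil => intro px py h; simp [covH] at h
  | cons c cs ih =>
    intro px py h hpy hcs hp hp0
    have hc := hcs c List.mem_cons_self
    have hpy' : 0 < py := by
      rcases eq_or_lt_of_le hpy with h1 | h1
      · exfalso
        have h2 := hp0 h1.symm
        rw [← h1] at hp
        have : (0:ℝ) < px := by exact_mod_cast h2
        push_cast at hp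
        linarith
      · exact h1
    have hpyR : (0:ℝ) < py := by exact_mod_cast hpy'
    have first : c.xa * py ≤ px * c.ya → (c.xa : ℝ) ≤ c.ya * τ := fun h1 => by
      have h3 : (c.xa : ℝ) * py ≤ px * c.ya := by exact_mod_cast h1
      have hy : (0:ℝ) ≤ c.ya := by exact_mod_cast hc.1
      have h4 := mul_le_mul_of_nonneg_right hp hy
      have h5 : (c.xa : ℝ) * py ≤ c.ya * τ * py := by linarith
      exact le_of_mul_le_mul_right h5 hpyR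
    cases cs with
    | nil =>
      simp only [covH, Bool.and_eq_true, decide_eq_true_eq] at h
      refine ⟨c, List.mem_cons_self, first h.1, ?_⟩
      rw [h.2]
      have : (0:ℝ) ≤ c.xb := by exact_mod_cast hc.2.2
      simpa using this
    | cons d cs =>
      simp only [covH, Bool.and_eq_true, decide_eq_true_eq] at h
      by_cases hb : (c.yb : ℝ) * τ ≤ c.xb
      · exact ⟨c, List.mem_cons_self, first h.1, hb⟩
      · have hb' := (not_le.1 hb).le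
        obtain ⟨e, he, he2⟩ := ih c.xb c.yb h.2 hc.2.1
          (fun e he => hcs e (List.mem_cons_of_mem _ he)) hb' (fun h0 => by
            exfalso
            apply hb
            rw [h0]
            have : (0:ℝ) ≤ c.xb := by exact_mod_cast hc.2.2
            simpa using this)
        exact ⟨e, List.mem_cons_of_mem _ he, he2⟩

/-- **the multiplier of every direction `τ ≥ Tn/Td`** -/
theorem mOk_ray {p0 p1 p2 q0 q1 q2 : ℝ} (hp : InL p0 p1 p2) (hq : OutD q0 q1 q2)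
    {M : ℤ} {I0 I1 O0 O1 : CL} {r r0 r1 r2 s s0 s1 s2 kA kB kD Tn Td : ℤ}
    (hr : ROk r r0 r1 r2 p0 p1 p2) (hr' : ROk s s0 s1 s2 q0 q1 q2) {cs : List HChk}
    (hTd : 0 < Td) (hkA : 0 ≤ kA) (hkB : 0 ≤ kB) (hkD : 0 < kD)
    (hcov : covH Tn Td cs = true)
    (harc : rayB M I0 I1 O0 O1 r r0 r1 r2 s s0 s1 s2 kA kB kD cs = true)
    (hbox : ∀ c ∈ cs, c.okI = true ∧ c.okO = true) {τ : ℝ} (hτ : (Tn : ℝ) ≤ Td * τ) :
    ∃ (Mb : ℝ) (M' : ℂ → ℂ) (Lm ε₀ : ℝ), Mb < 2 * ((kA : ℝ) / kD + kB / kD * τ ^ 2) ∧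
      0 < ε₀ ∧ MOk (fun m => conj (ud τ) ^ 2 * ((1 + (τ : ℂ) * I) / 2) *
        MqA M I0 I1 O0 O1 p0 p1 p2 q0 q1 q2 τ (wu (ud τ) m)) M' Mb Lm ε₀ := by
  have hpos : ∀ c ∈ cs, (0 ≤ c.ya ∧ 0 ≤ c.yb ∧ 0 ≤ c.xb) ∧ 0 < c.Bd ∧
      0 < c.ya * c.xb - c.xa * c.yb := fun c hc => by
    obtain ⟨h1, h2, -⟩ := rayB_mem harc hc
    simp only [HChk.ok0, Bool.and_eq_true, decide_eq_true_eq] at h1
    obtain ⟨-, -, ⟨⟨-, hya⟩, ⟨-, hyb⟩, hxb, hBd⟩, -⟩ := h1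
    simp only [numH, Bool.and_eq_true, decide_eq_true_eq] at h2
    exact ⟨⟨hya, hyb, hxb⟩, hBd, h2.1⟩
  obtain ⟨c, hc, ha, hb⟩ := covH_sound cs Tn Td hcov hTd.le (fun c hc => (hpos c hc).1) hτ
    (fun h => absurd h hTd.ne')
  obtain ⟨h1, h2, ⟨a1, a2, a3, a4⟩, b1, b2, b3, b4⟩ := rayB_mem harc hc
  obtain ⟨-, hBd, hΔ⟩ := hpos c hc
  have hΔ' : (0:ℝ) < c.ya * c.xb - c.xa * c.yb := by exact_mod_cast hΔ
  obtain ⟨al, hal⟩ : ∃ al : ℝ, al = (c.xb - c.yb * τ) / (c.ya * c.xb - c.xa * c.yb) := ⟨_, rfl⟩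
  obtain ⟨be, hbe⟩ : ∃ be : ℝ, be = (c.ya * τ - c.xa) / (c.ya * c.xb - c.xa * c.yb) := ⟨_, rfl⟩
  have hal0 : 0 ≤ al := by rw [hal]; exact div_nonneg (by linarith) hΔ'.le
  have hbe0 : 0 ≤ be := by rw [hbe]; exact div_nonneg (by linarith) hΔ'.le
  have e1 : al * c.ya + be * c.yb = 1 := by
    rw [hal, hbe, div_mul_eq_mul_div, div_mul_eq_mul_div, ← add_div, div_eq_iff hΔ'.ne']
    ring
  have e2 : al * c.xa + be * c.xb = τ := by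
    rw [hal, hbe, div_mul_eq_mul_div, div_mul_eq_mul_div, ← add_div, div_eq_iff hΔ'.ne']
    ring
  have hlt := numH_lt h2 hkA hkB hkD hBd hal0 hbe0 e1 e2
  obtain ⟨Mb, hM1, hM2⟩ := exists_between hlt
  obtain ⟨k, hk, hl⟩ := hp.low
  have h3 : OutL (q1 + q2) q0 q1 q2 := ⟨rfl, hq.pos, hq.pos'⟩
  obtain ⟨k', hk', hl'⟩ := h3.low
  obtain ⟨M', L', ε, hε, hMO⟩ := mOk_H (I0 := I0) (I1 := I1) (O0 := O0) (O1 := O1) (M := M)
    hk (fun w hw => le_trans (by nlinarith [sq_nonneg ‖w‖]) (hl w hw)) hk'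
    (fun w => le_trans (by nlinarith [sq_nonneg ‖w‖]) (hl' w)) c
    (by rw [a1, a2, a3, a4]; exact hr) (by rw [b1, b2, b3, b4]; exact hr') h1 (hbox c hc).1
    (hbox c hc).2 hal0 hbe0 e1 e2 hM1
  refine ⟨Mb, M', L', ε, hM2, hε, ?_⟩
  have e : uT τ = ud τ := by
    unfold uT ud
    rw [mul_comm (τ : ℂ) I]
  rw [e] at hMO
  exact hMO

end Pool.Agent.Helper11.CKC
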