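import Pool.Agent.Helper82.CKC.FieldU

/-!
# Project CKC: the multiplier with complex coefficients, bound checked by the kernel

`M''(w) = (1/M₀) ∑ (re + i im) lⁿ (conj w)^j`, `l = sg (1 - |w|²)/ρ(w)`. The bound is checked with
the box checker of `Helper20.CK.BoxChk` in the variables `Re w`, `Im w`. The discs `|m + 3| ≤ 4`
of all directions `u = (1 + i t)/(1 - i t)`, `t ∈ [a, b]`, in the coordinate
`w = conj u (m + 1) - 1` are covered by three regions with parameters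
`(ta, sg) = (a, a²), (b, b²), ((a + b)/2, a b)`.
-/

set_option autoImplicit false

open Complex Metric Set
open scoped ComplexConjugate

namespace Pool.Agent.Helper11.CKC

open Pool.EK71
open Pool.Agent.Helper20.CK (bx bx_sound pw ev2_pw zof_cast ROk)
open Pool.Agent.Helper69.EK3 (rF rF_eq imul_cast' iadd_cast')
open Pool.Agent.Helper20.EK7 (InL OutL)
open Pool.Agent.Helper11.CK
open Pool.Agent.Helper82.CKC (wu mOk_dir)
open Pool.Agent.Helper69.CK (MOk)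

/-- lists of `(n, j, re, im)` -/
abbrev CL := List (ℕ × ℕ × ℤ × ℤ)

/-- `∑ (re + i im) lⁿ (conj w)^j` -/
noncomputable def MSc (L : CL) (l : ℝ) (w : ℂ) : ℂ :=
  (L.map fun t => ((t.2.2.1 : ℂ) + (t.2.2.2 : ℂ) * I) * ((l : ℂ) ^ t.1 * conj w ^ t.2.1)).sum

/-- **the multiplier** `M''(w)` -/
noncomputable def Mqc (M : ℤ) (MI MO : CL) (p0 p1 p2 q0 q1 q2 : ℝ) (w : ℂ) : ℂ :=
  if ‖w‖ ≤ 1 then MSc MI ((1 - ‖w‖ ^ 2) / rF p0 p1 p2 w) w / (M : ℂ)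
  else MSc MO ((‖w‖ ^ 2 - 1) / rF q0 q1 q2 w) w / (M : ℂ)

/-! ### polynomials in `W Re w`, `W Im w` -/

/-- `W² ρ` -/
def rhC (W r0 r1 r2 : ℤ) : BP :=
  [[Int.mul (Int.add r0 r1) (Int.mul W W), 0, Int.add r1 r2], [Int.mul (Int.mul 2 r1) W],
    [Int.add r1 r2]]

/-- `W² sg r (1 - |w|²)` -/
def omC (W sg r : ℤ) : BP :=
  [[Int.mul (Int.mul sg r) (Int.mul W W), 0, Int.neg (Int.mul sg r)], [],
    [Int.neg (Int.mul sg r)]]

/-- `W² Re (conj w)^j` -/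
def cjR (W : ℤ) : ℕ → BP
  | 0 => [[Int.mul W W]]
  | 1 => [[], [W]]
  | _ => [[0, 0, -1], [], [1]]

/-- `W² Im (conj w)^j` -/
def cjI (W : ℤ) : ℕ → BP
  | 0 => []
  | 1 => [[0, Int.neg W]]
  | _ => [[], [0, -2]]

def tR (W : ℤ) (t : ℕ × ℕ × ℤ × ℤ) : BP :=
  ad2 (sm2 t.2.2.1 (cjR W t.2.1)) (sm2 (Int.neg t.2.2.2) (cjI W t.2.1))

def tI (W : ℤ) (t : ℕ × ℕ × ℤ × ℤ) : BP :=
  ad2 (sm2 t.2.2.1 (cjI W t.2.1)) (sm2 t.2.2.2 (cjR W t.2.1))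

def pS (T : ℕ × ℕ × ℤ × ℤ → BP) (R O : BP) (N : ℕ) : CL → BP
  | [] => []
  | t :: L => ad2 (mu2 (mu2 (pw O t.1) (pw R (N - t.1))) (T t)) (pS T R O N L)

/-- the polynomial of the condition -/
def mFC (W sg r r0 r1 r2 M Bn Bd : ℤ) (N : ℕ) (L : CL) : BP :=
  ad2 (sm2 (Int.mul (Int.mul (Int.mul Bn M) (Int.mul Bn M)) (Int.mul (Int.mul W W) (Int.mul W W)))
      (pw (rhC W r0 r1 r2) (2 * N)))
    (sm2 (Int.neg (Int.mul Bd Bd))
      (ad2 (mu2 (pS (tR W) (rhC W r0 r1 r2) (omC W sg r) N L)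
          (pS (tR W) (rhC W r0 r1 r2) (omC W sg r) N L))
        (mu2 (pS (tI W) (rhC W r0 r1 r2) (omC W sg r) N L)
          (pS (tI W) (rhC W r0 r1 r2) (omC W sg r) N L))))

/-- `W² (1 - |w|²)` -/
def gIn (W : ℤ) : BP := [[Int.mul W W, 0, -1], [], [-1]]
/-- `W² (|w|² - 1)` -/
def gOut (W : ℤ) : BP := [[Int.neg (Int.mul W W), 0, 1], [], [1]]
/-- `W² (36 - |w + 1|²)` -/
def g36 (W : ℤ) : BP := [[Int.mul 35 (Int.mul W W), 0, -1], [Int.mul (-2) W], [-1]]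
/-- `W² (td (A - 4 Re ω) + 8 tn Im ω + sn (A + 4 Re ω))`, `ω = w + 1`, `A = 12 - |ω|²` -/
def gR (W tn sn td : ℤ) : BP :=
  [[Int.mul (Int.add (Int.mul 7 td) (Int.mul 15 sn)) (Int.mul W W), Int.mul (Int.mul 8 tn) W,
      Int.neg (Int.add td sn)],
    [Int.mul (Int.add (Int.mul (-6) td) (Int.mul 2 sn)) W], [Int.neg (Int.add td sn)]]

def degC (N : ℕ) : CL → Bool
  | [] => true
  | t :: L => and (and (Nat.ble t.1 N) (Nat.ble t.2.1 2)) (degC N L)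

def eqI : List ℤ → List ℤ → Bool
  | [], [] => true
  | a :: p, b :: q => and (decide (a = b)) (eqI p q)
  | _, _ => false

def eqP : BP → BP → Bool
  | [], [] => true
  | a :: p, b :: q => and (eqI a b) (eqP p q)
  | _, _ => false

/-- the check inside, depth `n`; `F` is the polynomial -/
def inC (k n N : ℕ) (r r0 r1 r2 M Bn Bd : ℤ) (L : CL) (F : BP) : Bool :=
  and (and (degC N L) (eqP F (mFC (Int.ofNat k) 1 r r0 r1 r2 M Bn Bd N L)))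
    (bx F [gIn (Int.ofNat k)] n 0 k 0 k)

/-- the check outside for one vertex -/
def outC (k n N : ℕ) (r r0 r1 r2 M Bn Bd : ℤ) (L : CL) (F : BP) (v : ℤ × ℤ × ℤ) : Bool :=
  and (and (degC N L) (eqP F (mFC (Int.ofNat k) (-1) r r0 r1 r2 M Bn Bd N L)))
    (bx F [gR (Int.ofNat k) v.1 v.2.1 v.2.2, gOut (Int.ofNat k), g36 (Int.ofNat k)] n
      (Int.neg (Int.ofNat k)) (Nat.mul 6 k) 0 (Nat.mul 6 k))

theorem eqI_eq {p q : List ℤ} (h : eqI p q = true) : p = q := by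
  induction p generalizing q with
  | nil => cases q with
    | nil => rfl
    | cons b q => simp [eqI] at h
  | cons a p ih => cases q with
    | nil => simp [eqI] at h
    | cons b q =>
      simp only [eqI, Bool.and_eq_true, decide_eq_true_eq] at h
      rw [h.1, ih h.2]

theorem eqP_eq {p q : BP} (h : eqP p q = true) : p = q := by
  induction p generalizing q with
  | nil => cases q with
    | nil => rfl
    | cons b q => simp [eqP] at h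
  | cons a p ih => cases q with
    | nil => simp [eqP] at h
    | cons b q =>
      simp only [eqP, Bool.and_eq_true] at h
      rw [eqI_eq h.1, ih h.2]

/-! ### values -/

theorem ineg_cast' (a : ℤ) : ((Int.neg a : ℤ) : ℝ) = - a := by
  show (((-a : ℤ)) : ℝ) = _
  push_cast
  ring

section val
variable {W sg r r0 r1 r2 M Bn Bd : ℤ} {N : ℕ} {L : CL} {w : ℂ} {l ρ : ℝ}

theorem nsq (w : ℂ) : ‖w‖ ^ 2 = w.re ^ 2 + w.im ^ 2 := by
  rw [← normSq_eq_norm_sq, normSq_apply]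
  ring

theorem ev_rhC (W r0 r1 r2 : ℤ) (w : ℂ) : ev2 (W * w.re) (W * w.im) (rhC W r0 r1 r2) =
    W ^ 2 * ((r0 + r1 : ℝ) + 2 * r1 * w.re + (r1 + r2) * ‖w‖ ^ 2) := by
  rw [nsq]
  simp only [rhC, ev2, ev1, imul_cast', iadd_cast']
  push_cast
  ring

theorem ev_omC (W sg r : ℤ) (w : ℂ) : ev2 (W * w.re) (W * w.im) (omC W sg r) =
    W ^ 2 * (sg * r * (1 - ‖w‖ ^ 2)) := by
  rw [nsq]
  simp only [omC, ev2, ev1, imul_cast', ineg_cast']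
  push_cast
  ring

theorem ev_cjR (W : ℤ) {j : ℕ} (hj : j ≤ 2) (w : ℂ) :
    ev2 (W * w.re) (W * w.im) (cjR W j) = W ^ 2 * (conj w ^ j).re := by
  interval_cases j
  · simp [cjR, ev2, ev1]
    ring
  · simp [cjR, ev2, ev1]
    ring
  · simp only [cjR, ev2, ev1, pow_two, mul_re, conj_re, conj_im]
    push_cast
    ring

theorem ev_cjI (W : ℤ) {j : ℕ} (hj : j ≤ 2) (w : ℂ) :
    ev2 (W * w.re) (W * w.im) (cjI W j) = W ^ 2 * (conj w ^ j).im := by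
  interval_cases j
  · simp [cjI, ev2]
  · simp only [cjI, ev2, ev1, ineg_cast', pow_one, conj_im]
    push_cast
    ring
  · simp only [cjI, ev2, ev1, pow_two, mul_im, conj_re, conj_im]
    push_cast
    ring

theorem ev_tR (W : ℤ) {t : ℕ × ℕ × ℤ × ℤ} (ht : t.2.1 ≤ 2) (w : ℂ) :
    ev2 (W * w.re) (W * w.im) (tR W t) =
      W ^ 2 * (((t.2.2.1 : ℂ) + (t.2.2.2 : ℂ) * I) * conj w ^ t.2.1).re := by
  rw [tR, ev2_ad, ev2_sm, ev2_sm, ev_cjR W ht, ev_cjI W ht, ineg_cast', mul_re]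
  simp only [add_re, mul_re, I_re, I_im, add_im, mul_im, intCast_re, intCast_im]
  ring

theorem ev_tI (W : ℤ) {t : ℕ × ℕ × ℤ × ℤ} (ht : t.2.1 ≤ 2) (w : ℂ) :
    ev2 (W * w.re) (W * w.im) (tI W t) =
      W ^ 2 * (((t.2.2.1 : ℂ) + (t.2.2.2 : ℂ) * I) * conj w ^ t.2.1).im := by
  rw [tI, ev2_ad, ev2_sm, ev2_sm, ev_cjR W ht, ev_cjI W ht, mul_im]
  simp only [add_re, mul_re, I_re, I_im, add_im, mul_im, intCast_re, intCast_im]
  ring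

theorem ev_pS {T : ℕ × ℕ × ℤ × ℤ → BP} {φ : ℂ → ℝ} (hφ0 : φ 0 = 0)
    (hφ : ∀ a b, φ (a + b) = φ a + φ b) (hφs : ∀ (c : ℝ) (z : ℂ), φ ((c : ℂ) * z) = c * φ z)
    (hT : ∀ t : ℕ × ℕ × ℤ × ℤ, t.2.1 ≤ 2 → ev2 (W * w.re) (W * w.im) (T t) =
      W ^ 2 * φ (((t.2.2.1 : ℂ) + (t.2.2.2 : ℂ) * I) * conj w ^ t.2.1))
    (hρ : ρ = (r0 + r1 : ℝ) + 2 * r1 * w.re + (r1 + r2) * ‖w‖ ^ 2)
    (hl : l * ρ = sg * r * (1 - ‖w‖ ^ 2)) (hL : ∀ t ∈ L, t.1 ≤ N ∧ t.2.1 ≤ 2) :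
    ev2 (W * w.re) (W * w.im) (pS T (rhC W r0 r1 r2) (omC W sg r) N L) =
      W ^ 2 * (W ^ 2 * ρ) ^ N * φ (MSc L l w) := by
  unfold MSc
  induction L with
  | nil => simp [pS, ev2, hφ0]
  | cons t L ih =>
    obtain ⟨h1, h2⟩ := hL t List.mem_cons_self
    rw [pS, ev2_ad, ih fun s hs => hL s (List.mem_cons_of_mem _ hs), ev2_mu, ev2_mu, ev2_pw,
      ev2_pw, ev_rhC, ev_omC, ← hρ, ← hl, hT t h2, List.map_cons, List.sum_cons, hφ]
    have e1 : ((t.2.2.1 : ℂ) + (t.2.2.2 : ℂ) * I) * ((l : ℂ) ^ t.1 * conj w ^ t.2.1) =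
        ((l ^ t.1 : ℝ) : ℂ) * (((t.2.2.1 : ℂ) + (t.2.2.2 : ℂ) * I) * conj w ^ t.2.1) := by
      push_cast
      ring
    have e2 : ((W : ℝ) ^ 2 * ρ) ^ N = (W ^ 2 * ρ) ^ t.1 * (W ^ 2 * ρ) ^ (N - t.1) := by
      rw [← pow_add]
      congr 1
      omega
    rw [e1, hφs, e2]
    ring

theorem ev_mFC (hρ : ρ = (r0 + r1 : ℝ) + 2 * r1 * w.re + (r1 + r2) * ‖w‖ ^ 2)
    (hl : l * ρ = sg * r * (1 - ‖w‖ ^ 2)) (hL : ∀ t ∈ L, t.1 ≤ N ∧ t.2.1 ≤ 2) :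
    ev2 (W * w.re) (W * w.im) (mFC W sg r r0 r1 r2 M Bn Bd N L) =
      (W ^ 2 * (W ^ 2 * ρ) ^ N) ^ 2 * ((Bn * M) ^ 2 - Bd ^ 2 * ‖MSc L l w‖ ^ 2) := by
  unfold mFC
  rw [ev2_ad, ev2_sm, ev2_sm, ev2_pw, ev_rhC, ev2_ad, ev2_mu, ev2_mu,
    ev_pS (T := tR W) (φ := fun z => z.re) (by simp) (by simp) (fun c z => re_ofReal_mul c z)
      (fun t ht => ev_tR W ht w) hρ hl hL,
    ev_pS (T := tI W) (φ := fun z => z.im) (by simp) (by simp) (fun c z => im_ofReal_mul c z)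
      (fun t ht => ev_tI W ht w) hρ hl hL, ← hρ, nsq (MSc L l w)]
  simp only [imul_cast', ineg_cast']
  rw [pow_mul']
  ring

end val

theorem degC_iff {N : ℕ} {L : CL} (h : degC N L = true) : ∀ t ∈ L, t.1 ≤ N ∧ t.2.1 ≤ 2 := by
  induction L with
  | nil => simp
  | cons t L ih =>
    simp only [degC, Bool.and_eq_true, Nat.ble_eq] at h
    obtain ⟨⟨h1, h2⟩, h3⟩ := h
    intro q hq
    rcases List.mem_cons.1 hq with rfl | hq
    · exact ⟨h1, h2⟩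
    · exact ih h3 q hq

theorem le_of_key {W sg r r0 r1 r2 M Bn Bd : ℤ} {N : ℕ} {L : CL} {w : ℂ} {l ρ : ℝ}
    (hW : 0 < W) (hM : 0 < M) (hBn : 0 ≤ Bn) (hBd : 0 < Bd)
    (hρ : ρ = (r0 + r1 : ℝ) + 2 * r1 * w.re + (r1 + r2) * ‖w‖ ^ 2) (hρ0 : ρ ≠ 0)
    (hl : l * ρ = sg * r * (1 - ‖w‖ ^ 2)) (hL : ∀ t ∈ L, t.1 ≤ N ∧ t.2.1 ≤ 2)
    (key : 0 < ev2 (W * w.re) (W * w.im) (mFC W sg r r0 r1 r2 M Bn Bd N L)) :
    ‖MSc L l w / (M : ℂ)‖ ≤ (Bn : ℝ) / Bd := by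
  rw [ev_mFC hρ hl hL] at key
  have hW0 : (0:ℝ) < W := by exact_mod_cast hW
  have h5 : 0 < ((W:ℝ) ^ 2 * (W ^ 2 * ρ) ^ N) ^ 2 := by positivity
  have h6 := (mul_pos_iff_of_pos_left h5).1 key
  have hM0 : (0:ℝ) < M := by exact_mod_cast hM
  have hB0 : (0:ℝ) < Bd := by exact_mod_cast hBd
  have hBn0 : (0:ℝ) ≤ Bn := by exact_mod_cast hBn
  have h8 : (Bd * ‖MSc L l w‖) ^ 2 ≤ (Bn * M : ℝ) ^ 2 := by
    rw [mul_pow]
    linarith
  have h9 : (Bd : ℝ) * ‖MSc L l w‖ ≤ Bn * M :=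
    le_of_sq_le_sq h8 (mul_nonneg hBn0 hM0.le)
  rw [norm_div, norm_intCast, abs_of_pos hM0, div_le_div_iff₀ hM0 hB0]
  linarith

section
variable {k n N : ℕ} {r r0 r1 r2 M Bn Bd : ℤ} {L : CL} {F : BP} {w : ℂ} {l ρ : ℝ}

theorem abs_le_mul {W : ℤ} {k : ℕ} (hk : (W : ℝ) = k) {x c b : ℝ} (h : |x - c| ≤ b) :
    |(W : ℝ) * x - (W : ℝ) * c| ≤ b * k := by
  rw [← mul_sub, abs_mul, hk, abs_of_nonneg (Nat.cast_nonneg k), mul_comm]
  exact mul_le_mul_of_nonneg_right h (Nat.cast_nonneg k)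

theorem inC_le (h : inC k n N r r0 r1 r2 M Bn Bd L F = true) (hk : 0 < k) (hM : 0 < M)
    (hBn : 0 ≤ Bn) (hBd : 0 < Bd) (hw : ‖w‖ ≤ 1)
    (hρ : ρ = (r0 + r1 : ℝ) + 2 * r1 * w.re + (r1 + r2) * ‖w‖ ^ 2) (hρ0 : ρ ≠ 0)
    (hl : l * ρ = ((1 : ℤ) : ℝ) * r * (1 - ‖w‖ ^ 2)) :
    ‖MSc L l w / (M : ℂ)‖ ≤ (Bn : ℝ) / Bd := by
  simp only [inC, Bool.and_eq_true] at h
  obtain ⟨⟨hd, hF⟩, h⟩ := h
  rw [eqP_eq hF] at h
  have hWk : ((Int.ofNat k : ℤ) : ℝ) = k := zof_cast k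
  refine le_of_key (W := Int.ofNat k) (by simpa using hk) hM hBn hBd hρ hρ0 hl (degC_iff hd) ?_
  have hg : 0 ≤ ev2 ((Int.ofNat k : ℤ) * w.re) ((Int.ofNat k : ℤ) * w.im)
      (gIn (Int.ofNat k)) := by
    simp only [gIn, ev2, ev1, imul_cast']
    have h1 : 0 ≤ ((Int.ofNat k : ℤ) : ℝ) ^ 2 * (1 - ‖w‖ ^ 2) :=
      mul_nonneg (sq_nonneg _) (by nlinarith [norm_nonneg w])
    rw [nsq] at h1
    push_cast at h1 ⊢
    linarith
  refine bx_sound (by simpa using hg) n _ _ _ _ h ?_ ?_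
  · rw [Int.cast_zero, sub_zero, abs_mul, hWk, abs_of_nonneg (Nat.cast_nonneg k)]
    have := (Complex.abs_re_le_norm w).trans hw
    have h2 : (0:ℝ) ≤ k := Nat.cast_nonneg k
    nlinarith
  · rw [Int.cast_zero, sub_zero, abs_mul, hWk, abs_of_nonneg (Nat.cast_nonneg k)]
    have := (Complex.abs_im_le_norm w).trans hw
    have h2 : (0:ℝ) ≤ k := Nat.cast_nonneg k
    nlinarith

/-- the region of a vertex -/
def Reg (v : ℤ × ℤ × ℤ) (w : ℂ) : Prop :=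
  0 ≤ (v.2.2 : ℝ) * (12 - ‖w + 1‖ ^ 2 - 4 * (w + 1).re) + 8 * v.1 * (w + 1).im +
    v.2.1 * (12 - ‖w + 1‖ ^ 2 + 4 * (w + 1).re)

theorem outC_le {v : ℤ × ℤ × ℤ} (h : outC k n N r r0 r1 r2 M Bn Bd L F v = true) (hk : 0 < k)
    (hM : 0 < M) (hBn : 0 ≤ Bn) (hBd : 0 < Bd) (hw : 1 ≤ ‖w‖) (hw6 : ‖w + 1‖ ≤ 6)
    (hv : Reg v w)
    (hρ : ρ = (r0 + r1 : ℝ) + 2 * r1 * w.re + (r1 + r2) * ‖w‖ ^ 2) (hρ0 : ρ ≠ 0)
    (hl : l * ρ = ((-1 : ℤ) : ℝ) * r * (1 - ‖w‖ ^ 2)) :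
    ‖MSc L l w / (M : ℂ)‖ ≤ (Bn : ℝ) / Bd := by
  simp only [outC, Bool.and_eq_true] at h
  obtain ⟨⟨hd, hF⟩, h⟩ := h
  rw [eqP_eq hF] at h
  have hWk : ((Int.ofNat k : ℤ) : ℝ) = k := zof_cast k
  refine le_of_key (W := Int.ofNat k) (by simpa using hk) hM hBn hBd hρ hρ0 hl (degC_iff hd) ?_
  have e1 : ‖w + 1‖ ^ 2 = (w.re + 1) ^ 2 + w.im ^ 2 := by
    rw [nsq]
    simp
  have g1 : 0 ≤ ev2 ((Int.ofNat k : ℤ) * w.re) ((Int.ofNat k : ℤ) * w.im)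
      (gOut (Int.ofNat k)) := by
    simp only [gOut, ev2, ev1, imul_cast', ineg_cast']
    have h1 : 0 ≤ ((Int.ofNat k : ℤ) : ℝ) ^ 2 * (‖w‖ ^ 2 - 1) :=
      mul_nonneg (sq_nonneg _) (by nlinarith)
    rw [nsq] at h1
    push_cast at h1 ⊢
    linarith
  have g2 : 0 ≤ ev2 ((Int.ofNat k : ℤ) * w.re) ((Int.ofNat k : ℤ) * w.im)
      (g36 (Int.ofNat k)) := by
    simp only [g36, ev2, ev1, imul_cast']
    have h1 : 0 ≤ ((Int.ofNat k : ℤ) : ℝ) ^ 2 * (36 - ‖w + 1‖ ^ 2) :=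
      mul_nonneg (sq_nonneg _) (by nlinarith [norm_nonneg (w + 1)])
    rw [e1] at h1
    push_cast at h1 ⊢
    linarith
  have g3 : 0 ≤ ev2 ((Int.ofNat k : ℤ) * w.re) ((Int.ofNat k : ℤ) * w.im)
      (gR (Int.ofNat k) v.1 v.2.1 v.2.2) := by
    simp only [gR, ev2, ev1, imul_cast', ineg_cast', iadd_cast']
    have h1 := mul_nonneg (sq_nonneg ((Int.ofNat k : ℤ) : ℝ)) hv
    rw [e1] at h1
    simp only [add_re, one_re, add_im, one_im] at h1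
    push_cast at h1 ⊢
    linarith
  have hb := abs_le_mul (W := Int.ofNat k) hWk (x := w.re) (c := -1) (b := 6) (by
    have h1 := Complex.abs_re_le_norm (w + 1)
    rw [add_re, one_re] at h1
    have e : w.re - -1 = w.re + 1 := by ring
    rw [e]
    exact h1.trans hw6)
  have hb' := abs_le_mul (W := Int.ofNat k) hWk (x := w.im) (c := 0) (b := 6) (by
    have h1 := Complex.abs_im_le_norm (w + 1)
    rw [add_im, one_im, add_zero] at h1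
    rw [sub_zero]
    exact h1.trans hw6)
  have e6 : ((Nat.mul 6 k : ℕ) : ℝ) = 6 * k := by
    show (((6 * k : ℕ)) : ℝ) = _
    push_cast
    ring
  refine bx_sound (by
    intro g hg
    simp only [List.mem_cons, List.not_mem_nil, or_false] at hg
    rcases hg with rfl | rfl | rfl
    · exact g3
    · exact g1
    · exact g2) n _ _ _ _ h ?_ ?_
  · rw [e6, ineg_cast']
    have e : ((Int.ofNat k : ℤ) : ℝ) * w.re - -((Int.ofNat k : ℤ) : ℝ) =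
        ((Int.ofNat k : ℤ) : ℝ) * w.re - ((Int.ofNat k : ℤ) : ℝ) * (-1) := by ring
    rw [e]
    exact hb
  · rw [e6, Int.cast_zero]
    have e : ((Int.ofNat k : ℤ) : ℝ) * w.im - 0 =
        ((Int.ofNat k : ℤ) : ℝ) * w.im - ((Int.ofNat k : ℤ) : ℝ) * 0 := by ring
    rw [e]
    exact hb'

end

/-! ### the three vertices cover the arc -/

/-- a quadratic polynomial with negative Bernstein coefficients on `[a, b]` is negative -/
theorem bern_neg {P Q S a b t : ℝ} (ha : a ≤ t) (hb : t ≤ b)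
    (h1 : P + Q * a + S * a ^ 2 < 0) (h2 : P + Q * b + S * b ^ 2 < 0)
    (h3 : P + Q * ((a + b) / 2) + S * (a * b) < 0) : P + Q * t + S * t ^ 2 < 0 := by
  rcases eq_or_lt_of_le (ha.trans hb) with h | h
  · have : t = a := le_antisymm (hb.trans h.symm.le) ha
    rw [this]
    exact h1
  · have d : 0 < (b - a) ^ 2 := by have := sub_pos.2 h; positivity
    have e : (b - a) ^ 2 * (P + Q * t + S * t ^ 2) = (b - t) ^ 2 * (P + Q * a + S * a ^ 2) +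
        (t - a) ^ 2 * (P + Q * b + S * b ^ 2) +
        2 * ((b - t) * (t - a)) * (P + Q * ((a + b) / 2) + S * (a * b)) := by ring
    have p1 := mul_nonneg (sub_nonneg.2 hb) (sub_nonneg.2 ha)
    have k1 := mul_nonneg (sq_nonneg (b - t)) (neg_nonneg.2 h1.le)
    have k2 := mul_nonneg (sq_nonneg (t - a)) (neg_nonneg.2 h2.le)
    have k3 := mul_nonneg p1 (neg_nonneg.2 h3.le)
    have k4 : (b - a) ^ 2 * (P + Q * t + S * t ^ 2) < 0 := by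
      rcases eq_or_lt_of_le ha with h4 | h4
      · have : 0 < b - t := by linarith
        have := mul_pos (pow_pos this 2) (neg_pos.2 h1)
        linarith
      · have := mul_pos (pow_pos (sub_pos.2 h4) 2) (neg_pos.2 h2)
        linarith
    by_contra h5
    have := mul_nonneg d.le (not_lt.1 h5)
    linarith

/-- the direction with parameter `t` -/
noncomputable def uT (t : ℝ) : ℂ := (1 + (t : ℂ) * I) / (1 - (t : ℂ) * I)

theorem den_ne (t : ℝ) : 1 - (t : ℂ) * I ≠ 0 := by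
  intro h
  have := congrArg Complex.re h
  simp at this

theorem uT_norm (t : ℝ) : ‖uT t‖ = 1 := by
  have e : (1 + (t : ℂ) * I) = conj (1 - (t : ℂ) * I) := by simp
  unfold uT
  rw [norm_div, e, norm_conj, div_self (norm_ne_zero_iff.2 (den_ne t))]

theorem uT_mul (t : ℝ) : ((1 + t ^ 2 : ℝ) : ℂ) * uT t = (1 + (t : ℂ) * I) ^ 2 := by
  have h := den_ne t
  unfold uT
  rw [mul_div_assoc', div_eq_iff h]
  push_cast
  linear_combination ((t : ℂ) ^ 2 + (t : ℂ) ^ 3 * I) * I_sq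

/-- **the cover**: `v i = (tn, sn, td)` are the parameters `(ta, sg)` of the arc `[a, b]` -/
theorem cover {a b t : ℝ} (ha : a ≤ t) (hb : t ≤ b) {v1 v2 v3 : ℤ × ℤ × ℤ}
    (p1 : 0 < v1.2.2) (p2 : 0 < v2.2.2) (p3 : 0 < v3.2.2)
    (e1 : (v1.1 : ℝ) = v1.2.2 * a) (f1 : (v1.2.1 : ℝ) = v1.2.2 * a ^ 2)
    (e2 : (v2.1 : ℝ) = v2.2.2 * b) (f2 : (v2.2.1 : ℝ) = v2.2.2 * b ^ 2)
    (e3 : (v3.1 : ℝ) = v3.2.2 * ((a + b) / 2)) (f3 : (v3.2.1 : ℝ) = v3.2.2 * (a * b))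
    {m : ℂ} (hm : ‖m + 3‖ ≤ 4) :
    ‖wu (uT t) m + 1‖ ≤ 6 ∧ (Reg v1 (wu (uT t) m) ∨ Reg v2 (wu (uT t) m) ∨
      Reg v3 (wu (uT t) m)) := by
  obtain ⟨u, hu⟩ : ∃ u : ℂ, u = uT t := ⟨_, rfl⟩
  obtain ⟨ω, hω⟩ : ∃ ω : ℂ, ω = conj u * (m + 1) := ⟨_, rfl⟩
  have hun : ‖u‖ = 1 := by rw [hu]; exact uT_norm t
  have ew : wu (uT t) m + 1 = ω := by
    unfold wu
    rw [← hu, hω]
    ring
  have huc : u * conj u = 1 := by
    rw [mul_conj', hun]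
    norm_num
  have e4 : m + 1 = u * ω := by
    rw [hω, ← mul_assoc, huc, one_mul]
  have hn : ‖ω‖ = ‖m + 1‖ := by
    rw [hω, norm_mul, norm_conj, hun, one_mul]
  have h6 : ‖ω‖ ≤ 6 := by
    rw [hn]
    have h1 := norm_sub_le (m + 3) 2
    have e : m + 3 - 2 = m + 1 := by ring
    rw [e, Complex.norm_ofNat] at h1
    linarith
  have hP : 0 ≤ 12 - ‖ω‖ ^ 2 - 4 * (u * ω).re := by
    have h1 : ‖m + 3‖ ^ 2 ≤ 16 := by nlinarith [norm_nonneg (m + 3)]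
    have e : m + 3 = u * ω + 2 := by rw [← e4]; ring
    rw [e, nsq] at h1
    have e5 : ‖ω‖ ^ 2 = (u * ω).re ^ 2 + (u * ω).im ^ 2 := by
      rw [← nsq, norm_mul, hun, one_mul]
    rw [e5]
    simp only [add_re, re_ofNat, add_im, im_ofNat, add_zero] at h1
    linarith
  have hQ : 0 ≤ (12 - ‖ω‖ ^ 2 - 4 * ω.re) + 8 * ω.im * t + (12 - ‖ω‖ ^ 2 + 4 * ω.re) * t ^ 2 := by
    have h1 : 0 ≤ (1 + t ^ 2) * (12 - ‖ω‖ ^ 2 - 4 * (u * ω).re) :=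
      mul_nonneg (by positivity) hP
    have e : (1 + t ^ 2) * (u * ω).re = ((1 + (t : ℂ) * I) ^ 2 * ω).re := by
      rw [← uT_mul, ← hu, mul_assoc, re_ofReal_mul]
    have e' : ((1 + (t : ℂ) * I) ^ 2 * ω).re = (1 - t ^ 2) * ω.re - 2 * t * ω.im := by
      simp only [pow_two, mul_re, add_re, one_re, ofReal_re, I_re, ofReal_im, I_im, add_im,
        one_im, mul_im]
      ring
    rw [e'] at e
    nlinarith [e]
  rw [ew]
  refine ⟨h6, ?_⟩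
  by_contra hno
  simp only [not_or, Reg, not_le, ew] at hno
  obtain ⟨n1, n2, n3⟩ := hno
  have q1 : (0:ℝ) < v1.2.2 := by exact_mod_cast p1
  have q2 : (0:ℝ) < v2.2.2 := by exact_mod_cast p2
  have q3 : (0:ℝ) < v3.2.2 := by exact_mod_cast p3
  rw [e1, f1] at n1
  rw [e2, f2] at n2
  rw [e3, f3] at n3
  have m1 : (12 - ‖ω‖ ^ 2 - 4 * ω.re) + 8 * ω.im * a + (12 - ‖ω‖ ^ 2 + 4 * ω.re) * a ^ 2 < 0 := by
    by_contra h
    have := mul_nonneg q1.le (not_lt.1 h)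
    linarith
  have m2 : (12 - ‖ω‖ ^ 2 - 4 * ω.re) + 8 * ω.im * b + (12 - ‖ω‖ ^ 2 + 4 * ω.re) * b ^ 2 < 0 := by
    by_contra h
    have := mul_nonneg q2.le (not_lt.1 h)
    linarith
  have m3 : (12 - ‖ω‖ ^ 2 - 4 * ω.re) + 8 * ω.im * ((a + b) / 2) +
      (12 - ‖ω‖ ^ 2 + 4 * ω.re) * (a * b) < 0 := by
    by_contra h
    have := mul_nonneg q3.le (not_lt.1 h)
    linarith
  have := bern_neg ha hb m1 m2 m3
  linarith

/-! ### the pieces of the multiplier -/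

theorem bl_MSc {S : Set ℂ} {R : ℝ} (hR : 0 ≤ R) (hS : ∀ m ∈ S, ‖m‖ ≤ R) (L : CL) {l : ℂ → ℝ}
    (hl : BL S fun m => ((l m : ℝ) : ℂ)) : BL S fun m => MSc L (l m) m := by
  unfold MSc
  induction L with
  | nil => simpa using BL.const S 0
  | cons t L ih =>
    simp only [List.map_cons, List.sum_cons]
    exact ((BL.const S ((t.2.2.1 : ℂ) + (t.2.2.2 : ℂ) * I)).mul
      ((hl.pow t.1).mul ((BL.cj hR hS).pow t.2.1))).add ih

/-- the sums of the coefficients of `l⁰ (conj w)^j`, real parts -/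
def csR (j : ℕ) : CL → ℤ
  | [] => 0
  | t :: L => cond (Nat.beq t.1 0 && Nat.beq t.2.1 j) (Int.add t.2.2.1 (csR j L)) (csR j L)

/-- the sums of the coefficients of `l⁰ (conj w)^j`, imaginary parts -/
def csI (j : ℕ) : CL → ℤ
  | [] => 0
  | t :: L => cond (Nat.beq t.1 0 && Nat.beq t.2.1 j) (Int.add t.2.2.2 (csI j L)) (csI j L)

/-- the columns of `l⁰` agree -/
def shC (MI MO : CL) : Bool :=
  decide (csR 0 MI = csR 0 MO) && decide (csR 1 MI = csR 1 MO) && decide (csR 2 MI = csR 2 MO) &&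
  (decide (csI 0 MI = csI 0 MO) && decide (csI 1 MI = csI 1 MO) && decide (csI 2 MI = csI 2 MO))

theorem MSc_zero {N : ℕ} {L : CL} (hL : ∀ t ∈ L, t.1 ≤ N ∧ t.2.1 ≤ 2) (w : ℂ) : MSc L 0 w =
    ((csR 0 L : ℂ) + (csI 0 L : ℂ) * I) + ((csR 1 L : ℂ) + (csI 1 L : ℂ) * I) * conj w +
      ((csR 2 L : ℂ) + (csI 2 L : ℂ) * I) * conj w ^ 2 := by
  unfold MSc
  induction L with
  | nil => simp [csR, csI]
  | cons t L ih =>
    obtain ⟨-, h2⟩ := hL t List.mem_cons_self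
    obtain ⟨n, j, a, b⟩ := t
    have e : ∀ a b : ℤ, Int.add a b = a + b := fun _ _ => rfl
    rw [List.map_cons, List.sum_cons, ih fun s hs => hL s (List.mem_cons_of_mem _ hs)]
    simp only at h2 ⊢
    cases n with
    | zero =>
      have h0 : Nat.beq 0 0 = true := rfl
      have h01 : Nat.beq 0 1 = false := rfl
      have h02 : Nat.beq 0 2 = false := rfl
      have h10 : Nat.beq 1 0 = false := rfl
      have h11 : Nat.beq 1 1 = true := rfl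
      have h12 : Nat.beq 1 2 = false := rfl
      have h20 : Nat.beq 2 0 = false := rfl
      have h21 : Nat.beq 2 1 = false := rfl
      have h22 : Nat.beq 2 2 = true := rfl
      interval_cases j
      · simp only [csR, csI, h0, h01, h02, e, Bool.and_true, Bool.and_false, cond_true,
          cond_false]
        push_cast
        ring
      · simp only [csR, csI, h0, h10, h11, h12, e, Bool.and_true, Bool.and_false, cond_true,
          cond_false]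
        push_cast
        ring
      · simp only [csR, csI, h0, h20, h21, h22, e, Bool.and_true, Bool.and_false, cond_true,
          cond_false]
        push_cast
        ring
    | succ n =>
      have h0 : Nat.beq (n + 1) 0 = false := rfl
      simp only [csR, csI, h0, Bool.false_and, cond_false]
      simp

theorem shC_eq {N N' : ℕ} {MI MO : CL} (hI : ∀ t ∈ MI, t.1 ≤ N ∧ t.2.1 ≤ 2)
    (hO : ∀ t ∈ MO, t.1 ≤ N' ∧ t.2.1 ≤ 2) (h : shC MI MO = true) (w : ℂ) :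
    MSc MI 0 w = MSc MO 0 w := by
  simp only [shC, Bool.and_eq_true, decide_eq_true_eq] at h
  obtain ⟨⟨⟨h1, h2⟩, h3⟩, ⟨h4, h5⟩, h6⟩ := h
  rw [MSc_zero hI, MSc_zero hO, h1, h2, h3, h4, h5, h6]

section Mqc
variable {a p0 p1 p2 q0 q1 q2 k k' : ℝ} {M : ℤ} {MI MO : CL}

theorem bl_inC (hk : 0 < k) (hl : ∀ w : ℂ, ‖w‖ ≤ 1 → k ≤ rF p0 p1 p2 w) (M : ℤ) (MI : CL) :
    BL {w | ‖w‖ ≤ 1} fun w => MSc MI ((1 - ‖w‖ ^ 2) / rF p0 p1 p2 w) w / (M : ℂ) := by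
  have h1 : BL {w : ℂ | ‖w‖ ≤ 1} fun w => (((1 - ‖w‖ ^ 2) / rF p0 p1 p2 w : ℝ) : ℂ) :=
    (bl_l zero_le_one (fun w hw => hw) 1 hk fun w hw => hl w hw).congr fun w => by rw [one_mul]
  exact ((bl_MSc zero_le_one (fun w hw => hw) MI h1).mul (BL.const _ ((M : ℂ)⁻¹))).congr
    fun w => div_eq_mul_inv _ _

theorem bl_outC (hk : 0 < k) (hl : ∀ w : ℂ, k ≤ rF q0 q1 q2 w) (M : ℤ) (MO : CL) {R : ℝ}
    (hR : 0 ≤ R) :
    BL {w | ‖w‖ ≤ R} fun w => MSc MO ((‖w‖ ^ 2 - 1) / rF q0 q1 q2 w) w / (M : ℂ) := by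
  have h1 : BL {w : ℂ | ‖w‖ ≤ R} fun w => (((‖w‖ ^ 2 - 1) / rF q0 q1 q2 w : ℝ) : ℂ) :=
    (bl_l hR (fun w hw => hw) (-1) hk fun w _ => hl w).congr fun w => by
        congr 2
        ring
  exact ((bl_MSc hR (fun w hw => hw) MO h1).mul (BL.const _ ((M : ℂ)⁻¹))).congr
    fun w => div_eq_mul_inv _ _

theorem circC (hz : ∀ w, MSc MI 0 w = MSc MO 0 w) (w : ℂ) (hw : ‖w‖ = 1) :
    MSc MI ((1 - ‖w‖ ^ 2) / rF p0 p1 p2 w) w / (M : ℂ) =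
      MSc MO ((‖w‖ ^ 2 - 1) / rF q0 q1 q2 w) w / (M : ℂ) := by
  rw [hw, one_pow, sub_self, zero_div, zero_div, hz]

/-- **continuity** -/
theorem Mqc_cont (hk : 0 < k) (hl : ∀ w : ℂ, ‖w‖ ≤ 1 → k ≤ rF p0 p1 p2 w) (hk' : 0 < k')
    (hl' : ∀ w : ℂ, k' ≤ rF q0 q1 q2 w) (hz : ∀ w, MSc MI 0 w = MSc MO 0 w) :
    Continuous (Mqc M MI MO p0 p1 p2 q0 q1 q2) := by
  unfold Mqc
  refine continuous_if_le continuous_norm continuous_const (bl_inC hk hl M MI).contOn ?_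
    fun w hw => circC hz w hw
  have h1 : Continuous fun w : ℂ => MSc MO ((‖w‖ ^ 2 - 1) / rF q0 q1 q2 w) w / (M : ℂ) := by
    rw [continuous_iff_continuousAt]
    intro m
    refine (bl_outC hk' hl' M MO (R := ‖m‖ + 1) (by positivity)).contOn.continuousAt ?_
    exact Filter.mem_of_superset (ball_mem_nhds m one_pos) fun w hw => by
      have h2 : ‖w - m‖ < 1 := by rwa [mem_ball, dist_eq_norm] at hw
      have h3 : ‖w‖ ≤ ‖w - m‖ + ‖m‖ := by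
        have := norm_add_le (w - m) m
        rwa [sub_add_cancel] at this
      show ‖w‖ ≤ ‖m‖ + 1
      linarith
  exact h1.continuousOn

theorem Mqc_lip (hk : 0 < k) (hl : ∀ w : ℂ, ‖w‖ ≤ 1 → k ≤ rF p0 p1 p2 w) (hk' : 0 < k')
    (hl' : ∀ w : ℂ, k' ≤ rF q0 q1 q2 w) (hz : ∀ w, MSc MI 0 w = MSc MO 0 w) {R : ℝ}
    (hR : 1 ≤ R) : ∃ L : ℝ, 0 ≤ L ∧ ∀ w w' : ℂ, ‖w‖ ≤ R → ‖w'‖ ≤ R →
      ‖Mqc M MI MO p0 p1 p2 q0 q1 q2 w - Mqc M MI MO p0 p1 p2 q0 q1 q2 w'‖ ≤ L * ‖w - w'‖ :=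
  glue hR (bl_inC hk hl M MI) (bl_outC hk' hl' M MO (zero_le_one.trans hR))
    fun w hw => circC hz w hw

end Mqc

/-- **the multiplier of the direction `t`** -/
noncomputable def MuT (M : ℤ) (MI MO : CL) (p0 p1 p2 q0 q1 q2 t : ℝ) (m : ℂ) : ℂ :=
  conj (uT t) ^ 2 * ((1 + (t : ℂ) * I) / 2) * Mqc M MI MO p0 p1 p2 q0 q1 q2 (wu (uT t) m)

theorem fac_norm (t : ℝ) : ‖conj (uT t) ^ 2 * ((1 + (t : ℂ) * I) / 2)‖ =
    Real.sqrt (1 + t ^ 2) / 2 := by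
  rw [norm_mul, norm_pow, norm_conj, uT_norm, one_pow, one_mul, norm_div, Complex.norm_ofNat]
  congr 1
  rw [Complex.norm_eq_sqrt_sq_add_sq]
  simp

/-- the numbers of the check: resolutions, depths inside and outside, the degree in `l`, the
bound `Bn / Bd` of `M''`, the denominators of the two sides, the polynomials -/
structure CChk where
  (k n k' n' N : ℕ)
  (Bn Bd r r0 r1 r2 s s0 s1 s2 : ℤ)
  (FI FO : BP)

/-- the check inside -/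
def CChk.okI (c : CChk) (M : ℤ) (MI : CL) : Bool :=
  inC c.k c.n c.N c.r c.r0 c.r1 c.r2 M c.Bn c.Bd MI c.FI

/-- the check outside, one vertex -/
def CChk.okO (c : CChk) (M : ℤ) (MO : CL) (v : ℤ × ℤ × ℤ) : Bool :=
  outC c.k' c.n' c.N c.s c.s0 c.s1 c.s2 M c.Bn c.Bd MO c.FO v

/-- **the bound of `M''`** on the discs of the arc -/
theorem Mqc_le {p0 p1 p2 q0 q1 q2 k k' : ℝ} (hk : 0 < k)
    (hl : ∀ w : ℂ, ‖w‖ ≤ 1 → k ≤ rF p0 p1 p2 w) (hk' : 0 < k')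
    (hl' : ∀ w : ℂ, k' ≤ rF q0 q1 q2 w) {M : ℤ} {MI MO : CL} (hM : 0 < M) (c : CChk)
    (hc : 0 < c.k) (hc' : 0 < c.k') (hBn : 0 ≤ c.Bn) (hBd : 0 < c.Bd)
    (hr : ROk c.r c.r0 c.r1 c.r2 p0 p1 p2) (hr' : ROk c.s c.s0 c.s1 c.s2 q0 q1 q2)
    (hI : c.okI M MI = true) {w : ℂ} (h6 : ‖w + 1‖ ≤ 6)
    (hO : ∃ v : ℤ × ℤ × ℤ, c.okO M MO v = true ∧ Reg v w) :
    ‖Mqc M MI MO p0 p1 p2 q0 q1 q2 w‖ ≤ (c.Bn : ℝ) / c.Bd := by
  unfold Mqc
  split_ifs with h1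
  · have hr0 : (0:ℝ) < c.r := by exact_mod_cast hr.pos
    have h2 : 0 < rF p0 p1 p2 w := hk.trans_le (hl w h1)
    refine inC_le hI hc hM hBn hBd h1 (ρ := c.r * rF p0 p1 p2 w) ?_ (mul_pos hr0 h2).ne' ?_
    · rw [rF_eq, hr.e0, hr.e1, hr.e2]
      ring
    · push_cast
      field_simp
  · obtain ⟨v, hv, hR⟩ := hO
    have h1' : 1 ≤ ‖w‖ := (not_le.1 h1).le
    have hr0 : (0:ℝ) < c.s := by exact_mod_cast hr'.pos
    have h2 : 0 < rF q0 q1 q2 w := hk'.trans_le (hl' w)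
    refine outC_le hv hc' hM hBn hBd h1' h6 hR (ρ := c.s * rF q0 q1 q2 w) ?_
      (mul_pos hr0 h2).ne' ?_
    · rw [rF_eq, hr'.e0, hr'.e1, hr'.e2]
      ring
    · push_cast
      field_simp
      ring

/-- **`MOk` for every direction of the arc** -/
theorem mOk_T {p0 p1 p2 q0 q1 q2 k k' : ℝ} (hk : 0 < k)
    (hl : ∀ w : ℂ, ‖w‖ ≤ 1 → k ≤ rF p0 p1 p2 w) (hk' : 0 < k')
    (hl' : ∀ w : ℂ, k' ≤ rF q0 q1 q2 w) {M : ℤ} {MI MO : CL} (hM : 0 < M) (c : CChk)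
    (hc : 0 < c.k) (hc' : 0 < c.k') (hBn : 0 ≤ c.Bn) (hBd : 0 < c.Bd)
    (hr : ROk c.r c.r0 c.r1 c.r2 p0 p1 p2) (hr' : ROk c.s c.s0 c.s1 c.s2 q0 q1 q2)
    (hsh : shC MI MO = true) (hI : c.okI M MI = true) {a b : ℝ} {v1 v2 v3 : ℤ × ℤ × ℤ}
    (hO1 : c.okO M MO v1 = true) (hO2 : c.okO M MO v2 = true) (hO3 : c.okO M MO v3 = true)
    (p1' : 0 < v1.2.2) (p2' : 0 < v2.2.2) (p3' : 0 < v3.2.2)
    (e1 : (v1.1 : ℝ) = v1.2.2 * a) (f1 : (v1.2.1 : ℝ) = v1.2.2 * a ^ 2)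
    (e2 : (v2.1 : ℝ) = v2.2.2 * b) (f2 : (v2.2.1 : ℝ) = v2.2.2 * b ^ 2)
    (e3 : (v3.1 : ℝ) = v3.2.2 * ((a + b) / 2)) (f3 : (v3.2.1 : ℝ) = v3.2.2 * (a * b))
    {t : ℝ} (ha : a ≤ t) (hb : t ≤ b) {Mb : ℝ}
    (hMb : Real.sqrt (1 + t ^ 2) / 2 * ((c.Bn : ℝ) / c.Bd) < Mb) :
    ∃ (M' : ℂ → ℂ) (L' ε : ℝ), 0 < ε ∧ MOk (MuT M MI MO p0 p1 p2 q0 q1 q2 t) M' Mb L' ε := by
  have dI : ∀ s ∈ MI, s.1 ≤ c.N ∧ s.2.1 ≤ 2 := by
    have := hI
    simp only [CChk.okI, inC, Bool.and_eq_true] at this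
    exact degC_iff this.1.1
  have dO : ∀ s ∈ MO, s.1 ≤ c.N ∧ s.2.1 ≤ 2 := by
    have := hO1
    simp only [CChk.okO, outC, Bool.and_eq_true] at this
    exact degC_iff this.1.1
  have hz := shC_eq dI dO hsh
  obtain ⟨L, hL, hlip⟩ := Mqc_lip (M := M) hk hl hk' hl' hz (R := 10) (by norm_num)
  obtain ⟨z, hzz⟩ : ∃ z : ℂ, z = conj (uT t) ^ 2 * ((1 + (t : ℂ) * I) / 2) := ⟨_, rfl⟩
  have hzn : ‖z‖ = Real.sqrt (1 + t ^ 2) / 2 := by rw [hzz]; exact fac_norm t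
  have key := mOk_dir (F := fun w => z * Mqc M MI MO p0 p1 p2 q0 q1 q2 w)
    (continuous_const.mul (Mqc_cont hk hl hk' hl' hz)) (L := ‖z‖ * L) (by positivity)
    (fun w w' hw hw' => by
      rw [← mul_sub, norm_mul, mul_assoc]
      exact mul_le_mul_of_nonneg_left (hlip w w' hw hw') (norm_nonneg _))
    (uT_norm t) (b := Real.sqrt (1 + t ^ 2) / 2 * ((c.Bn : ℝ) / c.Bd)) (fun m hm => by
      obtain ⟨h6, hreg⟩ := cover ha hb p1' p2' p3' e1 f1 e2 f2 e3 f3 hm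
      have h1 := Mqc_le hk hl hk' hl' hM c hc hc' hBn hBd hr hr' hI h6 (MO := MO) (by
        rcases hreg with h | h | h
        · exact ⟨v1, hO1, h⟩
        · exact ⟨v2, hO2, h⟩
        · exact ⟨v3, hO3, h⟩)
      rw [norm_mul, hzn]
      exact mul_le_mul_of_nonneg_left h1 (by positivity)) hMb
  have e : (fun m => (fun w => z * Mqc M MI MO p0 p1 p2 q0 q1 q2 w) (wu (uT t) m)) =
      MuT M MI MO p0 p1 p2 q0 q1 q2 t := by
    funext m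
    unfold MuT
    rw [hzz]
  rwa [e] at key

end Pool.Agent.Helper11.CKC
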